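import Mathlib

/-!
# Besov and Hardy-Bessel capacities: definitions

Littlewood-Paley Besov quasi-norms, the real Hardy space quasi-norm (nontangential maximal function
of the heat extension), Bessel potentials and the two capacities of a set, on `ℝⁿ`.
-/

set_option autoImplicit false

open MeasureTheory SchwartzMap
open scoped ENNReal SchwartzMap ContDiff

noncomputable section

namespace Pool.Agent.Helper41K9.BH

/-- The space `ℝⁿ`. -/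
abbrev E (n : ℕ) : Type := EuclideanSpace ℝ (Fin n)

/-- `φ` is a smooth function on `ℝⁿ` with `φ = 1` on `|ξ| ≤ 1` and `φ = 0` on `|ξ| ≥ 2`. -/
structure IsCutoff {n : ℕ} (φ : E n → ℝ) : Prop where
  smooth : ContDiff ℝ ∞ φ
  one : ∀ ξ, ‖ξ‖ ≤ 1 → φ ξ = 1
  zero : ∀ ξ, 2 ≤ ‖ξ‖ → φ ξ = 0

/-- The Littlewood-Paley resolution of unity generated by `φ`: `φ_0 = φ` and
`φ_j(ξ) = φ(2^{-j} ξ) - φ(2^{-j+1} ξ)` for `j ≥ 1`. -/
def lpCutoff {n : ℕ} (φ : E n → ℝ) : ℕ → E n → ℝ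
  | 0, ξ => φ ξ
  | j + 1, ξ => φ (((2 : ℝ) ^ (j + 1))⁻¹ • ξ) - φ (((2 : ℝ) ^ j)⁻¹ • ξ)

/-- The Littlewood-Paley piece `Δ_j u`, with Fourier transform `φ_j û`. -/
def lpPiece {n : ℕ} (φ : E n → ℝ) (j : ℕ) (u : 𝓢(E n, ℂ)) : 𝓢(E n, ℂ) :=
  fourierMultiplierCLM ℂ (fun ξ => ((lpCutoff φ j ξ : ℝ) : ℂ)) u

/-- The `p`-th power of the Besov quasi-norm `|u|_{α,p,p}`: `∑_j 2^{jαp} ‖Δ_j u‖_p^p`. -/
def besov {n : ℕ} (φ : E n → ℝ) (α p : ℝ) (u : 𝓢(E n, ℂ)) : ℝ≥0∞ :=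
  ∑' j : ℕ, ENNReal.ofReal ((2 : ℝ) ^ ((j : ℝ) * α * p)) * ∫⁻ x, ‖lpPiece φ j u x‖ₑ ^ p

/-- The heat extension of `f` at time `t²`: the function with Fourier transform
`exp(-4π²t²|ξ|²) f̂(ξ)`. -/
def heat {n : ℕ} (t : ℝ) (f : 𝓢(E n, ℂ)) : 𝓢(E n, ℂ) :=
  fourierMultiplierCLM ℂ (fun ξ => ((Real.exp (-(2 * Real.pi * t * ‖ξ‖) ^ 2) : ℝ) : ℂ)) f

/-- The nontangential maximal function of the heat extension of `f` up to height `T`: the supremum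
of `|e^{t²Δ} f (y)|` over all `0 < t ≤ T` and `y` with `|y - x| < t`. -/
def maximal {n : ℕ} (T : ℝ≥0∞) (f : 𝓢(E n, ℂ)) (x : E n) : ℝ≥0∞ :=
  ⨆ (t : ℝ) (y : E n) (_ : dist y x < t ∧ ENNReal.ofReal t ≤ T), ‖heat t f y‖ₑ

/-- For `T = ∞`: the `p`-th power of the quasi-norm of `f` in the real Hardy space `H^p`.
For `T = 1`: the same for the local Hardy space `h^p`. -/
def hardy {n : ℕ} (T : ℝ≥0∞) (p : ℝ) (f : 𝓢(E n, ℂ)) : ℝ≥0∞ :=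
  ∫⁻ x, maximal T f x ^ p

/-- The Bessel potential `G_α * f`, with Fourier transform `(1 + 4π²|ξ|²)^{-α/2} f̂(ξ)`. -/
def bessel {n : ℕ} (α : ℝ) (f : 𝓢(E n, ℂ)) : 𝓢(E n, ℂ) :=
  fourierMultiplierCLM ℂ (fun ξ => (((1 + (2 * Real.pi * ‖ξ‖) ^ 2) ^ (-α / 2) : ℝ) : ℂ)) f

/-- `u` is real valued and `u ≥ 1` on `K`. -/
def AtLeastOneOn {n : ℕ} (K : Set (E n)) (u : 𝓢(E n, ℂ)) : Prop :=
  (∀ x, (u x).im = 0) ∧ ∀ x ∈ K, 1 ≤ (u x).re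

/-- The Besov capacity `A_{α,p,p}(K)`: the infimum of `|u|_{α,p,p}^p` over the real valued Schwartz
functions `u` in the class `D` with `u ≥ 1` on `K`. -/
def capA {n : ℕ} (φ : E n → ℝ) (α p : ℝ) (D : Set 𝓢(E n, ℂ)) (K : Set (E n)) : ℝ≥0∞ :=
  ⨅ (u : 𝓢(E n, ℂ)) (_ : u ∈ D ∧ AtLeastOneOn K u), besov φ α p u

/-- The Hardy-Bessel capacity `B_{α,p}(K)` (for `T = ∞`): the infimum of
`‖G_α * f‖^p = ‖f‖_{H^p}^p` over the potentials `G_α * f` which are real valued Schwartz functions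
in the class `D` with `G_α * f ≥ 1` on `K`. For `T = 1`: the same with the local Hardy space
`h^p`. -/
def capB {n : ℕ} (T : ℝ≥0∞) (α p : ℝ) (D : Set 𝓢(E n, ℂ)) (K : Set (E n)) : ℝ≥0∞ :=
  ⨅ (f : 𝓢(E n, ℂ)) (_ : bessel α f ∈ D ∧ AtLeastOneOn K (bessel α f)), hardy T p f

end Pool.Agent.Helper41K9.BH
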