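import Mathlib
import Pool.Agent.Helper41K9.BH.Defs

set_option autoImplicit false

open MeasureTheory SchwartzMap
open scoped ENNReal SchwartzMap ContDiff

noncomputable section

namespace Pool.Agent.Helper41K9.BH

variable {n : ℕ}

/-- Indices of cubes. -/
abbrev Idx (n : ℕ) : Type := Fin n → ℤ

/-- The index of the cube of side `B^{-k}` which contains `x`. -/
def idx (B k : ℕ) (x : E n) : Idx n := fun i => ⌊(B : ℝ) ^ k * x i⌋

/-- The index of the parent cube. -/
def par (B : ℕ) (m : Idx n) : Idx n := fun i => m i / (B : ℤ)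

/-- The children of a cube. -/
def chil (B : ℕ) (m : Idx n) : Finset (Idx n) :=
  Fintype.piFinset fun i => Finset.Ico ((B : ℤ) * m i) ((B : ℤ) * (m i + 1))

lemma mem_chil {B : ℕ} (hB : 0 < B) (m m' : Idx n) : m' ∈ chil B m ↔ par B m' = m := by
  have hB' : (0 : ℤ) < (B : ℤ) := by exact_mod_cast hB
  unfold chil par
  rw [Fintype.mem_piFinset, funext_iff]
  refine forall_congr' fun i => ?_
  rw [Finset.mem_Ico, Int.ediv_eq_iff_of_pos hB']
  constructor
  · rintro ⟨h1, h2⟩; constructor <;> nlinarith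
  · rintro ⟨h1, h2⟩; constructor <;> nlinarith

lemma par_idx {B : ℕ} (hB : 0 < B) (k : ℕ) (x : E n) : par B (idx B (k + 1) x) = idx B k x := by
  funext i
  unfold par idx
  have hB' : (B : ℝ) ≠ 0 := by exact_mod_cast hB.ne'
  have h := Int.floor_div_natCast ((B : ℝ) ^ (k + 1) * x i) B
  rw [← h]
  congr 1
  field_simp
  ring

/-- The minimal content of a cover of the part of `K` in a cube of generation `k` by cubes of
generation between `k` and `k + d`. -/
def cont (B : ℕ) (K : Set (E n)) (r : ℝ≥0∞) : ℕ → ℕ → Idx n → ℝ≥0∞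
  | 0, k, m => open Classical in if ∃ x ∈ K, idx B k x = m then r ^ k else 0
  | d + 1, k, m => min (r ^ k) (∑ m' ∈ chil B m, cont B K r d (k + 1) m')

/-- Weighted sums over the descendants. -/
def wsum (B : ℕ) (w : ℕ → Idx n → ℝ≥0∞) (r : ℝ≥0∞) : ℕ → ℕ → Idx n → ℝ≥0∞
  | 0, k, m => w k m * r ^ k
  | d + 1, k, m => w k m * r ^ k + ∑ m' ∈ chil B m, wsum B w r d (k + 1) m'

/-- Sums over the cubes containing a point. -/
def psum (B : ℕ) (w : ℕ → Idx n → ℝ≥0∞) : ℕ → ℕ → E n → ℝ≥0∞
  | 0, k, x => w k (idx B k x)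
  | d + 1, k, x => w k (idx B k x) + psum B w d (k + 1) x

lemma psum_eq (B : ℕ) (w : ℕ → Idx n → ℝ≥0∞) (d k : ℕ) (x : E n) :
    psum B w d k x = ∑ i ∈ Finset.range (d + 1), w (k + i) (idx B (k + i) x) := by
  induction d generalizing k with
  | zero => simp [psum]
  | succ d ih =>
    rw [psum, ih, Finset.sum_range_succ' _ (d + 1), add_comm]
    simp [add_assoc, add_comm 1]

lemma cont_le (B : ℕ) (K : Set (E n)) (r : ℝ≥0∞) (d k : ℕ) (m : Idx n) :
    cont B K r d k m ≤ r ^ k := by
  cases d with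
  | zero => unfold cont; split_ifs <;> simp
  | succ d => unfold cont; exact min_le_left _ _

/-- A fractional cover is not cheaper than an integral one. -/
lemma round_le {B : ℕ} (hB : 0 < B) (K : Set (E n)) (r : ℝ≥0∞) (w : ℕ → Idx n → ℝ≥0∞) (d : ℕ) :
    ∀ (k : ℕ) (m : Idx n) (θ : ℝ≥0∞), (∀ x ∈ K, idx B k x = m → θ ≤ psum B w d k x) →
      θ * cont B K r d k m ≤ wsum B w r d k m := by
  induction d with
  | zero =>
    intro k m θ h
    unfold cont wsum
    split_ifs with hx
    · obtain ⟨x, hx, hxm⟩ := hx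
      have := h x hx hxm
      unfold psum at this
      rw [hxm] at this
      gcongr
    · simp
  | succ d ih =>
    intro k m θ h
    have h1 : θ ≤ w k m + (θ - w k m) := le_add_tsub
    have h2 : ∀ m' ∈ chil B m, (θ - w k m) * cont B K r d (k + 1) m' ≤ wsum B w r d (k + 1) m' := by
      intro m' hm'
      apply ih
      intro x hx hxm
      have h3 : idx B k x = m := by
        rw [← par_idx hB, hxm]
        exact (mem_chil hB _ _).1 hm'
      have h4 := h x hx h3
      unfold psum at h4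
      rw [h3] at h4
      exact tsub_le_iff_left.2 h4
    calc θ * cont B K r (d + 1) k m ≤ (w k m + (θ - w k m)) * cont B K r (d + 1) k m := by gcongr
      _ = w k m * cont B K r (d + 1) k m + (θ - w k m) * cont B K r (d + 1) k m := add_mul _ _ _
      _ ≤ w k m * r ^ k + (θ - w k m) * ∑ m' ∈ chil B m, cont B K r d (k + 1) m' := by
        gcongr
        · exact cont_le _ _ _ _ _ _
        · rw [cont]; exact min_le_right _ _
      _ ≤ wsum B w r (d + 1) k m := by
        rw [wsum, Finset.mul_sum]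
        gcongr with m' hm'
        exact h2 m' hm'

lemma tsum_chil {B : ℕ} (hB : 0 < B) (g : Idx n → ℝ≥0∞) :
    ∑' m, ∑ m' ∈ chil B m, g m' = ∑' m', g m' := by
  classical
  have h1 : ∀ m : Idx n, ∑ m' ∈ chil B m, g m' = ∑' m' : Idx n, if par B m' = m then g m' else 0 := by
    intro m
    rw [tsum_eq_sum (s := chil B m)]
    · refine Finset.sum_congr rfl fun m' hm' => ?_
      rw [if_pos ((mem_chil hB _ _).1 hm')]
    · intro m' hm'
      rw [if_neg fun h => hm' ((mem_chil hB _ _).2 h)]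
  simp_rw [h1]
  rw [ENNReal.tsum_comm]
  refine tsum_congr fun m' => ?_
  rw [tsum_eq_single (par B m')]
  · simp
  · intro m hm
    rw [if_neg (Ne.symm hm)]

lemma tsum_wsum {B : ℕ} (hB : 0 < B) (r : ℝ≥0∞) (w : ℕ → Idx n → ℝ≥0∞) (d k : ℕ) :
    ∑' m, wsum B w r d k m = ∑ i ∈ Finset.range (d + 1), ∑' m, w (k + i) m * r ^ (k + i) := by
  induction d generalizing k with
  | zero => simp [wsum]
  | succ d ih =>
    simp_rw [wsum]
    rw [ENNReal.tsum_add, tsum_chil hB, ih, Finset.sum_range_succ' _ (d + 1), add_comm]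
    simp [add_assoc, add_comm 1]

/-- The bottom line: fractional covers bound the total content. -/
lemma cont_le_tsum {B : ℕ} (hB : 0 < B) (K : Set (E n)) (r : ℝ≥0∞) (w : ℕ → Idx n → ℝ≥0∞) (d : ℕ)
    (h : ∀ x ∈ K, 1 ≤ ∑ i ∈ Finset.range (d + 1), w i (idx B i x)) :
    ∑' m, cont B K r d 0 m ≤ ∑ i ∈ Finset.range (d + 1), ∑' m, w i m * r ^ i := by
  have h1 : ∀ m, cont B K r d 0 m ≤ wsum B w r d 0 m := by
    intro m
    have := round_le hB K r w d 0 m 1 (fun x hx _ => by
      rw [psum_eq]; simpa using h x hx)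
    simpa using this
  calc ∑' m, cont B K r d 0 m ≤ ∑' m, wsum B w r d 0 m := ENNReal.tsum_le_tsum h1
    _ = _ := by rw [tsum_wsum hB]; simp

end Pool.Agent.Helper41K9.BH
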