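import Mathlib
import Pool.Agent.Helper41K9.BH.Comb

set_option autoImplicit false

open MeasureTheory SchwartzMap
open scoped ENNReal SchwartzMap ContDiff

noncomputable section

namespace Pool.Agent.Helper41K9.BH

variable {n : ℕ}

/-- Real valued with compact support. -/
def IsRe (u : 𝓢(E n, ℂ)) : Prop := (∀ x, (u x).im = 0) ∧ HasCompactSupport u

lemma schwartz_sum_apply {ι : Type*} (s : Finset ι) (f : ι → 𝓢(E n, ℂ)) (x : E n) :
    (∑ i ∈ s, f i) x = ∑ i ∈ s, f i x := by
  classical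
  induction s using Finset.induction_on with
  | empty => simp
  | insert i s hi ih => rw [Finset.sum_insert hi, Finset.sum_insert hi, add_apply, ih]

lemma isRe_zero : IsRe (0 : 𝓢(E n, ℂ)) :=
  ⟨fun x => by simp, HasCompactSupport.intro isCompact_empty fun _ _ => rfl⟩

lemma isRe_add {u v : 𝓢(E n, ℂ)} (hu : IsRe u) (hv : IsRe v) : IsRe (u + v) :=
  ⟨fun x => by rw [add_apply, Complex.add_im, hu.1, hv.1, add_zero], hu.2.add hv.2⟩

lemma isRe_smul {u : 𝓢(E n, ℂ)} (hu : IsRe u) (c : ℝ) : IsRe ((c : ℂ) • u) :=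
  ⟨fun x => by rw [smul_apply, smul_eq_mul, Complex.im_ofReal_mul, hu.1, mul_zero],
    HasCompactSupport.smul_left (f := fun _ => (c : ℂ)) hu.2⟩

lemma isRe_sum {ι : Type*} (s : Finset ι) (f : ι → 𝓢(E n, ℂ)) (h : ∀ i ∈ s, IsRe (f i)) :
    IsRe (∑ i ∈ s, f i) := by
  classical
  induction s using Finset.induction_on with
  | empty => simpa using isRe_zero
  | insert i s hi ih =>
    rw [Finset.sum_insert hi]
    exact isRe_add (h i (Finset.mem_insert_self i s))
      (ih fun j hj => h j (Finset.mem_insert_of_mem hj))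

lemma cost_sum {ι : Type*} (cost : 𝓢(E n, ℂ) → ℝ≥0∞) (hc0 : cost 0 = 0)
    (hcadd : ∀ u v, cost (u + v) ≤ cost u + cost v) (s : Finset ι) (f : ι → 𝓢(E n, ℂ)) :
    cost (∑ i ∈ s, f i) ≤ ∑ i ∈ s, cost (f i) := by
  classical
  induction s using Finset.induction_on with
  | empty => simp [hc0]
  | insert i s hi ih =>
    rw [Finset.sum_insert hi, Finset.sum_insert hi]
    exact (hcadd _ _).trans (by gcongr)

/-- The construction: from atoms to a function with `u ≥ 1` on `K`, whose cost is controlled by the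
content of `K`. -/
lemma build {B : ℕ} (hB : 0 < B) (K : Set (E n)) (r κ : ℝ) (hr : 0 < r) (hr1 : r ≤ 1) (hκ : 0 ≤ κ)
    (hκr : 4 * κ ≤ r) (cost : 𝓢(E n, ℂ) → ℝ≥0∞) (hc0 : cost 0 = 0)
    (hcadd : ∀ u v, cost (u + v) ≤ cost u + cost v)
    (hcmul : ∀ (c : ℝ) (u), 1 ≤ c → cost ((c : ℂ) • u) ≤ ENNReal.ofReal c * cost u)
    (C₀ : ℝ≥0∞)
    (hatom : ∀ (k : ℕ) (m' : Idx n), ∃ a : 𝓢(E n, ℂ), IsRe a ∧
      (∀ x, idx B (k + 1) x = m' → 1 - κ ≤ (a x).re) ∧
      (∀ x, idx B k x = par B m' → -κ ≤ (a x).re) ∧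
      (∀ x, idx B k x ≠ par B m' → 0 ≤ (a x).re) ∧
      cost a ≤ C₀ * ENNReal.ofReal r ^ (k + 1)) (d : ℕ) :
    ∀ (k : ℕ) (m : Idx n), cont B K (ENNReal.ofReal r) d k m < ENNReal.ofReal r ^ k →
      ∃ U : 𝓢(E n, ℂ), IsRe U ∧ (∀ x ∈ K, idx B k x = m → 1 ≤ (U x).re) ∧
        (∀ x, idx B k x ≠ m → 0 ≤ (U x).re) ∧
        cost U ≤ 2 * C₀ * cont B K (ENNReal.ofReal r) d k m := by
  classical
  induction d with
  | zero =>
    intro k m h
    refine ⟨0, isRe_zero, ?_, fun x _ => by simp, by rw [hc0]; exact bot_le⟩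
    intro x hx hxm
    exfalso
    rw [cont, if_pos ⟨x, hx, hxm⟩] at h
    exact lt_irrefl _ h
  | succ d ih =>
    intro k m h
    set R : ℝ≥0∞ := ENNReal.ofReal r with hR
    have hcont : cont B K R (d + 1) k m = ∑ m' ∈ chil B m, cont B K R d (k + 1) m' := by
      rw [cont] at h ⊢
      rcases min_choice (R ^ k) (∑ m' ∈ chil B m, cont B K R d (k + 1) m') with h1 | h1
      · rw [h1] at h; exact absurd h (lt_irrefl _)
      · exact h1
    set S1 := (chil B m).filter fun m' => cont B K R d (k + 1) m' = R ^ (k + 1) with hS1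
    set S0 := (chil B m).filter fun m' => ¬ cont B K R d (k + 1) m' = R ^ (k + 1) with hS0
    have hlt : ∀ m' ∈ S0, cont B K R d (k + 1) m' < R ^ (k + 1) := by
      intro m' hm'
      rw [hS0, Finset.mem_filter] at hm'
      exact lt_of_le_of_ne (cont_le _ _ _ _ _ _) hm'.2
    have hpar : ∀ m' ∈ chil B m, par B m' = m := fun m' hm' => (mem_chil hB _ _).1 hm'
    choose! a ha1 ha2 ha3 ha4 ha5 using hatom k
    have hU : ∀ m' : Idx n, ∃ U : 𝓢(E n, ℂ), m' ∈ S0 → (IsRe U ∧
        (∀ x ∈ K, idx B (k + 1) x = m' → 1 ≤ (U x).re) ∧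
        (∀ x, idx B (k + 1) x ≠ m' → 0 ≤ (U x).re) ∧
        cost U ≤ 2 * C₀ * cont B K R d (k + 1) m') := by
      intro m'
      by_cases hm' : m' ∈ S0
      · obtain ⟨U, hU⟩ := ih (k + 1) m' (hlt m' hm')
        exact ⟨U, fun _ => hU⟩
      · exact ⟨0, fun h => absurd h hm'⟩
    choose U hU using hU
    set N : ℕ := S1.card with hN
    -- the two parts of the content
    have hsplit : cont B K R (d + 1) k m =
        (N : ℝ≥0∞) * R ^ (k + 1) + ∑ m' ∈ S0, cont B K R d (k + 1) m' := by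
      rw [hcont, ← Finset.sum_filter_add_sum_filter_not (chil B m)
        (fun m' => cont B K R d (k + 1) m' = R ^ (k + 1)), ← hS1, ← hS0]
      congr 1
      rw [Finset.sum_congr rfl (g := fun _ => R ^ (k + 1))]
      · rw [Finset.sum_const, nsmul_eq_mul]
      · intro m' hm'
        rw [hS1, Finset.mem_filter] at hm'
        exact hm'.2
    set D : ℝ≥0∞ := ∑ m' ∈ S0, cont B K R d (k + 1) m' with hD
    have hR0 : R ≠ 0 := by rw [hR]; simpa using hr
    have hRtop : R ≠ ⊤ := ENNReal.ofReal_ne_top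
    -- N r < 1
    have hNr : (N : ℝ≥0∞) * R ≤ 1 := by
      have h1 : (N : ℝ≥0∞) * R ^ (k + 1) ≤ R ^ k := by
        calc (N : ℝ≥0∞) * R ^ (k + 1) ≤ cont B K R (d + 1) k m := by rw [hsplit]; exact le_self_add
          _ ≤ R ^ k := h.le
      have h2 : ((N : ℝ≥0∞) * R) * R ^ k ≤ 1 * R ^ k := by
        calc ((N : ℝ≥0∞) * R) * R ^ k = (N : ℝ≥0∞) * R ^ (k + 1) := by ring
          _ ≤ 1 * R ^ k := by rw [one_mul]; exact h1
      exact (ENNReal.mul_le_mul_iff_left (pow_ne_zero _ hR0) (ENNReal.pow_ne_top hRtop)).1 h2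
    have hNr' : (N : ℝ) * r ≤ 1 := by
      have := ENNReal.toReal_mono ENNReal.one_ne_top hNr
      rwa [ENNReal.toReal_mul, ENNReal.toReal_natCast, hR, ENNReal.toReal_ofReal hr.le,
        ENNReal.toReal_one] at this
    have hNκ : (N : ℝ) * κ ≤ 1 / 4 := by nlinarith [(Nat.cast_nonneg N : (0 : ℝ) ≤ N)]
    have hNκ0 : 0 ≤ (N : ℝ) * κ := by positivity
    set b : ℝ := 2 * (N * κ) with hb
    have hb0 : 0 ≤ b := by positivity
    have hval : ∀ x, ((((1 + b : ℝ) : ℂ) • (∑ m' ∈ S1, a m' + ∑ m' ∈ S0, U m')) x).re =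
        (1 + b) * (∑ m' ∈ S1, (a m' x).re + ∑ m' ∈ S0, (U m' x).re) := by
      intro x
      rw [smul_apply, smul_eq_mul, Complex.re_ofReal_mul, add_apply, schwartz_sum_apply,
        schwartz_sum_apply, Complex.add_re, Complex.re_sum, Complex.re_sum]
    have hm1 : ∀ m' ∈ S1, m' ∈ chil B m := fun m' h => (Finset.mem_filter.1 h).1
    have hm0 : ∀ m' ∈ S0, m' ∈ chil B m := fun m' h => (Finset.mem_filter.1 h).1
    refine ⟨((1 + b : ℝ) : ℂ) • (∑ m' ∈ S1, a m' + ∑ m' ∈ S0, U m'), ?_, ?_, ?_, ?_⟩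
    · exact isRe_smul (isRe_add (isRe_sum _ _ fun m' _ => ha1 m')
        (isRe_sum _ _ fun m' hm' => (hU m' hm').1)) _
    · intro x hx hxm
      rw [hval]
      set m' := idx B (k + 1) x with hm'
      have hch : m' ∈ chil B m := (mem_chil hB _ _).2 (by rw [hm', par_idx hB, hxm])
      have key : 1 - N * κ ≤ ∑ m' ∈ S1, (a m' x).re + ∑ m' ∈ S0, (U m' x).re := by
        by_cases hcase : cont B K R d (k + 1) m' = R ^ (k + 1)
        · have hmS1 : m' ∈ S1 := Finset.mem_filter.2 ⟨hch, hcase⟩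
          have e1 : 0 ≤ ∑ m' ∈ S0, (U m' x).re := by
            refine Finset.sum_nonneg fun m'' hm'' => (hU m'' hm'').2.2.1 x ?_
            intro h1
            rw [hS0, Finset.mem_filter] at hm''
            rw [← h1] at hm''
            exact hm''.2 hcase
          have e2 : (1 : ℝ) + ∑ m'' ∈ S1, (-κ) ≤ ∑ m'' ∈ S1, (a m'' x).re := by
            rw [← Finset.add_sum_erase _ _ hmS1, ← Finset.add_sum_erase _ _ hmS1, ← add_assoc]
            refine add_le_add ?_ (Finset.sum_le_sum fun m'' hm'' => ?_)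
            · exact ha2 m' x rfl
            · refine ha3 m'' x ?_
              rw [hpar m'' (hm1 m'' (Finset.mem_of_mem_erase hm'')), hxm]
          rw [Finset.sum_const, nsmul_eq_mul, ← hN] at e2
          linarith
        · have hmS0 : m' ∈ S0 := Finset.mem_filter.2 ⟨hch, hcase⟩
          have e1 : 1 ≤ ∑ m' ∈ S0, (U m' x).re := by
            refine le_trans ((hU m' hmS0).2.1 x hx rfl) ?_
            refine Finset.single_le_sum (f := fun m' => (U m' x).re) (fun m'' hm'' => ?_) hmS0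
            by_cases h1 : idx B (k + 1) x = m''
            · have := (hU m'' hm'').2.1 x hx h1
              show 0 ≤ (U m'' x).re
              linarith
            · exact (hU m'' hm'').2.2.1 x h1
          have e2 : ∑ m'' ∈ S1, (-κ) ≤ ∑ m'' ∈ S1, (a m'' x).re := by
            refine Finset.sum_le_sum fun m'' hm'' => ha3 m'' x ?_
            rw [hpar m'' (hm1 m'' hm''), hxm]
          rw [Finset.sum_const, nsmul_eq_mul, ← hN] at e2
          linarith
      calc (1 : ℝ) ≤ (1 + b) * (1 - N * κ) := by rw [hb]; nlinarith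
        _ ≤ _ := by gcongr
    · intro x hxm
      rw [hval]
      refine mul_nonneg (by linarith) (add_nonneg (Finset.sum_nonneg fun m' hm' => ?_)
        (Finset.sum_nonneg fun m' hm' => ?_))
      · refine ha4 m' x ?_
        rw [hpar m' (hm1 m' hm')]
        exact hxm
      · refine (hU m' hm').2.2.1 x ?_
        intro h1
        apply hxm
        rw [← par_idx hB, h1]
        exact hpar m' (hm0 m' hm')
    · have hcost : cost (∑ m' ∈ S1, a m' + ∑ m' ∈ S0, U m') ≤
          C₀ * (N * R ^ (k + 1)) + 2 * C₀ * D := by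
        refine (hcadd _ _).trans (add_le_add ?_ ?_)
        · refine (cost_sum cost hc0 hcadd _ _).trans ?_
          calc ∑ m' ∈ S1, cost (a m') ≤ ∑ m' ∈ S1, C₀ * R ^ (k + 1) :=
                Finset.sum_le_sum fun m' _ => ha5 m'
            _ = C₀ * (N * R ^ (k + 1)) := by
                rw [Finset.sum_const, nsmul_eq_mul, ← hN]; ring
        · refine (cost_sum cost hc0 hcadd _ _).trans ?_
          rw [hD, Finset.mul_sum]
          exact Finset.sum_le_sum fun m' hm' => (hU m' hm').2.2.2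
      refine (hcmul _ _ (by linarith)).trans ?_
      refine (mul_le_mul_right hcost _).trans ?_
      rw [hsplit]
      -- (1 + b) (A + 2 D) ≤ 2 (A + D)
      set A : ℝ≥0∞ := (N : ℝ≥0∞) * R ^ (k + 1) with hA
      have hbA : ENNReal.ofReal b * (2 * (A + D)) ≤ A := by
        have h1 : A + D ≤ R ^ k := by rw [← hsplit]; exact h.le
        have h2 : ENNReal.ofReal b = 2 * (N * ENNReal.ofReal κ) := by
          rw [hb, ENNReal.ofReal_mul (by norm_num), ENNReal.ofReal_mul (by positivity),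
            ENNReal.ofReal_natCast]
          norm_num
        have h3 : 4 * ENNReal.ofReal κ ≤ R := by
          rw [hR]
          calc 4 * ENNReal.ofReal κ = ENNReal.ofReal (4 * κ) := by
                rw [ENNReal.ofReal_mul (by norm_num)]; norm_num
            _ ≤ ENNReal.ofReal r := ENNReal.ofReal_le_ofReal hκr
        calc ENNReal.ofReal b * (2 * (A + D)) ≤ (2 * (N * ENNReal.ofReal κ)) * (2 * R ^ k) := by
              rw [h2]; gcongr
          _ = N * ((4 * ENNReal.ofReal κ) * R ^ k) := by ring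
          _ ≤ N * (R * R ^ k) := by gcongr
          _ = A := by rw [hA]; ring
      have h1b : ENNReal.ofReal (1 + b) = 1 + ENNReal.ofReal b := by
        rw [ENNReal.ofReal_add zero_le_one hb0, ENNReal.ofReal_one]
      calc ENNReal.ofReal (1 + b) * (C₀ * A + 2 * C₀ * D)
          = C₀ * ((A + 2 * D) + ENNReal.ofReal b * (A + 2 * D)) := by rw [h1b]; ring
        _ ≤ C₀ * ((A + 2 * D) + ENNReal.ofReal b * (2 * (A + D))) := by
            gcongr
            calc A + 2 * D ≤ 2 * A + 2 * D := by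
                  gcongr
                  calc A = 1 * A := (one_mul _).symm
                    _ ≤ 2 * A := by gcongr; exact one_le_two
              _ = 2 * (A + D) := by ring
        _ ≤ C₀ * ((A + 2 * D) + A) := by gcongr
        _ = 2 * C₀ * (A + D) := by ring

end Pool.Agent.Helper41K9.BH
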