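import Mathlib
import Pool.Agent.Helper41K9.BH.Defs

set_option autoImplicit false

open MeasureTheory SchwartzMap FourierTransform
open scoped ENNReal SchwartzMap ContDiff

noncomputable section

namespace Pool.Agent.Helper41K9.BH

variable {n : ℕ}

/-- Fourier multiplier. -/
abbrev fm (m : E n → ℂ) (g : 𝓢(E n, ℂ)) : 𝓢(E n, ℂ) := fourierMultiplierCLM ℂ m g

lemma fm_apply {m : E n → ℂ} (hm : m.HasTemperateGrowth) (g : 𝓢(E n, ℂ)) (x : E n) :
    fm m g x = ∫ ξ, Real.fourierChar (inner ℝ ξ x) • (m ξ * 𝓕 g ξ) := by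
  rw [fm, fourierMultiplierCLM_apply, fourierInv_coe, Real.fourierInv_eq]
  congr 1
  ext ξ
  rw [smulLeftCLM_apply_apply hm, smul_eq_mul]

lemma norm_fm_le {m : E n → ℂ} (hm : m.HasTemperateGrowth) (g : 𝓢(E n, ℂ)) (x : E n) :
    ‖fm m g x‖ ≤ ∫ ξ, ‖m ξ‖ * ‖𝓕 g ξ‖ := by
  rw [fm_apply hm]
  refine (norm_integral_le_integral_norm _).trans (le_of_eq ?_)
  congr 1
  ext ξ
  rw [Circle.norm_smul, norm_mul]

/-- Dilation and translation. -/
def dil (a : ℝ) (ha : a ≠ 0) (b : E n) (g : 𝓢(E n, ℂ)) : 𝓢(E n, ℂ) :=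
  compCLMOfContinuousLinearEquiv ℂ (ContinuousLinearEquiv.smulLeft (Units.mk0 a ha) : E n ≃L[ℝ] E n)
    (compSubConstCLM ℂ b g)

@[simp] lemma dil_apply (a : ℝ) (ha : a ≠ 0) (b : E n) (g : 𝓢(E n, ℂ)) (x : E n) :
    dil a ha b g x = g (a • x - b) := rfl

lemma fourier_dil (a : ℝ) (ha : 0 < a) (b : E n) (g : 𝓢(E n, ℂ)) (ξ : E n) :
    𝓕 (dil a ha.ne' b g) ξ =
      ((a ^ n)⁻¹ : ℝ) • (Real.fourierChar (-(inner ℝ b (a⁻¹ • ξ))) • 𝓕 g (a⁻¹ • ξ)) := by
  rw [fourier_coe, fourier_coe, Real.fourier_eq, Real.fourier_eq]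
  have h1 : ∀ v : E n, Real.fourierChar (-(inner ℝ v ξ)) • dil a ha.ne' b g v =
      (fun y => Real.fourierChar (-(inner ℝ (y + b) (a⁻¹ • ξ))) • g y) (a • v - b) := by
    intro v
    simp only [dil_apply, sub_add_cancel]
    congr 3
    rw [inner_smul_left, inner_smul_right]
    simp [ha.ne']
  simp_rw [h1]
  have h2 := Measure.integral_comp_smul (volume : Measure (E n))
    (fun z => (fun y => Real.fourierChar (-(inner ℝ (y + b) (a⁻¹ • ξ))) • g y) (z - b)) a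
  rw [h2, finrank_euclideanSpace_fin, abs_of_pos (by positivity),
    integral_sub_right_eq_self (fun y => Real.fourierChar (-(inner ℝ (y + b) (a⁻¹ • ξ))) • g y) b]
  congr 1
  simp_rw [Circle.smul_def, smul_eq_mul]
  rw [← integral_const_mul]
  congr 1
  ext y
  rw [← mul_assoc, ← Circle.coe_mul, ← AddChar.map_add_eq_mul, inner_add_left]
  congr 4
  ring

lemma fm_dil {m : E n → ℂ} (hm : m.HasTemperateGrowth) (a : ℝ) (ha : 0 < a) (b : E n)
    (g : 𝓢(E n, ℂ)) (x : E n) :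
    fm m (dil a ha.ne' b g) x = fm (fun ξ => m (a • ξ)) g (a • x - b) := by
  have hm' : (fun ξ : E n => m (a • ξ)).HasTemperateGrowth := by fun_prop
  rw [fm_apply hm, fm_apply hm']
  have h1 : ∀ ξ : E n, Real.fourierChar (inner ℝ ξ x) • (m ξ * 𝓕 (dil a ha.ne' b g) ξ) =
      ((a ^ n)⁻¹ : ℝ) • (fun η => Real.fourierChar (inner ℝ η (a • x - b)) •
        (m (a • η) * 𝓕 g η)) (a⁻¹ • ξ) := by
    intro ξ
    simp only
    rw [fourier_dil a ha b g ξ, smul_inv_smul₀ ha.ne']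
    simp only [Circle.smul_def, smul_eq_mul, Complex.real_smul]
    have h2 : (Real.fourierChar (inner ℝ (a⁻¹ • ξ) (a • x - b)) : ℂ) =
        Real.fourierChar (inner ℝ ξ x) * Real.fourierChar (-(inner ℝ b (a⁻¹ • ξ))) := by
      rw [← Circle.coe_mul, ← AddChar.map_add_eq_mul]
      congr 2
      rw [inner_sub_right, inner_smul_left, inner_smul_right, real_inner_comm (a⁻¹ • ξ) b]
      simp only [conj_trivial]
      field_simp
      ring
    rw [h2]
    ring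
  simp_rw [h1]
  rw [integral_smul]
  have h4 := Measure.integral_comp_smul (volume : Measure (E n))
    (fun η => Real.fourierChar (inner ℝ η (a • x - b)) • (m (a • η) * 𝓕 g η)) a⁻¹
  rw [h4, finrank_euclideanSpace_fin, smul_smul, abs_of_pos (by positivity)]
  have h3 : (a ^ n)⁻¹ * (a⁻¹ ^ n)⁻¹ = 1 := by
    rw [inv_pow, inv_inv]
    exact inv_mul_cancel₀ (by positivity)
  rw [h3, one_smul]

/-- Kernel representation. -/
lemma fm_schwartz_apply (θ g : 𝓢(E n, ℂ)) (x : E n) :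
    fm θ g x = ∫ t, (𝓕⁻ θ : 𝓢(E n, ℂ)) t * g (x - t) := by
  have h1 : fm θ g = SchwartzMap.convolution (ContinuousLinearMap.mul ℂ ℂ) (𝓕⁻ θ) g := by
    have h2 : 𝓕 (SchwartzMap.convolution (ContinuousLinearMap.mul ℂ ℂ) (𝓕⁻ θ) g) = 𝓕 (fm θ g) := by
      rw [fourier_convolution, FourierTransform.fourier_fourierInv_eq, fm,
        fourierMultiplierCLM_apply, FourierTransform.fourier_fourierInv_eq]
      ext ξ
      rw [pairing_apply_apply, smulLeftCLM_apply_apply θ.hasTemperateGrowth]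
      simp
    have h3 := congrArg (fun f => 𝓕⁻ f) h2
    simpa using h3.symm
  rw [h1, convolution_apply]
  rfl

lemma fm_scale (θ : 𝓢(E n, ℂ)) (l : ℝ) (hl : 0 < l) (g : 𝓢(E n, ℂ)) (x : E n) :
    fm (fun ξ => θ (l⁻¹ • ξ)) g x = ∫ t, (𝓕⁻ θ : 𝓢(E n, ℂ)) t * g (x - l⁻¹ • t) := by
  have hg : g = dil l hl.ne' 0 (dil l⁻¹ (inv_ne_zero hl.ne') 0 g) := by
    ext y
    simp [smul_smul, hl.ne']
  have hm : (fun ξ : E n => θ (l⁻¹ • ξ)).HasTemperateGrowth := by
    have := θ.hasTemperateGrowth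
    fun_prop
  conv_lhs => rw [hg]
  rw [fm_dil hm l hl]
  have h1 : (fun ξ : E n => θ (l⁻¹ • l • ξ)) = θ := by
    ext ξ
    rw [inv_smul_smul₀ hl.ne']
  rw [h1, fm_schwartz_apply]
  congr 1
  ext t
  rw [dil_apply, sub_zero, sub_zero, smul_sub, inv_smul_smul₀ hl.ne']

end Pool.Agent.Helper41K9.BH
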