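import Mathlib
import Pool.Agent.Helper41K9.BH.Four

set_option autoImplicit false

open MeasureTheory SchwartzMap FourierTransform
open scoped ENNReal SchwartzMap ContDiff

noncomputable section

namespace Pool.Agent.Helper41K9.BH

variable {n : ℕ}

lemma schwartz_decay {F : Type} [NormedAddCommGroup F] [NormedSpace ℝ F] (g : 𝓢(E n, F)) (M : ℕ) :
    ∃ C : ℝ, 0 ≤ C ∧ ∀ x, ‖g x‖ ≤ C * ((1 + ‖x‖) ^ M)⁻¹ := by
  set C := 2 ^ M * ((Finset.Iic (M, 0)).sup fun m => SchwartzMap.seminorm ℝ m.1 m.2) g with hC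
  refine ⟨C, by positivity, fun x => ?_⟩
  have := one_add_le_sup_seminorm_apply (𝕜 := ℝ) (m := (M, 0)) (k := M) (n := 0) le_rfl le_rfl g x
  rw [norm_iteratedFDeriv_zero] at this
  rw [← div_eq_mul_inv, le_div_iff₀ (by positivity)]
  linarith

lemma one_add_le (x y : E n) : 1 + ‖x‖ ≤ (1 + ‖y‖) * (1 + ‖x - y‖) := by
  have h1 : ‖x‖ ≤ ‖y‖ + ‖x - y‖ := by
    calc ‖x‖ = ‖y + (x - y)‖ := by congr 1; abel
      _ ≤ _ := norm_add_le _ _
  nlinarith [norm_nonneg y, norm_nonneg (x - y)]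

lemma integrable_decay (M : ℕ) (hM : n < M) :
    Integrable (fun x : E n => ((1 + ‖x‖) ^ M)⁻¹) := by
  have h := integrable_one_add_norm (E := E n) (μ := volume) (r := (M : ℝ))
    (by rw [finrank_euclideanSpace_fin]; exact_mod_cast hM)
  refine h.congr (Filter.Eventually.of_forall fun x => ?_)
  simp only
  rw [Real.rpow_neg (by positivity), Real.rpow_natCast]

/-- First difference. -/
def DS {F : Type} [NormedAddCommGroup F] [NormedSpace ℝ F] (h : E n) (g : 𝓢(E n, F)) : 𝓢(E n, F) :=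
  g - compSubConstCLM ℝ h g

@[simp] lemma DS_apply {F : Type} [NormedAddCommGroup F] [NormedSpace ℝ F] (h : E n)
    (g : 𝓢(E n, F)) (x : E n) : DS h g x = g x - g (x - h) := rfl

lemma fderivCLM_DS {F : Type} [NormedAddCommGroup F] [NormedSpace ℝ F] (h : E n) (g : 𝓢(E n, F)) :
    fderivCLM ℝ (E n) F (DS h g) = DS h (fderivCLM ℝ (E n) F g) := by
  ext1 x
  rw [DS, map_sub, sub_apply, DS_apply]
  congr 1
  rw [fderivCLM_apply, fderivCLM_apply]
  exact fderiv_comp_sub h

lemma fderivCLM_iter {F : Type} [NormedAddCommGroup F] [NormedSpace ℝ F] (h : E n) (g : 𝓢(E n, F))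
    (L : ℕ) : fderivCLM ℝ (E n) F ((DS h)^[L] g) = (DS h)^[L] (fderivCLM ℝ (E n) F g) := by
  induction L generalizing g with
  | zero => rfl
  | succ L ih => rw [Function.iterate_succ_apply, ih, fderivCLM_DS, Function.iterate_succ_apply]

/-- Decay of iterated differences. -/
lemma decay_DS (M : ℕ) (H : ℝ) (L : ℕ) : ∀ {F : Type} [NormedAddCommGroup F] [NormedSpace ℝ F]
    (g : 𝓢(E n, F)), ∃ C : ℝ, 0 ≤ C ∧ ∀ h : E n, ‖h‖ ≤ H → ∀ x,
      ‖(DS h)^[L] g x‖ ≤ C * ‖h‖ ^ L * ((1 + ‖x‖) ^ M)⁻¹ := by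
  induction L with
  | zero =>
    intro F _ _ g
    obtain ⟨C, hC, h1⟩ := schwartz_decay g M
    exact ⟨C, hC, fun h _ x => by simpa using h1 x⟩
  | succ L ih =>
    intro F _ _ g
    obtain ⟨C, hC, h1⟩ := ih (fderivCLM ℝ (E n) F g)
    rcases lt_or_ge H 0 with hH | hH
    · exact ⟨0, le_rfl, fun h hh => absurd ((norm_nonneg h).trans hh) (not_le.2 hH)⟩
    refine ⟨C * (1 + H) ^ M, by positivity, fun h hh x => ?_⟩
    rw [Function.iterate_succ_apply']
    rw [DS_apply]
    set G := (DS h)^[L] g with hG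
    have hbd : ∀ z ∈ segment ℝ (x - h) x, ‖fderiv ℝ G z‖ ≤
        C * ‖h‖ ^ L * ((1 + H) ^ M * ((1 + ‖x‖) ^ M)⁻¹) := by
      intro z hz
      have h2 : fderiv ℝ G z = (DS h)^[L] (fderivCLM ℝ (E n) F g) z := by
        rw [← fderivCLM_iter, fderivCLM_apply]
      rw [h2]
      refine (h1 h hh z).trans ?_
      gcongr
      have h3 : ‖x - z‖ ≤ H := by
        rw [segment_symm] at hz
        have := norm_sub_le_of_mem_segment hz
        rw [sub_sub_cancel_left, norm_neg, norm_sub_rev] at this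
        exact this.trans hh
      rw [← div_eq_mul_inv, inv_eq_one_div, div_le_div_iff₀ (by positivity) (by positivity),
        one_mul, ← mul_pow]
      gcongr
      have := one_add_le x z
      nlinarith [norm_nonneg z, norm_nonneg (x - z)]
    have := Convex.norm_image_sub_le_of_norm_fderiv_le (𝕜 := ℝ) (f := G) (s := segment ℝ (x - h) x)
      (fun z _ => G.differentiableAt) hbd (convex_segment _ _) (left_mem_segment ℝ _ _)
      (right_mem_segment ℝ _ _)
    rw [sub_sub_cancel] at this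
    refine this.trans (le_of_eq ?_)
    rw [pow_succ]
    ring

end Pool.Agent.Helper41K9.BH
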