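import Mathlib
import Pool.Agent.Helper41K9.BH.Decay

set_option autoImplicit false

open MeasureTheory SchwartzMap FourierTransform
open scoped ENNReal SchwartzMap ContDiff

noncomputable section

namespace Pool.Agent.Helper41K9.BH

variable {n : ℕ}

lemma kern_large (θ g : 𝓢(E n, ℂ)) (M : ℕ) : ∃ C : ℝ, 0 ≤ C ∧ ∀ l : ℝ, 1 ≤ l → ∀ x : E n,
    ‖fm (fun ξ => θ (l⁻¹ • ξ)) g x‖ ≤ C * ((1 + ‖x‖) ^ M)⁻¹ := by
  obtain ⟨C₁, hC₁, h1⟩ := schwartz_decay (𝓕⁻ θ : 𝓢(E n, ℂ)) (M + (n + 1))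
  obtain ⟨C₂, hC₂, h2⟩ := schwartz_decay g M
  set I := ∫ t : E n, ((1 + ‖t‖) ^ (n + 1))⁻¹ with hI
  have hI0 : 0 ≤ I := integral_nonneg (fun t => by positivity)
  refine ⟨C₁ * C₂ * I, by positivity, fun l hl x => ?_⟩
  have hl0 : 0 < l := by linarith
  rw [fm_scale θ l hl0]
  have hb : ∀ t : E n, ‖(𝓕⁻ θ : 𝓢(E n, ℂ)) t * g (x - l⁻¹ • t)‖ ≤
      C₁ * C₂ * ((1 + ‖x‖) ^ M)⁻¹ * ((1 + ‖t‖) ^ (n + 1))⁻¹ := by
    intro t
    rw [norm_mul]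
    have h3 : (1 + ‖x‖) ^ M ≤ (1 + ‖t‖) ^ M * (1 + ‖x - l⁻¹ • t‖) ^ M := by
      rw [← mul_pow]
      gcongr
      refine (one_add_le x (l⁻¹ • t)).trans ?_
      gcongr
      rw [norm_smul, Real.norm_of_nonneg (by positivity)]
      exact mul_le_of_le_one_left (norm_nonneg _) (inv_le_one_of_one_le₀ hl)
    calc ‖(𝓕⁻ θ : 𝓢(E n, ℂ)) t‖ * ‖g (x - l⁻¹ • t)‖
        ≤ (C₁ * ((1 + ‖t‖) ^ (M + (n + 1)))⁻¹) * (C₂ * ((1 + ‖x - l⁻¹ • t‖) ^ M)⁻¹) := by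
          gcongr
          · exact h1 t
          · exact h2 _
      _ = C₁ * C₂ * ((1 + ‖t‖) ^ M * (1 + ‖x - l⁻¹ • t‖) ^ M)⁻¹ * ((1 + ‖t‖) ^ (n + 1))⁻¹ := by
          rw [pow_add, mul_inv, mul_inv]; ring
      _ ≤ _ := by gcongr
  calc ‖∫ t, (𝓕⁻ θ : 𝓢(E n, ℂ)) t * g (x - l⁻¹ • t)‖
      ≤ ∫ t : E n, C₁ * C₂ * ((1 + ‖x‖) ^ M)⁻¹ * ((1 + ‖t‖) ^ (n + 1))⁻¹ :=
        norm_integral_le_of_norm_le ((integrable_decay (n + 1) (by omega)).const_mul _)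
          (Filter.Eventually.of_forall hb)
    _ = _ := by rw [integral_const_mul]; ring

lemma integrable_kern (Θ η : 𝓢(E n, ℂ)) (l : ℝ) (x : E n) :
    Integrable (fun t => Θ t * η (x - l⁻¹ • t)) := by
  obtain ⟨C₂, hC₂, h2⟩ := schwartz_decay η 0
  refine (Θ.integrable.norm.mul_const C₂).mono' ?_ (Filter.Eventually.of_forall fun t => ?_)
  · have h1 := Θ.continuous
    have h3 := η.continuous
    exact Continuous.aestronglyMeasurable (by fun_prop)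
  · rw [norm_mul]
    gcongr
    simpa using h2 (x - l⁻¹ • t)

lemma kern_step (Θ η : 𝓢(E n, ℂ)) (l : ℝ) (hl : 0 < l) (h x : E n) :
    ∫ t, Θ t * DS h η (x - l⁻¹ • t) = ∫ t, DS (l • h) Θ t * η (x - l⁻¹ • t) := by
  simp only [DS_apply, mul_sub, sub_mul]
  have h1 : Integrable (fun t => Θ t * η (x - l⁻¹ • t - h)) := by
    have := integrable_kern Θ η l (x - h)
    refine this.congr (Filter.Eventually.of_forall fun t => ?_)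
    simp only
    congr 2
    abel
  have h2 : Integrable (fun t => Θ (t - l • h) * η (x - l⁻¹ • t)) := by
    have := integrable_kern (compSubConstCLM ℝ (l • h) Θ) η l x
    exact this
  rw [integral_sub (integrable_kern Θ η l x) h1, integral_sub (integrable_kern Θ η l x) h2]
  congr 1
  rw [← integral_sub_right_eq_self (fun t => Θ t * η (x - l⁻¹ • t - h)) (l • h)]
  congr 1
  ext t
  congr 2
  rw [smul_sub, inv_smul_smul₀ hl.ne']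
  abel

lemma kern_iter (η : 𝓢(E n, ℂ)) (l : ℝ) (hl : 0 < l) (h x : E n) (L : ℕ) : ∀ Θ : 𝓢(E n, ℂ),
    ∫ t, Θ t * (DS h)^[L] η (x - l⁻¹ • t) = ∫ t, (DS (l • h))^[L] Θ t * η (x - l⁻¹ • t) := by
  induction L with
  | zero => intro Θ; rfl
  | succ L ih =>
    intro Θ
    rw [Function.iterate_succ_apply', kern_step _ _ l hl, ih, Function.iterate_succ_apply]

lemma integral_decay_scale (l : ℝ) (hl : 0 < l) (x : E n) :
    ∫ t : E n, ((1 + ‖x - l⁻¹ • t‖) ^ (n + 1))⁻¹ = l ^ n * ∫ t : E n, ((1 + ‖t‖) ^ (n + 1))⁻¹ := by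
  rw [Measure.integral_comp_inv_smul_of_nonneg volume
    (fun y : E n => ((1 + ‖x - y‖) ^ (n + 1))⁻¹) hl.le, finrank_euclideanSpace_fin, smul_eq_mul,
    integral_sub_left_eq_self (fun y : E n => ((1 + ‖y‖) ^ (n + 1))⁻¹) volume x]

lemma integrable_decay_scale (l : ℝ) (hl : 0 < l) (x : E n) :
    Integrable (fun t : E n => ((1 + ‖x - l⁻¹ • t‖) ^ (n + 1))⁻¹) := by
  have h1 : Integrable (fun y : E n => ((1 + ‖x - y‖) ^ (n + 1))⁻¹) :=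
    (integrable_decay (n + 1) (by omega)).comp_sub_left x
  exact h1.comp_smul (inv_ne_zero hl.ne')

lemma kern_small (θ η : 𝓢(E n, ℂ)) (H : ℝ) (hH : 0 ≤ H) (L M : ℕ) : ∃ C : ℝ, 0 ≤ C ∧
    ∀ l : ℝ, 0 < l → l ≤ 1 → ∀ h : E n, ‖h‖ ≤ H → ∀ x : E n,
    ‖fm (fun ξ => θ (l⁻¹ • ξ)) ((DS h)^[L] η) x‖ ≤ C * l ^ (n + L) * ((1 + l * ‖x‖) ^ M)⁻¹ := by
  obtain ⟨C₁, hC₁, h1⟩ := decay_DS M H L (𝓕⁻ θ : 𝓢(E n, ℂ))
  obtain ⟨C₂, hC₂, h2⟩ := schwartz_decay η (M + (n + 1))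
  set I := ∫ t : E n, ((1 + ‖t‖) ^ (n + 1))⁻¹ with hI
  have hI0 : 0 ≤ I := integral_nonneg (fun t => by positivity)
  refine ⟨C₁ * H ^ L * C₂ * I, by positivity, fun l hl0 hl h hh x => ?_⟩
  rw [fm_scale θ l hl0, kern_iter η l hl0]
  have hb : ∀ t : E n, ‖(DS (l • h))^[L] (𝓕⁻ θ : 𝓢(E n, ℂ)) t * η (x - l⁻¹ • t)‖ ≤
      C₁ * (l * H) ^ L * C₂ * ((1 + l * ‖x‖) ^ M)⁻¹ * ((1 + ‖x - l⁻¹ • t‖) ^ (n + 1))⁻¹ := by
    intro t
    rw [norm_mul]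
    have h5 : ‖l • h‖ ≤ l * H := by
      rw [norm_smul, Real.norm_of_nonneg hl0.le]
      gcongr
    have h6 : ‖l • h‖ ≤ H := h5.trans (mul_le_of_le_one_left hH hl)
    have h3 : (1 + l * ‖x‖) ^ M ≤ (1 + ‖t‖) ^ M * (1 + ‖x - l⁻¹ • t‖) ^ M := by
      rw [← mul_pow]
      gcongr
      have h7 := one_add_le (l • x) t
      have h8 : ‖l • x - t‖ ≤ ‖x - l⁻¹ • t‖ := by
        have : l • x - t = l • (x - l⁻¹ • t) := by rw [smul_sub, smul_inv_smul₀ hl0.ne']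
        rw [this, norm_smul, Real.norm_of_nonneg hl0.le]
        exact mul_le_of_le_one_left (norm_nonneg _) hl
      rw [norm_smul, Real.norm_of_nonneg hl0.le] at h7
      refine h7.trans ?_
      gcongr
    calc ‖(DS (l • h))^[L] (𝓕⁻ θ : 𝓢(E n, ℂ)) t‖ * ‖η (x - l⁻¹ • t)‖
        ≤ (C₁ * ‖l • h‖ ^ L * ((1 + ‖t‖) ^ M)⁻¹) *
            (C₂ * ((1 + ‖x - l⁻¹ • t‖) ^ (M + (n + 1)))⁻¹) := by
          gcongr
          · exact h1 _ h6 t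
          · exact h2 _
      _ ≤ (C₁ * (l * H) ^ L * ((1 + ‖t‖) ^ M)⁻¹) *
            (C₂ * ((1 + ‖x - l⁻¹ • t‖) ^ (M + (n + 1)))⁻¹) := by gcongr
      _ = C₁ * (l * H) ^ L * C₂ * ((1 + ‖t‖) ^ M * (1 + ‖x - l⁻¹ • t‖) ^ M)⁻¹ *
            ((1 + ‖x - l⁻¹ • t‖) ^ (n + 1))⁻¹ := by
          rw [pow_add (1 + ‖x - l⁻¹ • t‖), mul_inv, mul_inv]; ring
      _ ≤ _ := by gcongr
  calc ‖∫ t, (DS (l • h))^[L] (𝓕⁻ θ : 𝓢(E n, ℂ)) t * η (x - l⁻¹ • t)‖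
      ≤ ∫ t : E n, C₁ * (l * H) ^ L * C₂ * ((1 + l * ‖x‖) ^ M)⁻¹ *
          ((1 + ‖x - l⁻¹ • t‖) ^ (n + 1))⁻¹ :=
        norm_integral_le_of_norm_le ((integrable_decay_scale l hl0 x).const_mul _)
          (Filter.Eventually.of_forall hb)
    _ = _ := by
        rw [integral_const_mul, integral_decay_scale l hl0, mul_pow, pow_add]
        ring

end Pool.Agent.Helper41K9.BH
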