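import Mathlib
import Pool.Agent.Helper41K9.BH.Kern

set_option autoImplicit false

open MeasureTheory SchwartzMap FourierTransform
open scoped ENNReal SchwartzMap ContDiff

noncomputable section

namespace Pool.Agent.Helper41K9.BH

variable {n : ℕ}

lemma lintegral_affine (f : E n → ℝ≥0∞) (a : ℝ) (ha : 0 < a) (b : E n) :
    ∫⁻ x, f (a • x - b) = ENNReal.ofReal ((a ^ n)⁻¹) * ∫⁻ x, f x := by
  have h1 : ∫⁻ x, f (a • x - b) =
      ∫⁻ y, f (y - b) ∂(Measure.map (a • ·) (volume : Measure (E n))) := by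
    have := ((Homeomorph.smulOfNeZero a ha.ne' : E n ≃ₜ E n).measurableEmbedding).lintegral_map
      (μ := (volume : Measure (E n))) (fun y => f (y - b))
    exact this.symm
  rw [h1, Measure.map_addHaar_smul volume ha.ne', lintegral_smul_measure,
    lintegral_sub_right_eq_self, finrank_euclideanSpace_fin, abs_of_pos (by positivity),
    smul_eq_mul]

/-- The integral of the standard decaying weight. -/
def JJ (n : ℕ) : ℝ := ∫ x : E n, ((1 + ‖x‖) ^ (n + 1))⁻¹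

lemma JJ_nonneg (n : ℕ) : 0 ≤ JJ n := integral_nonneg fun t => by positivity

lemma lintegral_decay :
    ∫⁻ x : E n, ENNReal.ofReal (((1 + ‖x‖) ^ (n + 1))⁻¹) = ENNReal.ofReal (JJ n) := by
  rw [JJ, ofReal_integral_eq_lintegral_ofReal (integrable_decay (n + 1) (by omega))]
  exact Filter.Eventually.of_forall fun x => by positivity

lemma pow_decay (p : ℝ) (M : ℕ) (hM : (n + 1 : ℝ) ≤ M * p) (t : ℝ) (ht : 1 ≤ t) :
    ((t ^ M)⁻¹) ^ p ≤ (t ^ (n + 1))⁻¹ := by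
  have ht0 : 0 < t := by linarith
  rw [Real.inv_rpow (by positivity), ← Real.rpow_natCast, ← Real.rpow_natCast,
    ← Real.rpow_mul ht0.le]
  have : t ^ (((n + 1 : ℕ) : ℝ)) ≤ t ^ ((M : ℝ) * p) :=
    Real.rpow_le_rpow_of_exponent_le ht (by push_cast; exact hM)
  gcongr

lemma lp_decay (p : ℝ) (hp : 0 < p) (M : ℕ) (hM : (n + 1 : ℝ) ≤ M * p) (C l : ℝ) (hC : 0 ≤ C)
    (hl : 0 < l) (F : E n → ℝ≥0∞)
    (hF : ∀ x, F x ≤ ENNReal.ofReal (C * ((1 + l * ‖x‖) ^ M)⁻¹)) :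
    ∫⁻ x, F x ^ p ≤ ENNReal.ofReal (C ^ p * (l ^ n)⁻¹) * ENNReal.ofReal (JJ n) := by
  have h1 : ∀ x : E n, F x ^ p ≤ ENNReal.ofReal (C ^ p) *
      (fun y : E n => ENNReal.ofReal (((1 + ‖y‖) ^ (n + 1))⁻¹)) (l • x - 0) := by
    intro x
    have h2 : F x ^ p ≤ ENNReal.ofReal (C * ((1 + l * ‖x‖) ^ M)⁻¹) ^ p := by
      gcongr; exact hF x
    refine h2.trans ?_
    rw [ENNReal.ofReal_rpow_of_nonneg (by positivity) hp.le, Real.mul_rpow hC (by positivity),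
      ENNReal.ofReal_mul (by positivity)]
    simp only [sub_zero]
    rw [norm_smul, Real.norm_of_nonneg hl.le]
    gcongr
    have h3 : 0 ≤ l * ‖x‖ := by positivity
    exact pow_decay p M hM _ (by linarith)
  calc ∫⁻ x, F x ^ p ≤ ∫⁻ x : E n, ENNReal.ofReal (C ^ p) *
      (fun y : E n => ENNReal.ofReal (((1 + ‖y‖) ^ (n + 1))⁻¹)) (l • x - 0) := lintegral_mono h1
    _ = _ := by
      rw [lintegral_const_mul' _ _ ENNReal.ofReal_ne_top,
        lintegral_affine (fun y : E n => ENNReal.ofReal (((1 + ‖y‖) ^ (n + 1))⁻¹)) l hl 0,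
        lintegral_decay, ENNReal.ofReal_mul (by positivity), mul_assoc]

lemma tsum_two_sided (q : ℕ) :
    ∑' j : ℕ, (2⁻¹ : ℝ≥0∞) ^ ((j - q) + (q - j)) ≤ 3 := by
  have h0 : ∑' j : ℕ, (2⁻¹ : ℝ≥0∞) ^ j = 2 := by
    rw [ENNReal.tsum_geometric, ENNReal.one_sub_inv_two, inv_inv]
  rw [← (ENNReal.summable).sum_add_tsum_nat_add' (f := fun j => (2⁻¹ : ℝ≥0∞) ^ ((j - q) + (q - j)))
    (k := q)]
  have h1 : ∑' i : ℕ, (2⁻¹ : ℝ≥0∞) ^ ((i + q - q) + (q - (i + q))) = 2 := by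
    refine Eq.trans (tsum_congr fun i => ?_) h0
    have : i + q - q + (q - (i + q)) = i := by omega
    rw [this]
  have h2 : ∑ i ∈ Finset.range q, (2⁻¹ : ℝ≥0∞) ^ ((i - q) + (q - i)) ≤ 1 := by
    rw [← Finset.sum_range_reflect]
    calc ∑ j ∈ Finset.range q, (2⁻¹ : ℝ≥0∞) ^ ((q - 1 - j - q) + (q - (q - 1 - j)))
        = ∑ j ∈ Finset.range q, 2⁻¹ * (2⁻¹ : ℝ≥0∞) ^ j := by
          refine Finset.sum_congr rfl fun j hj => ?_
          rw [Finset.mem_range] at hj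
          rw [← pow_succ']
          congr 1
          omega
      _ ≤ ∑' j : ℕ, 2⁻¹ * (2⁻¹ : ℝ≥0∞) ^ j := ENNReal.sum_le_tsum _
      _ = 1 := by
          rw [ENNReal.tsum_mul_left, h0, ENNReal.inv_mul_cancel (by simp) (by simp)]
  rw [h1]
  calc _ ≤ (1 : ℝ≥0∞) + 2 := by gcongr
    _ = 3 := by norm_num

lemma lpPiece_add (φ : E n → ℝ) (j : ℕ) (u v : 𝓢(E n, ℂ)) :
    lpPiece φ j (u + v) = lpPiece φ j u + lpPiece φ j v := map_add _ _ _

lemma enorm_add_rpow (p : ℝ) (hp : 0 < p) (hp1 : p ≤ 1) (a b : ℝ≥0∞) :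
    (a + b) ^ p ≤ a ^ p + b ^ p := ENNReal.rpow_add_le_add_rpow _ _ hp.le hp1

lemma besov_add (φ : E n → ℝ) (α p : ℝ) (hp : 0 < p) (hp1 : p ≤ 1) (u v : 𝓢(E n, ℂ)) :
    besov φ α p (u + v) ≤ besov φ α p u + besov φ α p v := by
  unfold besov
  rw [← ENNReal.tsum_add]
  refine ENNReal.tsum_le_tsum fun j => ?_
  rw [← mul_add]
  gcongr
  have hm : Measurable fun x => ‖lpPiece φ j u x‖ₑ ^ p :=
    ((lpPiece φ j u).continuous.measurable.enorm).pow_const p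
  rw [← lintegral_add_left hm]
  refine lintegral_mono fun x => ?_
  simp only
  rw [lpPiece_add, add_apply]
  exact (ENNReal.rpow_le_rpow (enorm_add_le _ _) hp.le).trans (enorm_add_rpow p hp hp1 _ _)

lemma besov_zero (φ : E n → ℝ) (α p : ℝ) (hp : 0 < p) : besov φ α p 0 = 0 := by
  unfold besov lpPiece
  simp [hp]

lemma besov_smul (φ : E n → ℝ) (α p : ℝ) (hp : 0 < p) (c : ℂ) (u : 𝓢(E n, ℂ)) :
    besov φ α p (c • u) = ‖c‖ₑ ^ p * besov φ α p u := by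
  unfold besov
  rw [← ENNReal.tsum_mul_left]
  refine tsum_congr fun j => ?_
  have h1 : ∀ x, ‖lpPiece φ j (c • u) x‖ₑ ^ p = ‖c‖ₑ ^ p * ‖lpPiece φ j u x‖ₑ ^ p := by
    intro x
    unfold lpPiece
    rw [map_smul, smul_apply, smul_eq_mul, enorm_mul, ENNReal.mul_rpow_of_nonneg _ _ hp.le]
  simp_rw [h1]
  rw [lintegral_const_mul' _ _ (ENNReal.rpow_ne_top_of_nonneg hp.le enorm_ne_top)]
  ring

lemma enorm_rpow_le (p : ℝ) (hp1 : p ≤ 1) (c : ℝ) (hc : 1 ≤ c) :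
    ‖((c : ℂ))‖ₑ ^ p ≤ ENNReal.ofReal c := by
  have h1 : ‖((c : ℂ))‖ₑ = ENNReal.ofReal c := by
    rw [← ofReal_norm, Complex.norm_real, Real.norm_of_nonneg (by linarith)]
  rw [h1]
  have h2 : (1 : ℝ≥0∞) ≤ ENNReal.ofReal c := by rwa [ENNReal.one_le_ofReal]
  calc ENNReal.ofReal c ^ p ≤ ENNReal.ofReal c ^ (1 : ℝ) := ENNReal.rpow_le_rpow_of_exponent_le h2 hp1
    _ = _ := ENNReal.rpow_one _

end Pool.Agent.Helper41K9.BH
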