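import Mathlib
import Pool.Agent.Helper41K9.BH.Lp
import Pool.Agent.TH274.Wig.Gauss

set_option autoImplicit false

open MeasureTheory SchwartzMap FourierTransform
open scoped ENNReal SchwartzMap ContDiff

noncomputable section

namespace Pool.Agent.Helper41K9.BH

variable {n : ℕ}

/-- The heat multiplier at time one. -/
def gaussS (n : ℕ) : 𝓢(E n, ℂ) :=
  Pool.Agent.TH274.Wig.gauss n (((2 * Real.pi) ^ 2 : ℝ) : ℂ) (by
    rw [Complex.ofReal_re]; positivity)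

lemma gaussS_apply (ξ : E n) :
    gaussS n ξ = ((Real.exp (-(2 * Real.pi * ‖ξ‖) ^ 2) : ℝ) : ℂ) := by
  unfold gaussS
  rw [Pool.Agent.TH274.Wig.gauss_apply, Complex.ofReal_exp]
  congr 1
  push_cast
  ring

/-- The heat multiplier. -/
def hm (n : ℕ) (t : ℝ) : E n → ℂ :=
  fun ξ => ((Real.exp (-(2 * Real.pi * t * ‖ξ‖) ^ 2) : ℝ) : ℂ)

lemma hm_eq (t : ℝ) : hm n t = fun ξ => gaussS n (t • ξ) := by
  ext ξ
  rw [gaussS_apply, hm]
  congr 3
  rw [norm_smul, Real.norm_eq_abs, mul_pow, mul_pow, mul_pow, mul_pow, mul_pow, mul_pow |t|, sq_abs]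
  ring

lemma hm_temperate (t : ℝ) : (hm n t).HasTemperateGrowth := by
  rw [hm_eq]
  exact temperate_scale' t
where
  temperate_scale' (t : ℝ) : (fun ξ : E n => gaussS n (t • ξ)).HasTemperateGrowth := by
    have := (gaussS n).hasTemperateGrowth
    fun_prop

lemma heat_eq (t : ℝ) (f : 𝓢(E n, ℂ)) : heat t f = fm (hm n t) f := rfl

lemma heat_decay (L : ℕ) (h : E n) (η : 𝓢(E n, ℂ)) : ∃ C : ℝ, 0 ≤ C ∧ ∀ t : ℝ, 0 < t → ∀ y : E n,
    ‖heat t ((DS h)^[L] η) y‖ ≤ C * ((1 + t + ‖y‖) ^ (n + L))⁻¹ := by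
  obtain ⟨C₁, hC₁, h1⟩ := kern_large (gaussS n) ((DS h)^[L] η) (n + L)
  obtain ⟨C₂, hC₂, h2⟩ := kern_small (gaussS n) η ‖h‖ (norm_nonneg h) L (n + L)
  refine ⟨max C₁ C₂ * 2 ^ (n + L), by positivity, fun t ht y => ?_⟩
  have h3 : hm n t = fun ξ => gaussS n ((t⁻¹)⁻¹ • ξ) := by rw [inv_inv, hm_eq]
  rw [heat_eq, h3]
  have key : ∀ s : ℝ, 0 < s → 1 + t + ‖y‖ ≤ 2 * s →
      (s ^ (n + L))⁻¹ ≤ 2 ^ (n + L) * ((1 + t + ‖y‖) ^ (n + L))⁻¹ := by
    intro s hs h4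
    have h5 : (1 + t + ‖y‖) ^ (n + L) ≤ 2 ^ (n + L) * s ^ (n + L) := by
      rw [← mul_pow]
      gcongr
    have hp1 : 0 < s ^ (n + L) := by positivity
    have hp2 : 0 < (1 + t + ‖y‖) ^ (n + L) := by positivity
    rw [← div_eq_mul_inv, inv_eq_one_div, div_le_div_iff₀ hp1 hp2]
    linarith
  rcases le_or_gt t 1 with h4 | h4
  · refine (h1 t⁻¹ ((one_le_inv₀ ht).2 h4) y).trans ?_
    have := key (1 + ‖y‖) (by positivity) (by linarith [norm_nonneg y])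
    calc C₁ * ((1 + ‖y‖) ^ (n + L))⁻¹ ≤
        max C₁ C₂ * (2 ^ (n + L) * ((1 + t + ‖y‖) ^ (n + L))⁻¹) := by
          gcongr
          exact le_max_left _ _
      _ = _ := by ring
  · refine (h2 t⁻¹ (by positivity) (inv_le_one_of_one_le₀ h4.le) h le_rfl y).trans ?_
    have h5 : t⁻¹ ^ (n + L) * ((1 + t⁻¹ * ‖y‖) ^ (n + L))⁻¹ = ((t + ‖y‖) ^ (n + L))⁻¹ := by
      rw [inv_pow, ← mul_inv, ← mul_pow]
      congr 2
      field_simp
    have := key (t + ‖y‖) (by positivity) (by linarith [norm_nonneg y])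
    calc C₂ * t⁻¹ ^ (n + L) * ((1 + t⁻¹ * ‖y‖) ^ (n + L))⁻¹
        = C₂ * ((t + ‖y‖) ^ (n + L))⁻¹ := by rw [mul_assoc, h5]
      _ ≤ max C₁ C₂ * (2 ^ (n + L) * ((1 + t + ‖y‖) ^ (n + L))⁻¹) := by
          gcongr
          exact le_max_right _ _
      _ = _ := by ring

/-- Fourier multipliers commute with differences. -/
lemma fm_DS {m : E n → ℂ} (hm : m.HasTemperateGrowth) (h : E n) (g : 𝓢(E n, ℂ)) :
    fm m (DS h g) = DS h (fm m g) := by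
  have h1 : compSubConstCLM ℝ h g = dil 1 one_ne_zero h g := by
    ext x
    simp [dil_apply]
  ext x
  rw [DS, h1, fm, map_sub, sub_apply, DS_apply]
  congr 1
  have := fm_dil hm 1 one_pos h g x
  rw [fm] at this
  rw [this]
  simp

lemma fm_DS_iter {m : E n → ℂ} (hm : m.HasTemperateGrowth) (h : E n) (L : ℕ) (g : 𝓢(E n, ℂ)) :
    fm m ((DS h)^[L] g) = (DS h)^[L] (fm m g) := by
  induction L generalizing g with
  | zero => rfl
  | succ L ih => rw [Function.iterate_succ_apply, ih, fm_DS hm, Function.iterate_succ_apply]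

/-- The symbol `(ρ² + 4π²|ξ|²)^γ`. -/
def bsym (n : ℕ) (ρ γ : ℝ) : E n → ℂ :=
  fun ξ => (((ρ ^ 2 + (2 * Real.pi * ‖ξ‖) ^ 2) ^ γ : ℝ) : ℂ)

lemma bsym_temperate (ρ γ : ℝ) (hρ : 0 < ρ) : (bsym n ρ γ).HasTemperateGrowth := by
  have h1 : bsym n ρ γ = fun ξ => (((ρ ^ 2) ^ γ : ℝ) : ℂ) *
      (fun x : E n => (((1 + ‖x‖ ^ 2) ^ γ : ℝ) : ℂ)) ((2 * Real.pi / ρ) • ξ) := by
    ext ξ
    simp only [bsym]
    rw [← Complex.ofReal_mul, ← Real.mul_rpow (by positivity) (by positivity)]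
    congr 2
    rw [norm_smul, Real.norm_of_nonneg (by positivity)]
    field_simp
  rw [h1]
  have h2 : (fun x : E n => (1 + ‖x‖ ^ 2) ^ γ).HasTemperateGrowth :=
    Function.hasTemperateGrowth_one_add_norm_sq_rpow (E n) γ
  have h3 : (fun x : E n => (((1 + ‖x‖ ^ 2) ^ γ : ℝ) : ℂ)).HasTemperateGrowth := by
    fun_prop
  have h5 : ∀ (F : E n → ℂ), F.HasTemperateGrowth → ∀ (c : ℂ) (d : ℝ),
      (fun ξ => c * F (d • ξ)).HasTemperateGrowth := by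
    intro F hF c d
    fun_prop
  exact h5 _ h3 _ _

end Pool.Agent.Helper41K9.BH
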