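import Mathlib
import Pool.Agent.Helper41K9.BH.Heat

set_option autoImplicit false

open MeasureTheory SchwartzMap FourierTransform
open scoped ENNReal SchwartzMap ContDiff

noncomputable section

namespace Pool.Agent.Helper41K9.BH

variable {n : ℕ}

lemma gamma_id (γ ρ : ℝ) (hγ : 0 < γ) (hρ : 0 < ρ) (b : ℝ) (hb : 0 ≤ b) :
    ∫ s in Set.Ioi (0 : ℝ), s ^ (γ - 1) * Real.exp (-(s * (ρ ^ 2 + b))) =
      Real.Gamma γ * (ρ ^ 2 + b) ^ (-γ) := by
  have h0 : 0 < ρ ^ 2 + b := by positivity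
  have := Real.integral_rpow_mul_exp_neg_mul_Ioi hγ h0
  rw [one_div, Real.inv_rpow h0.le, ← Real.rpow_neg h0.le, mul_comm] at this
  rw [← this]
  refine setIntegral_congr_fun measurableSet_Ioi fun s _ => ?_
  rw [mul_comm s (ρ ^ 2 + b)]

lemma integrableOn_gamma (γ ρ : ℝ) (hγ : 0 < γ) (hρ : 0 < ρ) :
    IntegrableOn (fun s : ℝ => s ^ (γ - 1) * Real.exp (-(s * ρ ^ 2))) (Set.Ioi 0) := by
  have := integrableOn_rpow_mul_exp_neg_mul_rpow (p := 1) (s := γ - 1) (b := ρ ^ 2) (by linarith)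
    one_pos (by positivity)
  refine this.congr_fun (fun s _ => ?_) measurableSet_Ioi
  simp only
  rw [Real.rpow_one]
  congr 2
  ring

lemma hm_sqrt (τ s : ℝ) (hs : 0 ≤ s) (ξ : E n) :
    hm n (Real.sqrt (τ ^ 2 + s)) ξ = ((Real.exp (-(s * (2 * Real.pi * ‖ξ‖) ^ 2)) : ℝ) : ℂ) *
      hm n τ ξ := by
  unfold hm
  rw [← Complex.ofReal_mul, ← Real.exp_add]
  congr 2
  rw [mul_pow, mul_pow, Real.sq_sqrt (by positivity)]
  ring

lemma norm_hm_le (t : ℝ) (ξ : E n) : ‖hm n t ξ‖ ≤ 1 := by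
  unfold hm
  rw [Complex.norm_real, Real.norm_of_nonneg (Real.exp_nonneg _), Real.exp_le_one_iff]
  exact neg_nonpos.2 (sq_nonneg _)

lemma subord (γ ρ τ : ℝ) (hγ : 0 < γ) (hρ : 0 < ρ) (G : 𝓢(E n, ℂ)) (x : E n) :
    fm (hm n τ * bsym n ρ (-γ)) G x = (Real.Gamma γ)⁻¹ • ∫ s in Set.Ioi (0 : ℝ),
      (s ^ (γ - 1) * Real.exp (-(s * ρ ^ 2))) • heat (Real.sqrt (τ ^ 2 + s)) G x := by
  have hT : (hm n τ * bsym n ρ (-γ)).HasTemperateGrowth :=
    (hm_temperate τ).mul (bsym_temperate ρ (-γ) hρ)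
  rw [fm_apply hT]
  have h1 : ∀ s : ℝ, (s ^ (γ - 1) * Real.exp (-(s * ρ ^ 2))) • heat (Real.sqrt (τ ^ 2 + s)) G x =
      ∫ ξ : E n, (s ^ (γ - 1) * Real.exp (-(s * ρ ^ 2))) • (Real.fourierChar (inner ℝ ξ x) •
        (hm n (Real.sqrt (τ ^ 2 + s)) ξ * 𝓕 G ξ)) := by
    intro s
    rw [heat_eq, fm_apply (hm_temperate _), integral_smul]
  simp_rw [h1]
  have hG : Integrable (fun ξ : E n => ‖𝓕 G ξ‖) := (𝓕 G).integrable.norm
  have hint : Integrable (Function.uncurry fun (s : ℝ) (ξ : E n) =>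
      (s ^ (γ - 1) * Real.exp (-(s * ρ ^ 2))) • (Real.fourierChar (inner ℝ ξ x) •
        (hm n (Real.sqrt (τ ^ 2 + s)) ξ * 𝓕 G ξ)))
      ((volume.restrict (Set.Ioi (0 : ℝ))).prod volume) := by
    refine ((integrableOn_gamma γ ρ hγ hρ).norm.mul_prod hG).mono' ?_ ?_
    · have hA : AEStronglyMeasurable
          (fun z : ℝ × E n => z.1 ^ (γ - 1) * Real.exp (-(z.1 * ρ ^ 2)))
          ((volume.restrict (Set.Ioi (0 : ℝ))).prod volume) :=
        ((measurable_fst.pow_const _).mul (by fun_prop)).aestronglyMeasurable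
      have hc1 : Continuous fun z : ℝ × E n => Real.fourierChar (inner ℝ z.2 x) := by
        have h9 : Continuous fun z : ℝ × E n => inner ℝ z.2 x := by fun_prop
        exact Real.continuous_fourierChar.comp h9
      have hc2 : Continuous fun z : ℝ × E n => hm n (Real.sqrt (τ ^ 2 + z.1)) z.2 := by
        unfold hm
        fun_prop
      have hc3 : Continuous fun z : ℝ × E n => 𝓕 G z.2 := (𝓕 G).continuous.comp continuous_snd
      have hB : AEStronglyMeasurable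
          (fun z : ℝ × E n => Real.fourierChar (inner ℝ z.2 x) •
            (hm n (Real.sqrt (τ ^ 2 + z.1)) z.2 * 𝓕 G z.2))
          ((volume.restrict (Set.Ioi (0 : ℝ))).prod volume) :=
        (hc1.smul (hc2.mul hc3)).aestronglyMeasurable
      exact hA.smul hB
    · refine Filter.Eventually.of_forall fun z => ?_
      simp only [Function.uncurry]
      rw [norm_smul, Circle.norm_smul, norm_mul (hm n (Real.sqrt (τ ^ 2 + z.1)) z.2)]
      exact mul_le_mul_of_nonneg_left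
        (mul_le_of_le_one_left (norm_nonneg (𝓕 G z.2)) (norm_hm_le _ z.2)) (norm_nonneg _)
  rw [integral_integral_swap hint, ← integral_smul]
  congr 1
  ext ξ
  have h2 : ∫ s in Set.Ioi (0 : ℝ), (s ^ (γ - 1) * Real.exp (-(s * ρ ^ 2))) •
      (Real.fourierChar (inner ℝ ξ x) • (hm n (Real.sqrt (τ ^ 2 + s)) ξ * 𝓕 G ξ)) =
      ∫ s in Set.Ioi (0 : ℝ), (s ^ (γ - 1) * Real.exp (-(s * (ρ ^ 2 + (2 * Real.pi * ‖ξ‖) ^ 2)))) •
      (Real.fourierChar (inner ℝ ξ x) • (hm n τ ξ * 𝓕 G ξ)) := by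
    refine setIntegral_congr_fun measurableSet_Ioi fun s hs => ?_
    rw [hm_sqrt τ s (le_of_lt hs), mul_add, neg_add, Real.exp_add]
    simp only [Circle.smul_def, smul_eq_mul, Complex.real_smul]
    push_cast
    ring
  rw [h2, integral_smul_const, gamma_id γ ρ hγ hρ _ (by positivity), smul_smul, ← mul_assoc,
    inv_mul_cancel₀ (Real.Gamma_pos_of_pos hγ).ne', one_mul]
  simp only [Circle.smul_def, smul_eq_mul, Complex.real_smul, Pi.mul_apply, bsym]
  ring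

lemma subord_le (γ ρ τ : ℝ) (hγ : 0 < γ) (hρ : 0 < ρ) (G : 𝓢(E n, ℂ)) (x : E n) :
    ‖fm (hm n τ * bsym n ρ (-γ)) G x‖ₑ ≤ ENNReal.ofReal ((Real.Gamma γ)⁻¹) *
      ∫⁻ s in Set.Ioi (0 : ℝ), ENNReal.ofReal (s ^ (γ - 1) * Real.exp (-(s * ρ ^ 2))) *
        ‖heat (Real.sqrt (τ ^ 2 + s)) G x‖ₑ := by
  rw [subord γ ρ τ hγ hρ, enorm_smul, Real.enorm_of_nonneg
    (inv_nonneg.2 (Real.Gamma_pos_of_pos hγ).le)]
  gcongr
  refine (enorm_integral_le_lintegral_enorm _).trans ?_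
  refine setLIntegral_mono' measurableSet_Ioi fun s hs => ?_
  have hs' : (0 : ℝ) < s := hs
  rw [enorm_smul, Real.enorm_of_nonneg (by positivity)]

end Pool.Agent.Helper41K9.BH
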