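import Mathlib
import Pool.Agent.Helper41K9.BH.Subord

set_option autoImplicit false

open MeasureTheory SchwartzMap FourierTransform
open scoped ENNReal SchwartzMap ContDiff

noncomputable section

namespace Pool.Agent.Helper41K9.BH

variable {n : ℕ}

/-- The constant in the estimate of the fractional integral. -/
def FC (γ : ℝ) (P : ℕ) : ℝ≥0∞ :=
  ∫⁻ s in Set.Ioi (0 : ℝ), ENNReal.ofReal (s ^ (γ - 1) * ((1 + Real.sqrt s) ^ P)⁻¹)

lemma FC_lt (γ : ℝ) (hγ : 0 < γ) (P : ℕ) (hP : 2 * γ + 2 ≤ P) : FC γ P < ⊤ := by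
  unfold FC
  have hsplit : Set.Ioi (0 : ℝ) = Set.Ioc 0 1 ∪ Set.Ioi 1 := by
    rw [Set.Ioc_union_Ioi_eq_Ioi zero_le_one]
  rw [hsplit]
  refine (lintegral_union_le _ _ _).trans_lt (ENNReal.add_lt_top.2 ⟨?_, ?_⟩)
  · have h1 : IntegrableOn (fun s : ℝ => s ^ (γ - 1)) (Set.Ioc 0 1) := by
      have := intervalIntegral.intervalIntegrable_rpow' (a := 0) (b := 1) (r := γ - 1) (by linarith)
      rwa [intervalIntegrable_iff_integrableOn_Ioc_of_le zero_le_one] at this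
    refine lt_of_le_of_lt ?_ h1.lintegral_lt_top
    refine setLIntegral_mono' measurableSet_Ioc fun s hs => ENNReal.ofReal_le_ofReal ?_
    have hs0 : 0 < s := hs.1
    refine mul_le_of_le_one_right (by positivity) (inv_le_one_of_one_le₀ ?_)
    exact one_le_pow₀ (by linarith [Real.sqrt_nonneg s])
  · have h1 : IntegrableOn (fun s : ℝ => s ^ (-2 : ℝ)) (Set.Ioi 1) :=
      integrableOn_Ioi_rpow_of_lt (by norm_num) one_pos
    refine lt_of_le_of_lt ?_ h1.lintegral_lt_top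
    refine setLIntegral_mono' measurableSet_Ioi fun s hs => ENNReal.ofReal_le_ofReal ?_
    have hs1 : (1 : ℝ) < s := hs
    have hs0 : 0 < s := by linarith
    have h2 : s ^ (γ + 1) ≤ (1 + Real.sqrt s) ^ P := by
      calc s ^ (γ + 1) ≤ s ^ ((P : ℝ) / 2) :=
            Real.rpow_le_rpow_of_exponent_le hs1.le (by linarith)
        _ = Real.sqrt s ^ P := by
            rw [Real.sqrt_eq_rpow, ← Real.rpow_natCast, ← Real.rpow_mul hs0.le]
            congr 1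
            ring
        _ ≤ (1 + Real.sqrt s) ^ P := by
            gcongr
            linarith
    calc s ^ (γ - 1) * ((1 + Real.sqrt s) ^ P)⁻¹ ≤ s ^ (γ - 1) * (s ^ (γ + 1))⁻¹ := by
          have : 0 < s ^ (γ + 1) := by positivity
          gcongr
      _ = s ^ (-2 : ℝ) := by
          rw [← Real.rpow_neg hs0.le, ← Real.rpow_add hs0]
          congr 1
          ring

/-- The polynomial symbol `(ρ² + 4π²|ξ|²)^k`. -/
def psym (n : ℕ) (ρ : ℝ) (k : ℕ) : E n → ℂ :=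
  fun ξ => (((ρ ^ 2 + (2 * Real.pi * ‖ξ‖) ^ 2) ^ k : ℝ) : ℂ)

lemma psym_temperate (ρ : ℝ) (k : ℕ) : (psym n ρ k).HasTemperateGrowth := by
  have h1 : psym n ρ k = fun ξ => (((ρ ^ 2 + (2 * Real.pi) ^ 2 * ‖ξ‖ ^ 2) ^ k : ℝ) : ℂ) := by
    ext ξ
    unfold psym
    rw [mul_pow]
  rw [h1]
  fun_prop

/-- The symbol of the Laplacian. -/
def lsym (n : ℕ) : E n → ℂ := fun ξ => (((2 * Real.pi) ^ 2 * ‖ξ‖ ^ 2 : ℝ) : ℂ)

lemma lsym_temperate : (lsym n).HasTemperateGrowth := by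
  unfold lsym
  fun_prop

lemma fm_psym_succ (ρ : ℝ) (k : ℕ) (g : 𝓢(E n, ℂ)) :
    fm (psym n ρ (k + 1)) g =
      ((ρ ^ 2 : ℝ) : ℂ) • fm (psym n ρ k) g + fm (psym n ρ k) (fm (lsym n) g) := by
  have h2 : (psym n ρ k * lsym n).HasTemperateGrowth := (psym_temperate ρ k).mul lsym_temperate
  rw [fm, fm, fm, fm, fourierMultiplierCLM_fourierMultiplierCLM_apply (psym_temperate ρ k)
    lsym_temperate]
  ext x
  rw [add_apply, smul_apply]
  have e1 := fm_apply (psym_temperate (n := n) ρ (k + 1)) g x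
  have e2 := fm_apply (psym_temperate (n := n) ρ k) g x
  have e3 := fm_apply h2 g x
  rw [fm] at e1 e2 e3
  have i1 : ∀ {m : E n → ℂ}, m.HasTemperateGrowth →
      Integrable fun ξ => Real.fourierChar (inner ℝ ξ x) • (m ξ * 𝓕 g ξ) := by
    intro m hm
    have hc : Continuous fun ξ : E n => Real.fourierChar (inner ℝ ξ x) := by
      have h9 : Continuous fun z : E n => inner ℝ z x := by fun_prop
      exact Real.continuous_fourierChar.comp h9
    have hi : Integrable (fun ξ => smulLeftCLM ℂ m (𝓕 g) ξ) :=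
      (smulLeftCLM ℂ m (𝓕 g)).integrable
    have hi2 : Integrable (fun ξ => m ξ * 𝓕 g ξ) := by
      refine hi.congr (Filter.Eventually.of_forall fun ξ => ?_)
      change smulLeftCLM ℂ m (𝓕 g) ξ = m ξ * 𝓕 g ξ
      rw [smulLeftCLM_apply_apply hm, smul_eq_mul]
    refine hi2.norm.mono' (hc.aestronglyMeasurable.smul hi2.aestronglyMeasurable) ?_
    exact Filter.Eventually.of_forall fun ξ => by rw [Circle.norm_smul]
  have i2 : Integrable fun ξ : E n => ((ρ ^ 2 : ℝ) : ℂ) • (Real.fourierChar (inner ℝ ξ x) •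
      (psym n ρ k ξ * 𝓕 g ξ)) := (i1 (psym_temperate ρ k)).smul (((ρ ^ 2 : ℝ) : ℂ))
  rw [e1, e2, e3, ← integral_smul, ← integral_add i2 (i1 h2)]
  congr 1
  ext ξ
  simp only [Circle.smul_def, smul_eq_mul, Pi.mul_apply, psym, lsym]
  push_cast
  ring

lemma heat_decay_poly (k L : ℕ) (h : E n) : ∀ η : 𝓢(E n, ℂ), ∃ C : ℝ, 0 ≤ C ∧ ∀ ρ : ℝ, 0 < ρ →
    ρ ≤ 1 → ∀ t : ℝ, 0 < t → ∀ y : E n,
    ‖heat t (fm (psym n ρ k) ((DS h)^[L] η)) y‖ ≤ C * ((1 + t + ‖y‖) ^ (n + L))⁻¹ := by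
  induction k with
  | zero =>
    intro η
    obtain ⟨C, hC, h1⟩ := heat_decay L h η
    refine ⟨C, hC, fun ρ _ _ t ht y => ?_⟩
    have h2 : psym n ρ 0 = fun _ => (1 : ℂ) := by
      ext ξ
      simp [psym]
    rw [h2, fm, fourierMultiplierCLM_const]
    simpa using h1 t ht y
  | succ k ih =>
    intro η
    obtain ⟨C₁, hC₁, h1⟩ := ih η
    obtain ⟨C₂, hC₂, h2⟩ := ih (fm (lsym n) η)
    refine ⟨C₁ + C₂, by positivity, fun ρ hρ hρ1 t ht y => ?_⟩
    rw [fm_psym_succ, fm_DS_iter lsym_temperate, heat_eq, fm, map_add, map_smul, add_apply,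
      smul_apply]
    refine (norm_add_le _ _).trans ?_
    rw [add_mul]
    gcongr
    · rw [norm_smul, Complex.norm_real, Real.norm_of_nonneg (by positivity)]
      refine (mul_le_of_le_one_left (norm_nonneg _) (pow_le_one₀ hρ.le hρ1)).trans ?_
      exact h1 ρ hρ hρ1 t ht y
    · exact h2 ρ hρ hρ1 t ht y

lemma heat_frac (α : ℝ) (N k : ℕ) (hk : α / 2 < k) (L : ℕ) (hL : N + (2 * k + 2) ≤ L + n)
    (hα : 0 < α) (h : E n) (η : 𝓢(E n, ℂ)) :
    ∃ C : ℝ, 0 ≤ C ∧ ∀ ρ : ℝ, 0 < ρ → ρ ≤ 1 → ∀ t : ℝ, 0 < t → ∀ y : E n,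
      ‖fm (hm n t * bsym n ρ (α / 2)) ((DS h)^[L] η) y‖ₑ ≤
        ENNReal.ofReal (C * ((1 + t + ‖y‖) ^ N)⁻¹) := by
  set γ : ℝ := k - α / 2 with hγ
  have hγ0 : 0 < γ := by rw [hγ]; linarith
  obtain ⟨C₁, hC₁, h1⟩ := heat_decay_poly k L h η
  set P : ℕ := 2 * k + 2 with hP
  have hFC : FC γ P < ⊤ := FC_lt γ hγ0 P (by rw [hP, hγ]; push_cast; linarith)
  refine ⟨(Real.Gamma γ)⁻¹ * C₁ * (FC γ P).toReal, ?_, fun ρ hρ hρ1 t ht y => ?_⟩
  · have := Real.Gamma_pos_of_pos hγ0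
    positivity
  have h2 : hm n t * bsym n ρ (α / 2) = (hm n t * bsym n ρ (-γ)) * psym n ρ k := by
    ext ξ
    simp only [Pi.mul_apply, bsym, psym]
    have h0 : 0 < ρ ^ 2 + (2 * Real.pi * ‖ξ‖) ^ 2 := by positivity
    rw [mul_assoc (hm n t ξ), ← Complex.ofReal_mul, ← Real.rpow_natCast _ k, ← Real.rpow_add h0]
    congr 3
    rw [hγ]
    ring
  have hT1 : (hm n t * bsym n ρ (-γ)).HasTemperateGrowth :=
    (hm_temperate t).mul (bsym_temperate ρ (-γ) hρ)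
  rw [h2, fm, ← fourierMultiplierCLM_fourierMultiplierCLM_apply hT1 (psym_temperate ρ k)]
  refine (subord_le γ ρ t hγ0 hρ _ y).trans ?_
  have hA : 0 < 1 + t + ‖y‖ := by positivity
  have h3 : ∫⁻ s in Set.Ioi (0 : ℝ), ENNReal.ofReal (s ^ (γ - 1) * Real.exp (-(s * ρ ^ 2))) *
        ‖heat (Real.sqrt (t ^ 2 + s)) (fourierMultiplierCLM ℂ (psym n ρ k) ((DS h)^[L] η)) y‖ₑ ≤
      ENNReal.ofReal (C₁ * ((1 + t + ‖y‖) ^ N)⁻¹) * FC γ P := by
    unfold FC
    rw [← lintegral_const_mul' _ _ ENNReal.ofReal_ne_top]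
    refine setLIntegral_mono' measurableSet_Ioi fun s hs => ?_
    have hs0 : (0 : ℝ) < s := hs
    set τ := Real.sqrt (t ^ 2 + s) with hτ
    have hτ1 : t ≤ τ := Real.le_sqrt_of_sq_le (by linarith)
    have hτ2 : Real.sqrt s ≤ τ := Real.sqrt_le_sqrt (by nlinarith)
    have hτ0 : 0 < τ := by linarith
    have h4 : ‖heat τ (fourierMultiplierCLM ℂ (psym n ρ k) ((DS h)^[L] η)) y‖ₑ ≤
        ENNReal.ofReal (C₁ * ((1 + τ + ‖y‖) ^ (n + L))⁻¹) := by
      rw [← ofReal_norm]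
      exact ENNReal.ofReal_le_ofReal (h1 ρ hρ hρ1 τ hτ0 y)
    have h5 : ((1 + τ + ‖y‖) ^ (n + L))⁻¹ ≤
        ((1 + t + ‖y‖) ^ N)⁻¹ * ((1 + Real.sqrt s) ^ P)⁻¹ := by
      rw [← mul_inv]
      have hX : 1 ≤ 1 + τ + ‖y‖ := by linarith [norm_nonneg y]
      have h6 : (1 + t + ‖y‖) ^ N * (1 + Real.sqrt s) ^ P ≤ (1 + τ + ‖y‖) ^ (n + L) := by
        calc (1 + t + ‖y‖) ^ N * (1 + Real.sqrt s) ^ P
            ≤ (1 + τ + ‖y‖) ^ N * (1 + τ + ‖y‖) ^ P := by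
              refine mul_le_mul (pow_le_pow_left₀ (by positivity) (by linarith) _)
                (pow_le_pow_left₀ (by positivity) (by linarith [norm_nonneg y]) _)
                (by positivity) (by positivity)
          _ = (1 + τ + ‖y‖) ^ (N + P) := (pow_add _ _ _).symm
          _ ≤ _ := pow_le_pow_right₀ hX (by omega)
      have h7 : 0 < (1 + t + ‖y‖) ^ N * (1 + Real.sqrt s) ^ P := by positivity
      gcongr
    calc ENNReal.ofReal (s ^ (γ - 1) * Real.exp (-(s * ρ ^ 2))) * _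
        ≤ ENNReal.ofReal (s ^ (γ - 1)) * ENNReal.ofReal (C₁ * ((1 + τ + ‖y‖) ^ (n + L))⁻¹) := by
          gcongr
          · refine mul_le_of_le_one_right (by positivity) ?_
            rw [Real.exp_le_one_iff]
            have : 0 ≤ s * ρ ^ 2 := by positivity
            linarith
      _ ≤ ENNReal.ofReal (s ^ (γ - 1)) * ENNReal.ofReal (C₁ *
            (((1 + t + ‖y‖) ^ N)⁻¹ * ((1 + Real.sqrt s) ^ P)⁻¹)) := by gcongr
      _ = _ := by
          rw [← ENNReal.ofReal_mul (by positivity), ← ENNReal.ofReal_mul (by positivity)]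
          congr 1
          ring
  calc ENNReal.ofReal ((Real.Gamma γ)⁻¹) * _
      ≤ ENNReal.ofReal ((Real.Gamma γ)⁻¹) *
        (ENNReal.ofReal (C₁ * ((1 + t + ‖y‖) ^ N)⁻¹) * FC γ P) := by gcongr
    _ = _ := by
      have hG := Real.Gamma_pos_of_pos hγ0
      have e1 : (Real.Gamma γ)⁻¹ * C₁ * (FC γ P).toReal * ((1 + t + ‖y‖) ^ N)⁻¹ =
          (Real.Gamma γ)⁻¹ * ((C₁ * ((1 + t + ‖y‖) ^ N)⁻¹) * (FC γ P).toReal) := by ring
      rw [e1, ENNReal.ofReal_mul (p := (Real.Gamma γ)⁻¹) (by positivity),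
        ENNReal.ofReal_mul (p := C₁ * ((1 + t + ‖y‖) ^ N)⁻¹) (by positivity),
        ENNReal.ofReal_toReal hFC.ne]

end Pool.Agent.Helper41K9.BH
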