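import Mathlib
import Pool.Agent.Helper41K9.BH.HarAtom

set_option autoImplicit false

open MeasureTheory SchwartzMap FourierTransform
open scoped ENNReal SchwartzMap ContDiff

noncomputable section

namespace Pool.Agent.Helper41K9.BH

variable {n : ℕ}

lemma maximal_le_iff (T : ℝ≥0∞) (f : 𝓢(E n, ℂ)) (x : E n) (c : ℝ≥0∞) :
    maximal T f x ≤ c ↔ ∀ (t : ℝ) (y : E n), dist y x < t → ENNReal.ofReal t ≤ T →
      ‖heat t f y‖ₑ ≤ c := by
  unfold maximal
  simp only [iSup_le_iff, and_imp]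

lemma le_maximal {T : ℝ≥0∞} (f : 𝓢(E n, ℂ)) {x y : E n} {t : ℝ} (h : dist y x < t)
    (hT : ENNReal.ofReal t ≤ T) : ‖heat t f y‖ₑ ≤ maximal T f x :=
  (maximal_le_iff T f x _).1 le_rfl t y h hT

lemma measurable_maximal (T : ℝ≥0∞) (f : 𝓢(E n, ℂ)) : Measurable (maximal T f) := by
  apply LowerSemicontinuous.measurable
  intro x c hc
  unfold maximal at hc
  simp only [lt_iSup_iff] at hc
  obtain ⟨t, y, ⟨h1, h2⟩, h3⟩ := hc
  have h4 : ∀ᶠ x' in nhds x, dist y x' < t := by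
    have : Continuous fun x' : E n => dist y x' := by fun_prop
    exact this.continuousAt.eventually_lt continuousAt_const h1
  filter_upwards [h4] with x' hx'
  exact h3.trans_le (le_maximal f hx' h2)

lemma heat_add (t : ℝ) (f g : 𝓢(E n, ℂ)) : heat t (f + g) = heat t f + heat t g := map_add _ _ _

lemma heat_smul (t : ℝ) (c : ℂ) (f : 𝓢(E n, ℂ)) : heat t (c • f) = c • heat t f := map_smul _ _ _

lemma maximal_add (T : ℝ≥0∞) (f g : 𝓢(E n, ℂ)) (x : E n) :
    maximal T (f + g) x ≤ maximal T f x + maximal T g x := by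
  rw [maximal_le_iff]
  intro t y h1 h2
  rw [heat_add, add_apply]
  exact (enorm_add_le _ _).trans (add_le_add (le_maximal f h1 h2) (le_maximal g h1 h2))

lemma maximal_smul (T : ℝ≥0∞) (c : ℂ) (f : 𝓢(E n, ℂ)) (x : E n) :
    maximal T (c • f) x ≤ ‖c‖ₑ * maximal T f x := by
  rw [maximal_le_iff]
  intro t y h1 h2
  rw [heat_smul, smul_apply, smul_eq_mul, enorm_mul]
  gcongr
  exact le_maximal f h1 h2

/-- The cost of `u` in the Hardy-Bessel scale. -/
def costB (T : ℝ≥0∞) (α p : ℝ) (u : 𝓢(E n, ℂ)) : ℝ≥0∞ := hardy T p (fm (bsym n 1 (α / 2)) u)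

lemma costB_zero (T : ℝ≥0∞) (α p : ℝ) (hp : 0 < p) : costB T α p (0 : 𝓢(E n, ℂ)) = 0 := by
  unfold costB hardy
  have h1 : fm (bsym n 1 (α / 2)) (0 : 𝓢(E n, ℂ)) = 0 := map_zero _
  rw [h1]
  have h2 : ∀ x : E n, maximal T (0 : 𝓢(E n, ℂ)) x = 0 := by
    intro x
    have := (maximal_le_iff T (0 : 𝓢(E n, ℂ)) x 0).2 (by
      intro t y _ _
      have : heat t (0 : 𝓢(E n, ℂ)) = 0 := map_zero _
      rw [this]
      simp)
    exact le_antisymm this bot_le
  simp [h2, hp]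

lemma costB_add (T : ℝ≥0∞) (α p : ℝ) (hp : 0 < p) (hp1 : p ≤ 1) (u v : 𝓢(E n, ℂ)) :
    costB T α p (u + v) ≤ costB T α p u + costB T α p v := by
  unfold costB hardy
  have h1 : fm (bsym n 1 (α / 2)) (u + v) = fm (bsym n 1 (α / 2)) u + fm (bsym n 1 (α / 2)) v :=
    map_add _ _ _
  rw [h1, ← lintegral_add_left ((measurable_maximal T _).pow_const p)]
  refine lintegral_mono fun x => ?_
  exact (ENNReal.rpow_le_rpow (maximal_add T _ _ x) hp.le).trans (enorm_add_rpow p hp hp1 _ _)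

lemma costB_smul (T : ℝ≥0∞) (α p : ℝ) (hp : 0 < p) (c : ℂ) (u : 𝓢(E n, ℂ)) :
    costB T α p (c • u) ≤ ‖c‖ₑ ^ p * costB T α p u := by
  unfold costB hardy
  have h1 : fm (bsym n 1 (α / 2)) (c • u) = c • fm (bsym n 1 (α / 2)) u := map_smul _ _ _
  rw [h1, ← lintegral_const_mul' _ _ (ENNReal.rpow_ne_top_of_nonneg hp.le enorm_ne_top)]
  refine lintegral_mono fun x => ?_
  rw [← ENNReal.mul_rpow_of_nonneg _ _ hp.le]
  exact ENNReal.rpow_le_rpow (maximal_smul T c _ x) hp.le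

lemma sym_scale (α t a : ℝ) (ha : 0 < a) :
    (fun ξ : E n => (hm n t * bsym n 1 (α / 2)) (a • ξ)) =
      ((a ^ α : ℝ) : ℂ) • (hm n (t * a) * bsym n a⁻¹ (α / 2)) := by
  ext ξ
  simp only [Pi.mul_apply, Pi.smul_apply, smul_eq_mul, hm, bsym]
  rw [norm_smul, Real.norm_of_nonneg ha.le]
  have h1 : (1 ^ 2 + (2 * Real.pi * (a * ‖ξ‖)) ^ 2) ^ (α / 2) =
      a ^ α * (a⁻¹ ^ 2 + (2 * Real.pi * ‖ξ‖) ^ 2) ^ (α / 2) := by
    have h2 : a ^ α = (a ^ 2) ^ (α / 2) := by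
      rw [← Real.rpow_natCast, ← Real.rpow_mul ha.le]
      congr 1
      push_cast
      ring
    rw [h2, ← Real.mul_rpow (by positivity) (by positivity)]
    congr 1
    field_simp
  rw [h1]
  have h3 : 2 * Real.pi * t * (a * ‖ξ‖) = 2 * Real.pi * (t * a) * ‖ξ‖ := by ring
  rw [h3]
  push_cast
  ring

lemma costB_dil (α p : ℝ) (hα : 0 < α) (hp : 0 < p) (N k : ℕ) (hN : (n + 1 : ℝ) ≤ N * p)
    (hk : α / 2 < k) (L : ℕ) (hL : N + (2 * k + 2) ≤ L + n) (h : E n) (η : 𝓢(E n, ℂ)) :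
    ∃ C : ℝ≥0∞, C ≠ ⊤ ∧ ∀ (T : ℝ≥0∞) (q : ℕ) (hq : (2 : ℝ) ^ q ≠ 0) (b : E n),
      costB T α p (dil ((2 : ℝ) ^ q) hq b ((DS h)^[L] η)) ≤
        C * ENNReal.ofReal (((2 : ℝ) ^ q) ^ (α * p - n)) := by
  obtain ⟨C, hC, h1⟩ := heat_frac α N k hk L hL hα h η
  refine ⟨ENNReal.ofReal (C ^ p) * ENNReal.ofReal (JJ n),
    ENNReal.mul_ne_top ENNReal.ofReal_ne_top ENNReal.ofReal_ne_top, fun T q hq b => ?_⟩
  set a : ℝ := (2 : ℝ) ^ q with ha
  have ha0 : 0 < a := by positivity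
  have ha1 : a⁻¹ ≤ 1 := inv_le_one_of_one_le₀ (one_le_pow₀ (by norm_num))
  set G : E n → ℝ≥0∞ := fun y => ENNReal.ofReal (a ^ α * C * ((1 + ‖y‖) ^ N)⁻¹) with hG
  have h2 : ∀ x, maximal T (fm (bsym n 1 (α / 2)) (dil a hq b ((DS h)^[L] η))) x ≤
      G (a • x - b) := by
    intro x
    rw [maximal_le_iff]
    intro t y hy _
    have ht : 0 < t := dist_nonneg.trans_lt hy
    have hT1 : (hm n t * bsym n 1 (α / 2)).HasTemperateGrowth :=
      (hm_temperate t).mul (bsym_temperate 1 (α / 2) one_pos)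
    have hT2 : (hm n (t * a) * bsym n a⁻¹ (α / 2)).HasTemperateGrowth :=
      (hm_temperate _).mul (bsym_temperate a⁻¹ (α / 2) (by positivity))
    have h3 : heat t (fm (bsym n 1 (α / 2)) (dil a hq b ((DS h)^[L] η))) y =
        ((a ^ α : ℝ) : ℂ) •
          fm (hm n (t * a) * bsym n a⁻¹ (α / 2)) ((DS h)^[L] η) (a • y - b) := by
      rw [heat_eq, fm, fm, fourierMultiplierCLM_fourierMultiplierCLM_apply (hm_temperate t)
        (bsym_temperate 1 (α / 2) one_pos)]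
      have h4 := fm_dil hT1 a ha0 b ((DS h)^[L] η) y
      rw [fm, fm] at h4
      rw [h4, sym_scale α t a ha0, fourierMultiplierCLM_smul hT2]
      rfl
    rw [h3, enorm_smul]
    have h5 : ‖((a ^ α : ℝ) : ℂ)‖ₑ = ENNReal.ofReal (a ^ α) := by
      rw [← ofReal_norm, Complex.norm_real, Real.norm_of_nonneg (by positivity)]
    rw [h5]
    have h6 := h1 a⁻¹ (by positivity) ha1 (t * a) (by positivity) (a • y - b)
    calc ENNReal.ofReal (a ^ α) * ‖_‖ₑ ≤ ENNReal.ofReal (a ^ α) *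
          ENNReal.ofReal (C * ((1 + t * a + ‖a • y - b‖) ^ N)⁻¹) := by gcongr
      _ ≤ ENNReal.ofReal (a ^ α) * ENNReal.ofReal (C * ((1 + ‖a • x - b‖) ^ N)⁻¹) := by
          have h7 : ‖a • x - b‖ ≤ ‖a • y - b‖ + t * a := by
            have h8 : a • x - b = (a • y - b) + a • (x - y) := by rw [smul_sub]; abel
            rw [h8]
            refine (norm_add_le _ _).trans ?_
            gcongr
            rw [norm_smul, Real.norm_of_nonneg ha0.le, mul_comm, ← dist_eq_norm, dist_comm]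
            gcongr
          have h8 : (1 + ‖a • x - b‖) ^ N ≤ (1 + t * a + ‖a • y - b‖) ^ N :=
            pow_le_pow_left₀ (by positivity) (by linarith) _
          have h9 : 0 < (1 + ‖a • x - b‖) ^ N := by positivity
          gcongr
      _ = _ := by
          rw [← ENNReal.ofReal_mul (by positivity), ← mul_assoc]
  unfold costB hardy
  calc ∫⁻ x, maximal T (fm (bsym n 1 (α / 2)) (dil a hq b ((DS h)^[L] η))) x ^ p
      ≤ ∫⁻ x, (fun y => G y ^ p) (a • x - b) :=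
        lintegral_mono fun x => ENNReal.rpow_le_rpow (h2 x) hp.le
    _ = ENNReal.ofReal ((a ^ n)⁻¹) * ∫⁻ y, G y ^ p :=
        lintegral_affine (fun y => G y ^ p) a ha0 b
    _ ≤ ENNReal.ofReal ((a ^ n)⁻¹) * (ENNReal.ofReal ((a ^ α * C) ^ p * ((1 : ℝ) ^ n)⁻¹) *
          ENNReal.ofReal (JJ n)) := by
        gcongr
        refine lp_decay p hp N hN (a ^ α * C) 1 (by positivity) one_pos G (fun x => ?_)
        rw [hG, one_mul]
    _ = _ := by
        have h9 : (a ^ n)⁻¹ * ((a ^ α * C) ^ p * ((1 : ℝ) ^ n)⁻¹) = C ^ p * a ^ (α * p - n) := by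
          rw [one_pow, inv_one, mul_one, Real.mul_rpow (by positivity) hC, ← Real.rpow_mul ha0.le,
            Real.rpow_sub ha0, Real.rpow_natCast]
          ring
        rw [← mul_assoc, ← ENNReal.ofReal_mul (by positivity), h9,
          ENNReal.ofReal_mul (by positivity)]
        ring

lemma bessel_costB (T : ℝ≥0∞) (α p : ℝ) (u : 𝓢(E n, ℂ)) :
    ∃ f : 𝓢(E n, ℂ), bessel α f = u ∧ hardy T p f = costB T α p u := by
  refine ⟨fm (bsym n 1 (α / 2)) u, ?_, rfl⟩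
  have h1 : (fun ξ : E n => (((1 + (2 * Real.pi * ‖ξ‖) ^ 2) ^ (-α / 2) : ℝ) : ℂ)) =
      bsym n 1 (-α / 2) := by
    ext ξ
    simp [bsym]
  have h2 : bsym n 1 (-α / 2) * bsym n 1 (α / 2) = fun _ => (1 : ℂ) := by
    ext ξ
    simp only [Pi.mul_apply, bsym]
    rw [← Complex.ofReal_mul, ← Real.rpow_add (by positivity)]
    have : -α / 2 + α / 2 = 0 := by ring
    rw [this, Real.rpow_zero, Complex.ofReal_one]
  unfold bessel
  rw [h1, fm, fourierMultiplierCLM_fourierMultiplierCLM_apply (bsym_temperate 1 _ one_pos)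
    (bsym_temperate 1 _ one_pos), h2, fourierMultiplierCLM_const]
  simp

end Pool.Agent.Helper41K9.BH
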