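import Mathlib
import Pool.Agent.Helper41K9.BH.HarDil
import Pool.Agent.Helper41K9.BH.Build

set_option autoImplicit false

open MeasureTheory SchwartzMap FourierTransform
open scoped ENNReal SchwartzMap ContDiff

noncomputable section

namespace Pool.Agent.Helper41K9.BH

variable {n : ℕ}

lemma exists_eta (n : ℕ) : ∃ η : 𝓢(E n, ℂ), IsRe η ∧ (∀ x, 0 ≤ (η x).re) ∧
    (∀ x, (η x).re ≤ 1) ∧ (∀ x, (∀ i, 0 ≤ x i ∧ x i ≤ 1) → (η x).re = 1) ∧
    (∀ x, (∃ i, x i ≤ -1 ∨ 2 ≤ x i) → (η x).re = 0) := by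
  let f : ContDiffBump (1 / 2 : ℝ) := ⟨1 / 2, 3 / 2, by norm_num, by norm_num⟩
  set F : E n → ℝ := fun x => ∏ i, f (x i) with hF
  have hsm : ContDiff ℝ ∞ F := by
    apply contDiff_prod
    intro i _
    have h1 : ContDiff ℝ ∞ fun x : E n => x i := by fun_prop
    exact f.contDiff.comp h1
  have hz : ∀ x, (∃ i, x i ≤ -1 ∨ 2 ≤ x i) → F x = 0 := by
    rintro x ⟨i, hi⟩
    apply Finset.prod_eq_zero (Finset.mem_univ i)
    apply f.zero_of_le_dist
    rw [Real.dist_eq]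
    change (3 / 2 : ℝ) ≤ _
    rcases hi with hi | hi
    · rw [abs_of_nonpos (by linarith)]; linarith
    · rw [abs_of_nonneg (by linarith)]; linarith
  have hcs : HasCompactSupport (fun x => ((F x : ℝ) : ℂ)) := by
    have hK : IsCompact ((EuclideanSpace.equiv (Fin n) ℝ).symm ''
        (Set.univ.pi fun _ => Set.Icc (-1 : ℝ) 2)) :=
      (isCompact_univ_pi fun _ => isCompact_Icc).image (EuclideanSpace.equiv (Fin n) ℝ).symm.continuous
    refine HasCompactSupport.intro hK fun x hx => ?_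
    have : ∃ i, x i ≤ -1 ∨ 2 ≤ x i := by
      by_contra hcon
      push Not at hcon
      refine hx ⟨fun i => x i, ?_, ?_⟩
      · intro i _
        exact ⟨(hcon i).1.le, (hcon i).2.le⟩
      · ext i; rfl
    rw [hz x this]
    simp
  refine ⟨hcs.toSchwartzMap (Complex.ofRealCLM.contDiff.comp hsm), ⟨fun x => ?_, hcs⟩,
    fun x => ?_, fun x => ?_, fun x hx => ?_, fun x hx => ?_⟩
  · exact Complex.ofReal_im _
  · change 0 ≤ F x
    exact Finset.prod_nonneg fun i _ => f.nonneg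
  · change F x ≤ 1
    exact Finset.prod_le_one (fun i _ => f.nonneg) fun i _ => f.le_one
  · change F x = 1
    apply Finset.prod_eq_one
    intro i _
    apply f.one_of_mem_closedBall
    rw [Metric.mem_closedBall, Real.dist_eq, abs_le]
    change -(1 / 2 : ℝ) ≤ _ ∧ _ ≤ (1 / 2 : ℝ)
    constructor <;> linarith [(hx i).1, (hx i).2]
  · change F x = 0
    exact hz x hx

lemma DS_iter_fwd (h : E n) (g : 𝓢(E n, ℂ)) (L : ℕ) : ∀ x,
    (DS h)^[L] g x = (-1) ^ L * ((fwdDiff (-h))^[L] (fun x => g x)) x := by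
  induction L with
  | zero => intro x; simp
  | succ L ih =>
    intro x
    rw [Function.iterate_succ_apply', DS_apply, ih, ih, Function.iterate_succ_apply', fwdDiff,
      ← sub_eq_add_neg, pow_succ]
    ring

lemma DS_iter_apply (h : E n) (g : 𝓢(E n, ℂ)) (L : ℕ) (x : E n) :
    (DS h)^[L] g x = ∑ l ∈ Finset.range (L + 1), (((-1) ^ l * (L.choose l : ℝ) : ℝ) : ℂ) *
      g (x - (l : ℝ) • h) := by
  rw [DS_iter_fwd, fwdDiff_iter_eq_sum_shift, Finset.mul_sum]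
  refine Finset.sum_congr rfl fun l hl => ?_
  rw [Finset.mem_range] at hl
  have h1 : x + l • -h = x - (l : ℝ) • h := by
    rw [smul_neg, ← sub_eq_add_neg, Nat.cast_smul_eq_nsmul]
  rw [h1, zsmul_eq_mul, ← mul_assoc]
  congr 1
  push_cast
  have h2 : ((-1 : ℂ)) ^ L * (-1) ^ (L - l) = (-1) ^ l := by
    have h3 : L + (L - l) = l + 2 * (L - l) := by omega
    rw [← pow_add, h3, pow_add, pow_mul]
    simp
  rw [← mul_assoc, h2]

/-- The shift vectors. -/
def hv {V : ℕ} (s : Fin n → Bool) (v : Fin n → Fin V) : E n :=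
  WithLp.toLp 2 fun i => 3 * (if s i then 1 else -1) * ((v i : ℝ) + 1)

lemma hv_apply {V : ℕ} (s : Fin n → Bool) (v : Fin n → Fin V) (i : Fin n) :
    hv s v i = 3 * (if s i then 1 else -1) * ((v i : ℝ) + 1) := rfl

lemma shift_apply {V : ℕ} (s : Fin n → Bool) (v : Fin n → Fin V) (l : ℕ) (y : E n) (i : Fin n) :
    (y - (l : ℝ) • hv s v) i = y i - l * (3 * (if s i then 1 else -1) * ((v i : ℝ) + 1)) := rfl

lemma coord_of_ne {η : 𝓢(E n, ℂ)} (h3 : ∀ x, (∃ i, x i ≤ -1 ∨ 2 ≤ x i) → (η x).re = 0)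
    {V L : ℕ} (s : Fin n → Bool) (v : Fin n → Fin V) (l : ℕ) (hl : 1 ≤ l) (hlL : l ≤ L) (y : E n)
    (h : (η (y - (l : ℝ) • hv s v)).re ≠ 0) (i : Fin n) :
    (s i = true → 2 < y i ∧ y i < 2 + 3 * L * V) ∧
      (s i = false → -1 - 3 * L * V < y i ∧ y i < -1) := by
  have hc : -1 < (y - (l : ℝ) • hv s v) i ∧ (y - (l : ℝ) • hv s v) i < 2 := by
    by_contra hcon
    apply h
    apply h3
    refine ⟨i, ?_⟩
    by_contra h4
    push Not at h4
    exact hcon h4
  rw [shift_apply] at hc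
  have hl' : (1 : ℝ) ≤ l := by exact_mod_cast hl
  have hl'' : (l : ℝ) ≤ L := by exact_mod_cast hlL
  have hv0 : (0 : ℝ) ≤ (v i : ℝ) := by positivity
  have hv1 : ((v i : ℕ) : ℝ) + 1 ≤ V := by
    have := (v i).isLt
    exact_mod_cast this
  have h5 : (1 : ℝ) ≤ l * ((v i : ℝ) + 1) := by nlinarith
  have h6 : (l : ℝ) * ((v i : ℝ) + 1) ≤ L * V := by
    apply mul_le_mul hl'' hv1 (by positivity) (by positivity)
  constructor
  · intro hs
    rw [hs] at hc
    simp only [if_true] at hc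
    constructor <;> nlinarith [hc.1, hc.2]
  · intro hs
    rw [hs] at hc
    simp only [Bool.false_eq_true, if_false] at hc
    constructor <;> nlinarith [hc.1, hc.2]

lemma sum_shift_le {η : 𝓢(E n, ℂ)} (h1 : ∀ x, (η x).re ≤ 1)
    (h3 : ∀ x, (∃ i, x i ≤ -1 ∨ 2 ≤ x i) → (η x).re = 0)
    {V : ℕ} (s : Fin n → Bool) (l : ℕ) (hl : 1 ≤ l) (y : E n) :
    ∑ v : Fin n → Fin V, (η (y - (l : ℝ) • hv s v)).re ≤ 1 := by
  by_cases hex : ∃ v : Fin n → Fin V, (η (y - (l : ℝ) • hv s v)).re ≠ 0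
  · obtain ⟨v, hv'⟩ := hex
    rw [Finset.sum_eq_single v]
    · exact h1 _
    · intro w _ hwv
      by_contra hw
      apply hwv
      funext i
      have key : ∀ u : Fin n → Fin V, (η (y - (l : ℝ) • hv s u)).re ≠ 0 →
          -1 < (y - (l : ℝ) • hv s u) i ∧ (y - (l : ℝ) • hv s u) i < 2 := by
        intro u hu
        by_contra hcon
        apply hu
        apply h3
        refine ⟨i, ?_⟩
        by_contra h4
        push Not at h4
        exact hcon h4
      have e1 := key v hv'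
      have e2 := key w hw
      rw [shift_apply] at e1 e2
      have hl' : (1 : ℝ) ≤ l := by exact_mod_cast hl
      by_contra hne
      have hne' : (w i : ℕ) ≠ (v i : ℕ) := fun h => hne (Fin.ext h)
      have habs : (1 : ℝ) ≤ |((w i : ℕ) : ℝ) - ((v i : ℕ) : ℝ)| := by
        have h8 : (1 : ℤ) ≤ |((w i : ℕ) : ℤ) - ((v i : ℕ) : ℤ)| := by
          apply Int.one_le_abs
          intro h
          apply hne'
          omega
        exact_mod_cast h8
      have habs2 : (3 : ℝ) ≤ |(l : ℝ) * (3 * (((w i : ℕ) : ℝ) - ((v i : ℕ) : ℝ)))| := by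
        rw [abs_mul, abs_mul, abs_of_nonneg (by positivity : (0 : ℝ) ≤ l),
          abs_of_nonneg (by norm_num : (0 : ℝ) ≤ 3)]
        nlinarith [abs_nonneg (((w i : ℕ) : ℝ) - ((v i : ℕ) : ℝ))]
      have hlt : |(l : ℝ) * (3 * (((w i : ℕ) : ℝ) - ((v i : ℕ) : ℝ)))| < 3 := by
        rw [abs_lt]
        cases hs : s i <;> rw [hs] at e1 e2
        · simp only [Bool.false_eq_true, if_false] at e1 e2
          constructor <;> nlinarith [e1.1, e1.2, e2.1, e2.2]
        · simp only [if_true] at e1 e2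
          constructor <;> nlinarith [e1.1, e1.2, e2.1, e2.2]
      linarith
    · intro h; exact absurd (Finset.mem_univ _) h
  · push Not at hex
    rw [Finset.sum_eq_zero fun v _ => hex v]
    exact zero_le_one

/-- The basic atom before dilation. -/
def atomR (η : 𝓢(E n, ℂ)) (V L : ℕ) (s : Fin n → Bool) (y : E n) : ℝ :=
  ((V : ℝ) ^ n)⁻¹ * ∑ v : Fin n → Fin V, ((DS (hv s v))^[L] η y).re

lemma atomR_eq (η : 𝓢(E n, ℂ)) (V L : ℕ) (hV : 0 < V) (s : Fin n → Bool) (y : E n) :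
    atomR η V L s y = (η y).re + ((V : ℝ) ^ n)⁻¹ * ∑ l ∈ Finset.range L,
      ((-1) ^ (l + 1) * (L.choose (l + 1) : ℝ)) *
        ∑ v : Fin n → Fin V, (η (y - ((l + 1 : ℕ) : ℝ) • hv s v)).re := by
  unfold atomR
  have h1 : ∀ v : Fin n → Fin V, ((DS (hv s v))^[L] η y).re =
      (∑ l ∈ Finset.range L, ((-1) ^ (l + 1) * (L.choose (l + 1) : ℝ)) *
        (η (y - ((l + 1 : ℕ) : ℝ) • hv s v)).re) + (η y).re := by
    intro v
    rw [DS_iter_apply, Complex.re_sum, Finset.sum_range_succ']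
    congr 1
    · refine Finset.sum_congr rfl fun l _ => ?_
      rw [Complex.re_ofReal_mul]
    · simp
  simp_rw [h1]
  rw [Finset.sum_add_distrib, Finset.sum_comm, mul_add, add_comm]
  have hV' : (V : ℝ) ≠ 0 := by exact_mod_cast hV.ne'
  congr 1
  · rw [Finset.sum_const, Finset.card_univ, Fintype.card_fun, Fintype.card_fin, Fintype.card_fin,
      nsmul_eq_mul]
    push_cast
    field_simp
  · congr 1
    refine Finset.sum_congr rfl fun l _ => ?_
    rw [Finset.mul_sum]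

lemma atomR_child {η : 𝓢(E n, ℂ)} (h2 : ∀ x, (∀ i, 0 ≤ x i ∧ x i ≤ 1) → (η x).re = 1)
    (h3 : ∀ x, (∃ i, x i ≤ -1 ∨ 2 ≤ x i) → (η x).re = 0) (hn : 0 < n) (V L : ℕ) (hV : 0 < V)
    (s : Fin n → Bool) (y : E n) (hy : ∀ i, 0 ≤ y i ∧ y i ≤ 1) : atomR η V L s y = 1 := by
  rw [atomR_eq η V L hV, h2 y hy, Finset.sum_eq_zero, mul_zero, add_zero]
  intro l hl
  rw [Finset.mem_range] at hl
  rw [Finset.sum_eq_zero, mul_zero]
  intro v _
  by_contra hne
  have h4 := coord_of_ne h3 s v (l + 1) (by omega) (by omega : l + 1 ≤ L) y hne ⟨0, hn⟩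
  have h5 := hy ⟨0, hn⟩
  cases hs : s ⟨0, hn⟩
  · linarith [(h4.2 hs).2]
  · linarith [(h4.1 hs).1]

lemma atomR_lower {η : 𝓢(E n, ℂ)} (h0 : ∀ x, 0 ≤ (η x).re) (h1 : ∀ x, (η x).re ≤ 1)
    (h3 : ∀ x, (∃ i, x i ≤ -1 ∨ 2 ≤ x i) → (η x).re = 0) (V L : ℕ) (hV : 0 < V)
    (s : Fin n → Bool) (y : E n) : -((2 : ℝ) ^ L / (V : ℝ) ^ n) ≤ atomR η V L s y := by
  rw [atomR_eq η V L hV]
  have h4 : -((2 : ℝ) ^ L) ≤ ∑ l ∈ Finset.range L,
      ((-1) ^ (l + 1) * (L.choose (l + 1) : ℝ)) *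
        ∑ v : Fin n → Fin V, (η (y - ((l + 1 : ℕ) : ℝ) • hv s v)).re := by
    have h5 : ∑ l ∈ Finset.range L, (L.choose (l + 1) : ℝ) ≤ 2 ^ L := by
      have h6 := Nat.sum_range_choose L
      rw [Finset.sum_range_succ'] at h6
      have h7 : ∑ l ∈ Finset.range L, L.choose (l + 1) ≤ 2 ^ L := by omega
      exact_mod_cast h7
    calc -((2 : ℝ) ^ L) ≤ -∑ l ∈ Finset.range L, (L.choose (l + 1) : ℝ) := by linarith
      _ = ∑ l ∈ Finset.range L, -(L.choose (l + 1) : ℝ) := by rw [Finset.sum_neg_distrib]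
      _ ≤ _ := by
        refine Finset.sum_le_sum fun l _ => ?_
        have e0 : 0 ≤ ∑ v : Fin n → Fin V, (η (y - ((l + 1 : ℕ) : ℝ) • hv s v)).re :=
          Finset.sum_nonneg fun v _ => h0 _
        have e1 := sum_shift_le h1 h3 (V := V) s (l + 1) (by omega) y
        have e2 : (0 : ℝ) ≤ (L.choose (l + 1) : ℝ) := by positivity
        rcases neg_one_pow_eq_or ℝ (l + 1) with h | h <;> rw [h] <;> nlinarith
  have h5 : 0 < (V : ℝ) ^ n := by positivity
  have h6 := mul_le_mul_of_nonneg_left h4 (inv_nonneg.2 h5.le)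
  have h7 := h0 y
  have h8 : ((V : ℝ) ^ n)⁻¹ * -((2 : ℝ) ^ L) = -((2 : ℝ) ^ L / (V : ℝ) ^ n) := by
    field_simp
  linarith

lemma atomR_off {η : 𝓢(E n, ℂ)} (h0 : ∀ x, 0 ≤ (η x).re)
    (h3 : ∀ x, (∃ i, x i ≤ -1 ∨ 2 ≤ x i) → (η x).re = 0) (V L : ℕ) (hV : 0 < V)
    (s : Fin n → Bool) (y : E n) (hneg : atomR η V L s y < 0) (i : Fin n) :
    (s i = true → 2 < y i ∧ y i < 2 + 3 * L * V) ∧
      (s i = false → -1 - 3 * L * V < y i ∧ y i < -1) := by
  by_contra hcon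
  rw [atomR_eq η V L hV, Finset.sum_eq_zero, mul_zero, add_zero] at hneg
  · linarith [h0 y]
  · intro l hl
    rw [Finset.mem_range] at hl
    rw [Finset.sum_eq_zero, mul_zero]
    intro v _
    by_contra hne
    exact hcon (coord_of_ne h3 s v (l + 1) (by omega) (by omega : l + 1 ≤ L) y hne i)

end Pool.Agent.Helper41K9.BH
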