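import Mathlib
import Pool.Agent.Helper41K9.BH.Lp

set_option autoImplicit false

open MeasureTheory SchwartzMap FourierTransform
open scoped ENNReal SchwartzMap ContDiff

noncomputable section

namespace Pool.Agent.Helper41K9.BH

variable {n : ℕ}

/-- The cutoff as a Schwartz function. -/
def cutS (φ : E n → ℝ) (hφ : IsCutoff φ) : 𝓢(E n, ℂ) :=
  HasCompactSupport.toSchwartzMap (f := fun ξ => ((φ ξ : ℝ) : ℂ))
    (HasCompactSupport.intro (isCompact_closedBall (0 : E n) 2) (fun x hx => by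
      rw [hφ.zero x (by
        rw [Metric.mem_closedBall, dist_zero_right, not_le] at hx
        exact hx.le)]
      simp))
    (Complex.ofRealCLM.contDiff.comp hφ.smooth)

@[simp] lemma cutS_apply (φ : E n → ℝ) (hφ : IsCutoff φ) (ξ : E n) : cutS φ hφ ξ = (φ ξ : ℂ) := rfl

lemma exists_theta (φ : E n → ℝ) (hφ : IsCutoff φ) (N : ℕ) : ∃ θ : 𝓢(E n, ℂ), ∀ ξ : E n,
    θ ξ * (((‖ξ‖ ^ 2) ^ N : ℝ) : ℂ) = ((φ ξ - φ ((2 : ℝ) • ξ) : ℝ) : ℂ) := by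
  set f : E n → ℝ := fun ξ => (φ ξ - φ ((2 : ℝ) • ξ)) / (‖ξ‖ ^ 2) ^ N with hf
  have hsm : ContDiff ℝ ∞ f := by
    rw [contDiff_iff_contDiffAt]
    intro ξ
    have hnum : ContDiff ℝ ∞ fun ξ : E n => φ ξ - φ ((2 : ℝ) • ξ) :=
      hφ.smooth.sub (hφ.smooth.comp (contDiff_const_smul (2 : ℝ)))
    have hden : ContDiff ℝ ∞ fun ξ : E n => (‖ξ‖ ^ 2) ^ N := (contDiff_norm_sq ℝ).pow N
    by_cases h0 : ξ = 0
    · have h1 : f =ᶠ[nhds ξ] fun _ => 0 := by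
        have : Metric.ball (0 : E n) (1 / 2) ∈ nhds ξ := by
          rw [h0]; exact Metric.ball_mem_nhds _ (by norm_num)
        filter_upwards [this] with x hx
        rw [Metric.mem_ball, dist_zero_right] at hx
        simp only [hf]
        rw [hφ.one x (by linarith), hφ.one ((2 : ℝ) • x) (by
          rw [norm_smul, Real.norm_of_nonneg (by norm_num)]; linarith)]
        simp
      exact contDiffAt_const.congr_of_eventuallyEq h1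
    · exact hnum.contDiffAt.div hden.contDiffAt
        (pow_ne_zero _ (pow_ne_zero _ (norm_ne_zero_iff.2 h0)))
  have hcs : HasCompactSupport (fun ξ => ((f ξ : ℝ) : ℂ)) := by
    refine HasCompactSupport.intro (isCompact_closedBall (0 : E n) 2) (fun x hx => ?_)
    rw [Metric.mem_closedBall, dist_zero_right, not_le] at hx
    simp only [hf]
    rw [hφ.zero x hx.le, hφ.zero ((2 : ℝ) • x) (by
      rw [norm_smul, Real.norm_of_nonneg (by norm_num)]; linarith)]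
    simp
  refine ⟨hcs.toSchwartzMap (Complex.ofRealCLM.contDiff.comp hsm), fun ξ => ?_⟩
  change ((f ξ : ℝ) : ℂ) * (((‖ξ‖ ^ 2) ^ N : ℝ) : ℂ) = _
  rw [← Complex.ofReal_mul]
  congr 1
  simp only [hf]
  by_cases h0 : ξ = 0
  · rw [h0]; simp
  · exact div_mul_cancel₀ _ (pow_ne_zero _ (pow_ne_zero _ (norm_ne_zero_iff.2 h0)))

lemma temperate_scale (θ : 𝓢(E n, ℂ)) (l : ℝ) : (fun ξ : E n => θ (l • ξ)).HasTemperateGrowth := by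
  have := θ.hasTemperateGrowth
  fun_prop

lemma temperate_nsq (N : ℕ) : (fun ξ : E n => (((‖ξ‖ ^ 2) ^ N : ℝ) : ℂ)).HasTemperateGrowth := by
  fun_prop

lemma piece_high (φ : E n → ℝ) (hφ : IsCutoff φ) (N M : ℕ) (g : 𝓢(E n, ℂ)) :
    ∃ C : ℝ, 0 ≤ C ∧ ∀ l : ℝ, 1 ≤ l → ∀ x : E n,
      ‖fm (fun ξ => ((φ (l⁻¹ • ξ) - φ ((2 : ℝ) • l⁻¹ • ξ) : ℝ) : ℂ)) g x‖ ≤
        C * ((l ^ 2) ^ N)⁻¹ * ((1 + ‖x‖) ^ M)⁻¹ := by
  obtain ⟨θ, hθ⟩ := exists_theta φ hφ N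
  obtain ⟨C, hC, h1⟩ := kern_large θ (fm (fun ξ : E n => (((‖ξ‖ ^ 2) ^ N : ℝ) : ℂ)) g) M
  refine ⟨C, hC, fun l hl x => ?_⟩
  have hl0 : 0 < l := by linarith
  have h2 : (fun ξ : E n => ((φ (l⁻¹ • ξ) - φ ((2 : ℝ) • l⁻¹ • ξ) : ℝ) : ℂ)) =
      (((((l ^ 2) ^ N)⁻¹ : ℝ) : ℂ) • fun ξ => θ (l⁻¹ • ξ)) *
        (fun ξ : E n => (((‖ξ‖ ^ 2) ^ N : ℝ) : ℂ)) := by
    ext ξ
    rw [← hθ]
    simp only [Pi.mul_apply, Pi.smul_apply, smul_eq_mul]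
    rw [norm_smul, Real.norm_of_nonneg (by positivity)]
    push_cast
    rw [mul_pow, mul_pow, inv_pow, inv_pow]
    ring
  have h3 := temperate_scale θ l⁻¹
  have h4 : (((((l ^ 2) ^ N)⁻¹ : ℝ) : ℂ) • fun ξ => θ (l⁻¹ • ξ)).HasTemperateGrowth :=
    (Function.HasTemperateGrowth.const ((((l ^ 2) ^ N)⁻¹ : ℝ) : ℂ)).smul h3
  rw [h2, fm, ← fourierMultiplierCLM_fourierMultiplierCLM_apply h4 (temperate_nsq N),
    fourierMultiplierCLM_smul h3, _root_.smul_apply, smul_apply, norm_smul, Complex.norm_real,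
    Real.norm_of_nonneg (by positivity)]
  have := h1 l hl x
  calc ((l ^ 2) ^ N)⁻¹ * ‖_‖ ≤ ((l ^ 2) ^ N)⁻¹ * (C * ((1 + ‖x‖) ^ M)⁻¹) := by gcongr
    _ = _ := by ring

/-- The ratio of scales. -/
def lam (q j : ℕ) : ℝ := (2 : ℝ) ^ j / (2 : ℝ) ^ q

lemma lam_pos (q j : ℕ) : 0 < lam q j := by unfold lam; positivity

lemma lpCutoff_scale (φ : E n → ℝ) (q j : ℕ) (ξ : E n) :
    lpCutoff φ (j + 1) ((2 : ℝ) ^ q • ξ) =
      φ ((lam q (j + 1))⁻¹ • ξ) - φ ((2 : ℝ) • (lam q (j + 1))⁻¹ • ξ) := by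
  change φ (((2 : ℝ) ^ (j + 1))⁻¹ • (2 : ℝ) ^ q • ξ) - φ (((2 : ℝ) ^ j)⁻¹ • (2 : ℝ) ^ q • ξ) = _
  rw [smul_smul, smul_smul, smul_smul]
  unfold lam
  congr 3
  · rw [inv_div]; ring
  · rw [inv_div]; field_simp; ring

lemma piece_low (φ : E n → ℝ) (hφ : IsCutoff φ) (L M : ℕ) (h : E n) (η : 𝓢(E n, ℂ)) :
    ∃ C : ℝ, 0 ≤ C ∧ ∀ q j : ℕ, j ≤ q → ∀ x : E n,
      ‖fm (fun ξ => ((lpCutoff φ j ((2 : ℝ) ^ q • ξ) : ℝ) : ℂ)) ((DS h)^[L] η) x‖ ≤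
        C * lam q j ^ (n + L) * ((1 + lam q j * ‖x‖) ^ M)⁻¹ := by
  obtain ⟨θ, hθ⟩ := exists_theta φ hφ 0
  obtain ⟨C₁, hC₁, h1⟩ := kern_small (cutS φ hφ) η ‖h‖ (norm_nonneg h) L M
  obtain ⟨C₂, hC₂, h2⟩ := kern_small θ η ‖h‖ (norm_nonneg h) L M
  refine ⟨max C₁ C₂, by positivity, fun q j hjq x => ?_⟩
  have hl1 : lam q j ≤ 1 := by
    unfold lam
    exact (div_le_one (by positivity)).2 (pow_le_pow_right₀ (by norm_num) hjq)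
  rcases j with _ | j
  · have h3 : (fun ξ : E n => ((lpCutoff φ 0 ((2 : ℝ) ^ q • ξ) : ℝ) : ℂ)) =
        fun ξ => cutS φ hφ ((lam q 0)⁻¹ • ξ) := by
      ext ξ
      simp [lpCutoff, lam]
    rw [h3]
    refine (h1 _ (lam_pos q 0) hl1 h le_rfl x).trans ?_
    have hlp := (lam_pos q 0).le
    gcongr
    exact le_max_left _ _
  · have h3 : (fun ξ : E n => ((lpCutoff φ (j + 1) ((2 : ℝ) ^ q • ξ) : ℝ) : ℂ)) =
        fun ξ => θ ((lam q (j + 1))⁻¹ • ξ) := by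
      ext ξ
      have := hθ ((lam q (j + 1))⁻¹ • ξ)
      rw [pow_zero, Complex.ofReal_one, mul_one] at this
      rw [this, lpCutoff_scale]
    rw [h3]
    refine (h2 _ (lam_pos q (j + 1)) hl1 h le_rfl x).trans ?_
    have hlp := (lam_pos q (j + 1)).le
    gcongr
    exact le_max_right _ _

lemma piece_high' (φ : E n → ℝ) (hφ : IsCutoff φ) (N M : ℕ) (g : 𝓢(E n, ℂ)) :
    ∃ C : ℝ, 0 ≤ C ∧ ∀ q j : ℕ, q < j → ∀ x : E n,
      ‖fm (fun ξ => ((lpCutoff φ j ((2 : ℝ) ^ q • ξ) : ℝ) : ℂ)) g x‖ ≤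
        C * ((lam q j ^ 2) ^ N)⁻¹ * ((1 + ‖x‖) ^ M)⁻¹ := by
  obtain ⟨C, hC, h1⟩ := piece_high φ hφ N M g
  refine ⟨C, hC, fun q j hjq x => ?_⟩
  obtain ⟨j, rfl⟩ : ∃ i, j = i + 1 := ⟨j - 1, by omega⟩
  have hl1 : 1 ≤ lam q (j + 1) := by
    unfold lam
    exact (one_le_div (by positivity)).2 (pow_le_pow_right₀ (by norm_num) hjq.le)
  have h3 : (fun ξ : E n => ((lpCutoff φ (j + 1) ((2 : ℝ) ^ q • ξ) : ℝ) : ℂ)) =
      fun ξ => ((φ ((lam q (j + 1))⁻¹ • ξ) - φ ((2 : ℝ) • (lam q (j + 1))⁻¹ • ξ) : ℝ) : ℂ) := by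
    ext ξ
    rw [lpCutoff_scale]
  rw [h3]
  exact h1 _ hl1 x

end Pool.Agent.Helper41K9.BH
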