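import Mathlib
import Pool.Agent.Helper41K9.BH.BesAtom

set_option autoImplicit false

open MeasureTheory SchwartzMap FourierTransform
open scoped ENNReal SchwartzMap ContDiff

noncomputable section

namespace Pool.Agent.Helper41K9.BH

variable {n : ℕ}

lemma temperate_lp (φ : E n → ℝ) (hφ : IsCutoff φ) (j : ℕ) :
    (fun ξ : E n => ((lpCutoff φ j ξ : ℝ) : ℂ)).HasTemperateGrowth := by
  cases j with
  | zero => exact (cutS φ hφ).hasTemperateGrowth
  | succ j =>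
    have h1 := temperate_scale (cutS φ hφ) ((2 : ℝ) ^ (j + 1))⁻¹
    have h2 := temperate_scale (cutS φ hφ) ((2 : ℝ) ^ j)⁻¹
    convert h1.sub h2 using 1
    ext ξ
    simp [lpCutoff]

lemma half_pow (k : ℕ) : ENNReal.ofReal (((2 : ℝ) ^ k)⁻¹) = (2⁻¹ : ℝ≥0∞) ^ k := by
  rw [ENNReal.ofReal_inv_of_pos (by positivity), ENNReal.ofReal_pow (by norm_num),
    ENNReal.inv_pow]
  simp

lemma lam_low (q j : ℕ) (h : j ≤ q) :
    ENNReal.ofReal (lam q j) = (2⁻¹ : ℝ≥0∞) ^ ((j - q) + (q - j)) := by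
  have h1 : lam q j = ((2 : ℝ) ^ ((j - q) + (q - j)))⁻¹ := by
    unfold lam
    rw [Nat.sub_eq_zero_of_le h, zero_add]
    rw [div_eq_iff (by positivity), eq_comm, inv_mul_eq_iff_eq_mul₀ (by positivity), ← pow_add]
    congr 1
    omega
  rw [h1, half_pow]

lemma lam_high (q j : ℕ) (h : q ≤ j) :
    ENNReal.ofReal ((lam q j)⁻¹) = (2⁻¹ : ℝ≥0∞) ^ ((j - q) + (q - j)) := by
  have h1 : (lam q j)⁻¹ = ((2 : ℝ) ^ ((j - q) + (q - j)))⁻¹ := by
    unfold lam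
    rw [Nat.sub_eq_zero_of_le h, add_zero, inv_inj]
    rw [div_eq_iff (by positivity), ← pow_add]
    congr 1
    omega
  rw [h1, half_pow]

lemma two_rpow (α p : ℝ) (q j : ℕ) :
    (2 : ℝ) ^ ((j : ℝ) * α * p) = ((2 : ℝ) ^ q) ^ (α * p) * lam q j ^ (α * p) := by
  have h1 : (2 : ℝ) ^ ((j : ℝ) * α * p) = ((2 : ℝ) ^ j) ^ (α * p) := by
    rw [← Real.rpow_natCast, ← Real.rpow_mul (by norm_num), mul_assoc]
  rw [h1, ← Real.mul_rpow (by positivity) (lam_pos _ _).le]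
  congr 1
  unfold lam
  field_simp

lemma besov_dil (φ : E n → ℝ) (hφ : IsCutoff φ) (α p : ℝ) (hα : 0 < α) (hp : 0 < p) (L : ℕ)
    (hL : (n + 1 : ℝ) ≤ L * p) (h : E n) (η : 𝓢(E n, ℂ)) :
    ∃ C : ℝ≥0∞, C ≠ ⊤ ∧ ∀ (q : ℕ) (hq : (2 : ℝ) ^ q ≠ 0) (b : E n),
      besov φ α p (dil ((2 : ℝ) ^ q) hq b ((DS h)^[L] η)) ≤
        C * ENNReal.ofReal (((2 : ℝ) ^ q) ^ (α * p - n)) := by
  set N : ℕ := ⌈(1 + α * p) / (2 * p)⌉₊ with hN
  have hN1 : 1 + α * p ≤ 2 * N * p := by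
    have := Nat.le_ceil ((1 + α * p) / (2 * p))
    rw [div_le_iff₀ (by positivity)] at this
    linarith
  obtain ⟨C₁, hC₁, h1⟩ := piece_low φ hφ L L h η
  obtain ⟨C₂, hC₂, h2⟩ := piece_high' φ hφ N L ((DS h)^[L] η)
  set C := max C₁ C₂ with hC
  have hC0 : 0 ≤ C := by positivity
  set K := ENNReal.ofReal (C ^ p) * ENNReal.ofReal (JJ n) with hK
  have hKt : K ≠ ⊤ := ENNReal.mul_ne_top ENNReal.ofReal_ne_top ENNReal.ofReal_ne_top
  refine ⟨K * 3, ENNReal.mul_ne_top hKt (by norm_num), fun q hq b => ?_⟩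
  have hq0 : (0 : ℝ) < (2 : ℝ) ^ q := by positivity
  have hmain : ∀ j : ℕ, ENNReal.ofReal ((2 : ℝ) ^ ((j : ℝ) * α * p)) *
      ∫⁻ x, ‖fm (fun ξ => ((lpCutoff φ j ((2 : ℝ) ^ q • ξ) : ℝ) : ℂ)) ((DS h)^[L] η) x‖ₑ ^ p ≤
        ENNReal.ofReal (((2 : ℝ) ^ q) ^ (α * p)) * K * (2⁻¹ : ℝ≥0∞) ^ ((j - q) + (q - j)) := by
    intro j
    have hl := lam_pos q j
    rw [two_rpow α p q j]
    rcases le_or_gt j q with hjq | hjq
    · have h3 := lp_decay p hp L hL (C * lam q j ^ (n + L)) (lam q j)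
        (mul_nonneg hC0 (pow_nonneg hl.le _)) hl
        (fun x => ‖fm (fun ξ => ((lpCutoff φ j ((2 : ℝ) ^ q • ξ) : ℝ) : ℂ)) ((DS h)^[L] η) x‖ₑ)
        (fun x => by
          rw [← ofReal_norm]
          apply ENNReal.ofReal_le_ofReal
          refine (h1 q j hjq x).trans ?_
          gcongr
          exact le_max_left _ _)
      have hl1 : lam q j ≤ 1 := by
        unfold lam
        exact (div_le_one (by positivity)).2 (pow_le_pow_right₀ (by norm_num) hjq)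
      have h4 : lam q j ^ (α * p) * ((C * lam q j ^ (n + L)) ^ p * (lam q j ^ n)⁻¹) ≤
          C ^ p * lam q j := by
        rw [Real.mul_rpow hC0 (by positivity)]
        have h5 : lam q j ^ (α * p) * (lam q j ^ (n + L)) ^ p * (lam q j ^ n)⁻¹ ≤ lam q j := by
          rw [← Real.rpow_natCast, ← Real.rpow_natCast, ← Real.rpow_mul hl.le, ← Real.rpow_add hl,
            ← Real.rpow_neg hl.le, ← Real.rpow_add hl]
          calc lam q j ^ (α * p + ((n + L : ℕ) : ℝ) * p + -(n : ℝ)) ≤ lam q j ^ (1 : ℝ) := by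
                apply Real.rpow_le_rpow_of_exponent_ge hl hl1
                push_cast
                nlinarith [mul_pos hα hp, mul_nonneg (Nat.cast_nonneg (α := ℝ) n) hp.le]
            _ = _ := Real.rpow_one _
        calc _ = C ^ p * (lam q j ^ (α * p) * (lam q j ^ (n + L)) ^ p * (lam q j ^ n)⁻¹) := by ring
          _ ≤ _ := by gcongr
      calc _ ≤ ENNReal.ofReal (((2 : ℝ) ^ q) ^ (α * p) * lam q j ^ (α * p)) *
            (ENNReal.ofReal ((C * lam q j ^ (n + L)) ^ p * (lam q j ^ n)⁻¹) *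
              ENNReal.ofReal (JJ n)) := by gcongr
        _ = ENNReal.ofReal (((2 : ℝ) ^ q) ^ (α * p)) * ENNReal.ofReal (lam q j ^ (α * p) *
            ((C * lam q j ^ (n + L)) ^ p * (lam q j ^ n)⁻¹)) * ENNReal.ofReal (JJ n) := by
          rw [ENNReal.ofReal_mul (by positivity), ENNReal.ofReal_mul (p := lam q j ^ (α * p))
            (by positivity)]
          ring
        _ ≤ ENNReal.ofReal (((2 : ℝ) ^ q) ^ (α * p)) * ENNReal.ofReal (C ^ p * lam q j) *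
            ENNReal.ofReal (JJ n) := by gcongr
        _ = _ := by
          rw [ENNReal.ofReal_mul (by positivity), lam_low q j hjq, hK]
          ring
    · have h3 := lp_decay p hp L hL (C * ((lam q j ^ 2) ^ N)⁻¹) 1
        (by positivity) one_pos
        (fun x => ‖fm (fun ξ => ((lpCutoff φ j ((2 : ℝ) ^ q • ξ) : ℝ) : ℂ)) ((DS h)^[L] η) x‖ₑ)
        (fun x => by
          rw [← ofReal_norm]
          apply ENNReal.ofReal_le_ofReal
          refine (h2 q j hjq x).trans ?_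
          rw [one_mul]
          gcongr
          exact le_max_right _ _)
      have hl1 : 1 ≤ lam q j := by
        unfold lam
        exact (one_le_div (by positivity)).2 (pow_le_pow_right₀ (by norm_num) hjq.le)
      have h4 : lam q j ^ (α * p) * ((C * ((lam q j ^ 2) ^ N)⁻¹) ^ p * ((1 : ℝ) ^ n)⁻¹) ≤
          C ^ p * (lam q j)⁻¹ := by
        rw [Real.mul_rpow hC0 (by positivity), one_pow, inv_one, mul_one,
          Real.inv_rpow (by positivity)]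
        have h5 : lam q j ^ (α * p) * (((lam q j ^ 2) ^ N) ^ p)⁻¹ ≤ (lam q j)⁻¹ := by
          rw [← pow_mul, ← Real.rpow_natCast, ← Real.rpow_mul hl.le,
            ← Real.rpow_neg hl.le, ← Real.rpow_add hl]
          calc lam q j ^ (α * p + -(((2 * N : ℕ) : ℝ) * p)) ≤ lam q j ^ (-1 : ℝ) := by
                apply Real.rpow_le_rpow_of_exponent_le hl1
                push_cast
                linarith
            _ = _ := Real.rpow_neg_one _
        calc _ = C ^ p * (lam q j ^ (α * p) * (((lam q j ^ 2) ^ N) ^ p)⁻¹) := by ring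
          _ ≤ _ := by gcongr
      calc _ ≤ ENNReal.ofReal (((2 : ℝ) ^ q) ^ (α * p) * lam q j ^ (α * p)) *
            (ENNReal.ofReal ((C * ((lam q j ^ 2) ^ N)⁻¹) ^ p * ((1 : ℝ) ^ n)⁻¹) *
              ENNReal.ofReal (JJ n)) := by gcongr
        _ = ENNReal.ofReal (((2 : ℝ) ^ q) ^ (α * p)) * ENNReal.ofReal (lam q j ^ (α * p) *
            ((C * ((lam q j ^ 2) ^ N)⁻¹) ^ p * ((1 : ℝ) ^ n)⁻¹)) * ENNReal.ofReal (JJ n) := by
          rw [ENNReal.ofReal_mul (by positivity), ENNReal.ofReal_mul (p := lam q j ^ (α * p))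
            (by positivity)]
          ring
        _ ≤ ENNReal.ofReal (((2 : ℝ) ^ q) ^ (α * p)) * ENNReal.ofReal (C ^ p * (lam q j)⁻¹) *
            ENNReal.ofReal (JJ n) := by gcongr
        _ = _ := by
          rw [ENNReal.ofReal_mul (by positivity), lam_high q j hjq.le, hK]
          ring
  have hterm : ∀ j : ℕ, ENNReal.ofReal ((2 : ℝ) ^ ((j : ℝ) * α * p)) *
      ∫⁻ x, ‖lpPiece φ j (dil ((2 : ℝ) ^ q) hq b ((DS h)^[L] η)) x‖ₑ ^ p ≤
        ENNReal.ofReal (((2 : ℝ) ^ q) ^ (α * p - n)) * K *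
          (2⁻¹ : ℝ≥0∞) ^ ((j - q) + (q - j)) := by
    intro j
    have h5 : ∀ x, lpPiece φ j (dil ((2 : ℝ) ^ q) hq b ((DS h)^[L] η)) x =
        fm (fun ξ => ((lpCutoff φ j ((2 : ℝ) ^ q • ξ) : ℝ) : ℂ)) ((DS h)^[L] η)
          ((2 : ℝ) ^ q • x - b) := fun x =>
      fm_dil (temperate_lp φ hφ j) ((2 : ℝ) ^ q) hq0 b ((DS h)^[L] η) x
    simp_rw [h5]
    rw [lintegral_affine (fun y => ‖fm (fun ξ => ((lpCutoff φ j ((2 : ℝ) ^ q • ξ) : ℝ) : ℂ))
      ((DS h)^[L] η) y‖ₑ ^ p) _ hq0 b]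
    have h6 : ENNReal.ofReal (((2 : ℝ) ^ q) ^ (α * p - n)) =
        ENNReal.ofReal ((((2 : ℝ) ^ q) ^ n)⁻¹) * ENNReal.ofReal (((2 : ℝ) ^ q) ^ (α * p)) := by
      rw [← ENNReal.ofReal_mul (by positivity), Real.rpow_sub hq0, Real.rpow_natCast]
      congr 1
      ring
    rw [h6]
    calc _ = ENNReal.ofReal ((((2 : ℝ) ^ q) ^ n)⁻¹) *
          (ENNReal.ofReal ((2 : ℝ) ^ ((j : ℝ) * α * p)) * ∫⁻ x, ‖fm (fun ξ =>
            ((lpCutoff φ j ((2 : ℝ) ^ q • ξ) : ℝ) : ℂ)) ((DS h)^[L] η) x‖ₑ ^ p) := by ring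
      _ ≤ ENNReal.ofReal ((((2 : ℝ) ^ q) ^ n)⁻¹) * (ENNReal.ofReal (((2 : ℝ) ^ q) ^ (α * p)) * K *
          (2⁻¹ : ℝ≥0∞) ^ ((j - q) + (q - j))) := mul_le_mul' le_rfl (hmain j)
      _ = _ := by ring
  calc besov φ α p (dil ((2 : ℝ) ^ q) hq b ((DS h)^[L] η))
      ≤ ∑' j : ℕ, ENNReal.ofReal (((2 : ℝ) ^ q) ^ (α * p - n)) * K *
          (2⁻¹ : ℝ≥0∞) ^ ((j - q) + (q - j)) := ENNReal.tsum_le_tsum hterm
    _ = ENNReal.ofReal (((2 : ℝ) ^ q) ^ (α * p - n)) * K *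
          ∑' j : ℕ, (2⁻¹ : ℝ≥0∞) ^ ((j - q) + (q - j)) := ENNReal.tsum_mul_left
    _ ≤ ENNReal.ofReal (((2 : ℝ) ^ q) ^ (α * p - n)) * K * 3 := by
        gcongr; exact tsum_two_sided q
    _ = _ := by ring

end Pool.Agent.Helper41K9.BH
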