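import Mathlib
import Pool.Agent.Helper41K9.BH.Comb
import Pool.Agent.Helper41K9.BH.Lp

set_option autoImplicit false

open MeasureTheory SchwartzMap FourierTransform
open scoped ENNReal SchwartzMap ContDiff

noncomputable section

namespace Pool.Agent.Helper41K9.BH

variable {n : ℕ}

lemma params (α p : ℝ) (hα : 0 < α) (hp : 0 < p) (hαp : α * p < n) (L : ℕ) :
    ∃ V M : ℕ, 0 < V ∧ 2 * (2 + 3 * L * V) ≤ 2 ^ M ∧
      4 * ((2 : ℝ) ^ L / (V : ℝ) ^ n) ≤ ((2 : ℝ) ^ M) ^ (α * p - n) := by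
  set D : ℝ := 8 + 12 * L with hD
  have hD1 : 1 ≤ D := by rw [hD]; have : (0 : ℝ) ≤ L := by positivity
                         linarith
  have ht := ((tendsto_rpow_atTop (mul_pos hα hp)).comp tendsto_natCast_atTop_atTop)
  obtain ⟨V, hV1, hV2⟩ := ((ht.eventually_ge_atTop (4 * 2 ^ L * D ^ n)).and
    (Filter.eventually_ge_atTop 1)).exists
  simp only [Function.comp] at hV1
  have hV0 : (1 : ℝ) ≤ V := by exact_mod_cast hV2
  have hVpos : (0 : ℝ) < V := by linarith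
  obtain ⟨M, hM1, hM2⟩ := exists_nat_pow_near (x := 2 * (2 + 3 * L * V)) (y := 2)
    (by omega) (by norm_num)
  refine ⟨V, M + 1, by omega, hM2.le, ?_⟩
  have hM3 : (2 : ℝ) ^ (M + 1) ≤ D * V := by
    have h1 : (2 : ℝ) ^ M ≤ 2 * (2 + 3 * L * V) := by exact_mod_cast hM1
    rw [pow_succ, hD]
    nlinarith
  have hM0 : (0 : ℝ) < (2 : ℝ) ^ (M + 1) := by positivity
  have h2 : (D * V) ^ (α * p - n) ≤ ((2 : ℝ) ^ (M + 1)) ^ (α * p - n) :=
    Real.rpow_le_rpow_of_nonpos hM0 hM3 (by linarith)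
  refine le_trans ?_ h2
  rw [Real.mul_rpow (by positivity) hVpos.le]
  have h3 : (D ^ n)⁻¹ ≤ D ^ (α * p - n) := by
    rw [← Real.rpow_natCast, ← Real.rpow_neg (by positivity)]
    apply Real.rpow_le_rpow_of_exponent_le hD1
    have := mul_pos hα hp
    linarith
  have h4 : (V : ℝ) ^ (α * p - n) = (V : ℝ) ^ (α * p) / (V : ℝ) ^ n := by
    rw [Real.rpow_sub hVpos, Real.rpow_natCast]
  calc 4 * ((2 : ℝ) ^ L / (V : ℝ) ^ n) = (D ^ n)⁻¹ * ((4 * 2 ^ L * D ^ n) / (V : ℝ) ^ n) := by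
        field_simp
    _ ≤ (D ^ n)⁻¹ * ((V : ℝ) ^ (α * p) / (V : ℝ) ^ n) := by gcongr
    _ ≤ D ^ (α * p - n) * ((V : ℝ) ^ (α * p) / (V : ℝ) ^ n) := by gcongr
    _ = _ := by rw [h4]

/-- Cubes. -/
def Q (B k : ℕ) (m : Idx n) : Set (E n) := {x | idx B k x = m}

lemma measurable_idx (B k : ℕ) : Measurable (idx B k : E n → Idx n) := by
  refine measurable_pi_iff.2 fun i => ?_
  unfold idx
  refine Int.measurable_floor.comp ?_
  have : Continuous fun x : E n => (B : ℝ) ^ k * x i := by fun_prop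
  exact this.measurable

lemma measurableSet_Q (B k : ℕ) (m : Idx n) : MeasurableSet (Q B k m : Set (E n)) :=
  measurable_idx B k (measurableSet_singleton m)

lemma tsum_lintegral_Q (B k : ℕ) (f : E n → ℝ≥0∞) :
    ∑' m, ∫⁻ x in Q B k m, f x = ∫⁻ x, f x := by
  rw [← lintegral_iUnion (fun m => measurableSet_Q B k m)]
  · have : (⋃ m, Q B k m : Set (E n)) = Set.univ := by
      ext x
      simp [Q]
    rw [this, Measure.restrict_univ]
  · intro a b hab
    simp only [Function.onFun]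
    rw [Set.disjoint_left]
    intro x hx hx'
    exact hab (hx.symm.trans hx')

lemma volume_Q {B : ℕ} (hB : 0 < B) (k : ℕ) (m : Idx n) :
    volume (Q B k m : Set (E n)) = ENNReal.ofReal ((((B : ℝ) ^ k) ^ n)⁻¹) := by
  have hBk : (0 : ℝ) < (B : ℝ) ^ k := by positivity
  have h1 : (Q B k m : Set (E n)) = (WithLp.ofLp : E n → (Fin n → ℝ)) ⁻¹'
      (Set.univ.pi fun i => Set.Ico ((m i : ℝ) / (B : ℝ) ^ k) (((m i : ℝ) + 1) / (B : ℝ) ^ k)) := by
    ext x
    simp only [Q, Set.mem_ofPred_eq, Set.mem_preimage, Set.mem_pi, Set.mem_univ, true_implies,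
      Set.mem_Ico]
    rw [funext_iff]
    refine forall_congr' fun i => ?_
    unfold idx
    rw [Int.floor_eq_iff, div_le_iff₀ hBk, lt_div_iff₀ hBk, mul_comm (x.ofLp i)]
  rw [h1, (PiLp.volume_preserving_ofLp (Fin n)).measure_preimage
    (MeasurableSet.univ_pi fun i => measurableSet_Ico).nullMeasurableSet, Real.volume_pi_Ico]
  have h2 : ∀ i : Fin n, ENNReal.ofReal (((m i : ℝ) + 1) / (B : ℝ) ^ k - (m i : ℝ) / (B : ℝ) ^ k) =
      ENNReal.ofReal (((B : ℝ) ^ k)⁻¹) := by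
    intro i
    congr 1
    ring
  simp_rw [h2]
  rw [Finset.prod_const, Finset.card_univ, Fintype.card_fin, ← ENNReal.ofReal_pow (by positivity),
    inv_pow]

lemma dist_le_Q {B : ℕ} (hB : 0 < B) (k : ℕ) (m : Idx n) {x y : E n} (hx : x ∈ Q B k m)
    (hy : y ∈ Q B k m) : dist x y ≤ Real.sqrt n * ((B : ℝ) ^ k)⁻¹ := by
  have hBk : (0 : ℝ) < (B : ℝ) ^ k := by positivity
  rw [EuclideanSpace.dist_eq]
  have h1 : ∀ i : Fin n, dist (x i) (y i) ^ 2 ≤ (((B : ℝ) ^ k)⁻¹) ^ 2 := by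
    intro i
    have e1 := congrFun hx i
    have e2 := congrFun hy i
    unfold idx at e1 e2
    rw [Int.floor_eq_iff] at e1 e2
    rw [Real.dist_eq]
    have h3 : |x i - y i| ≤ ((B : ℝ) ^ k)⁻¹ := by
      rw [← one_div, le_div_iff₀ hBk, ← abs_of_pos hBk, ← abs_mul, abs_le]
      constructor <;> nlinarith [e1.1, e1.2, e2.1, e2.2]
    gcongr
  calc Real.sqrt (∑ i : Fin n, dist (x i) (y i) ^ 2) ≤
      Real.sqrt (∑ _i : Fin n, (((B : ℝ) ^ k)⁻¹) ^ 2) :=
        Real.sqrt_le_sqrt (Finset.sum_le_sum fun i _ => h1 i)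
    _ = _ := by
      rw [Finset.sum_const, Finset.card_univ, Fintype.card_fin, nsmul_eq_mul,
        Real.sqrt_mul (by positivity), Real.sqrt_sq (by positivity)]

end Pool.Agent.Helper41K9.BH
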