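import Mathlib
import Pool.Agent.Helper41K9.BH.Cubes

set_option autoImplicit false

open MeasureTheory SchwartzMap FourierTransform
open scoped ENNReal SchwartzMap ContDiff

noncomputable section

namespace Pool.Agent.Helper41K9.BH

variable {n : ℕ}

/-- The Peetre maximal function. -/
def peetre (L : ℕ) (G : E n → ℂ) (x : E n) : ℝ≥0∞ :=
  ⨆ y : E n, ‖G y‖ₑ * ENNReal.ofReal (((1 + ‖x - y‖) ^ L)⁻¹)

/-- The Peetre maximal function is controlled by an integral. -/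
lemma peetre_le (p : ℝ) (hp : 0 < p) (hp1 : p ≤ 1) (L : ℕ) (X G : E n → ℂ) (CX : ℝ) (hCX : 0 ≤ CX) (hXd : ∀ t, ‖X t‖ ≤ CX * ((1 + ‖t‖) ^ L)⁻¹) (CG : ℝ)
    (hGb : ∀ y, ‖G y‖ ≤ CG) (hrep : ∀ y, G y = ∫ t, X t * G (y - t)) (x : E n) :
    peetre L G x ^ p ≤ ENNReal.ofReal CX *
      ∫⁻ z, (‖G z‖ₑ * ENNReal.ofReal (((1 + ‖x - z‖) ^ L)⁻¹)) ^ p := by
  set A := peetre L G x with hA
  set I := ∫⁻ z, (‖G z‖ₑ * ENNReal.ofReal (((1 + ‖x - z‖) ^ L)⁻¹)) ^ p with hI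
  have hAt : A ≠ ⊤ := by
    refine ne_top_of_le_ne_top (ENNReal.ofReal_ne_top (r := CG)) (iSup_le fun y => ?_)
    rw [← ofReal_norm, ← ENNReal.ofReal_mul (norm_nonneg _)]
    apply ENNReal.ofReal_le_ofReal
    refine (mul_le_of_le_one_right (norm_nonneg _) (inv_le_one_of_one_le₀ ?_)).trans (hGb y)
    exact one_le_pow₀ (by linarith [norm_nonneg (x - y)])
  rcases eq_or_ne A 0 with h0 | h0
  · rw [h0, ENNReal.zero_rpow_of_pos hp]
    exact bot_le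
  have key : A ≤ ENNReal.ofReal CX * (A ^ (1 - p) * I) := by
    conv_lhs => rw [hA]
    refine iSup_le fun y => ?_
    have h1 : ‖G y‖ₑ ≤ ∫⁻ z, ‖X (y - z)‖ₑ * ‖G z‖ₑ := by
      rw [hrep y]
      refine (enorm_integral_le_lintegral_enorm _).trans (le_of_eq ?_)
      have h2 := lintegral_sub_left_eq_self (μ := (volume : Measure (E n)))
        (fun t => ‖X t * G (y - t)‖ₑ) y
      rw [← h2]
      congr 1
      ext z
      rw [sub_sub_cancel, enorm_mul]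
    have h3 : ∀ z, ‖X (y - z)‖ₑ * ‖G z‖ₑ * ENNReal.ofReal (((1 + ‖x - y‖) ^ L)⁻¹) ≤
        ENNReal.ofReal CX * (A ^ (1 - p) *
          (‖G z‖ₑ * ENNReal.ofReal (((1 + ‖x - z‖) ^ L)⁻¹)) ^ p) := by
      intro z
      set b := ‖G z‖ₑ * ENNReal.ofReal (((1 + ‖x - z‖) ^ L)⁻¹) with hb
      have hbA : b ≤ A := le_iSup (fun y : E n =>
        ‖G y‖ₑ * ENNReal.ofReal (((1 + ‖x - y‖) ^ L)⁻¹)) z
      have h4 : b ≤ A ^ (1 - p) * b ^ p := by
        have h5 : b = b ^ (1 - p) * b ^ p := by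
          rw [← ENNReal.rpow_add_of_nonneg _ _ (by linarith) hp.le]
          simp
        calc b = b ^ (1 - p) * b ^ p := h5
          _ ≤ A ^ (1 - p) * b ^ p := by
            gcongr
      have h6 : ‖X (y - z)‖ₑ * ENNReal.ofReal (((1 + ‖x - y‖) ^ L)⁻¹) ≤
          ENNReal.ofReal CX * ENNReal.ofReal (((1 + ‖x - z‖) ^ L)⁻¹) := by
        rw [← ofReal_norm, ← ENNReal.ofReal_mul (norm_nonneg _), ← ENNReal.ofReal_mul hCX]
        apply ENNReal.ofReal_le_ofReal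
        calc ‖X (y - z)‖ * ((1 + ‖x - y‖) ^ L)⁻¹
            ≤ (CX * ((1 + ‖y - z‖) ^ L)⁻¹) * ((1 + ‖x - y‖) ^ L)⁻¹ := by
              gcongr
              exact hXd _
          _ = CX * ((1 + ‖x - y‖) ^ L * (1 + ‖y - z‖) ^ L)⁻¹ := by rw [mul_inv]; ring
          _ ≤ CX * ((1 + ‖x - z‖) ^ L)⁻¹ := by
              have h7 : (1 + ‖x - z‖) ^ L ≤ (1 + ‖x - y‖) ^ L * (1 + ‖y - z‖) ^ L := by
                rw [← mul_pow]
                refine pow_le_pow_left₀ (by positivity) ?_ _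
                have := one_add_le (x - z) (x - y)
                rwa [show x - z - (x - y) = y - z by abel] at this
              have h8 : 0 < (1 + ‖x - z‖) ^ L := by positivity
              gcongr
      calc ‖X (y - z)‖ₑ * ‖G z‖ₑ * ENNReal.ofReal (((1 + ‖x - y‖) ^ L)⁻¹)
          = ‖X (y - z)‖ₑ * ENNReal.ofReal (((1 + ‖x - y‖) ^ L)⁻¹) * ‖G z‖ₑ := by ring
        _ ≤ ENNReal.ofReal CX * ENNReal.ofReal (((1 + ‖x - z‖) ^ L)⁻¹) * ‖G z‖ₑ := by gcongr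
        _ = ENNReal.ofReal CX * b := by rw [hb]; ring
        _ ≤ _ := by gcongr
    calc ‖G y‖ₑ * ENNReal.ofReal (((1 + ‖x - y‖) ^ L)⁻¹)
        ≤ (∫⁻ z, ‖X (y - z)‖ₑ * ‖G z‖ₑ) * ENNReal.ofReal (((1 + ‖x - y‖) ^ L)⁻¹) := by gcongr
      _ = ∫⁻ z, ‖X (y - z)‖ₑ * ‖G z‖ₑ * ENNReal.ofReal (((1 + ‖x - y‖) ^ L)⁻¹) := by
          rw [lintegral_mul_const' _ _ ENNReal.ofReal_ne_top]
      _ ≤ ∫⁻ z, ENNReal.ofReal CX * (A ^ (1 - p) *
          (‖G z‖ₑ * ENNReal.ofReal (((1 + ‖x - z‖) ^ L)⁻¹)) ^ p) := lintegral_mono h3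
      _ = _ := by
          rw [lintegral_const_mul' _ _ ENNReal.ofReal_ne_top, lintegral_const_mul' _ _
            (ENNReal.rpow_ne_top_of_nonneg (by linarith) hAt)]
  have h9 : A ^ (1 - p) ≠ 0 := by
    rw [Ne, ENNReal.rpow_eq_zero_iff]
    rintro (⟨h, _⟩ | ⟨h, _⟩)
    · exact h0 h
    · exact hAt h
  have h10 : A ^ (1 - p) ≠ ⊤ := ENNReal.rpow_ne_top_of_nonneg (by linarith) hAt
  have h11 : A ^ p * A ^ (1 - p) = A := by
    rw [← ENNReal.rpow_add _ _ h0 hAt]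
    simp
  have h12 : A ^ p * A ^ (1 - p) ≤ ENNReal.ofReal CX * I * A ^ (1 - p) := by
    rw [h11]
    refine key.trans (le_of_eq ?_)
    ring
  exact (ENNReal.mul_le_mul_iff_left h9 h10).1 h12

/-- Plancherel-Polya inequality for a reproduced function. -/
lemma plancherel_polya (B : ℕ) (hB : 0 < B) (p : ℝ) (hp : 0 < p) (hp1 : p ≤ 1) (L : ℕ)
    (hL : (n + 1 : ℝ) ≤ L * p) (X G : E n → ℂ) (hG : Continuous G) (CX : ℝ) (hCX : 0 ≤ CX)
    (hXd : ∀ t, ‖X t‖ ≤ CX * ((1 + ‖t‖) ^ L)⁻¹) (CG : ℝ)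
    (hGb : ∀ y, ‖G y‖ ≤ CG) (hrep : ∀ y, G y = ∫ t, X t * G (y - t)) :
    ∑' m, (⨆ x ∈ Q B 0 m, ‖G x‖ₑ ^ p) ≤
      ENNReal.ofReal ((1 + Real.sqrt n) ^ L) ^ p * (ENNReal.ofReal CX * ENNReal.ofReal (JJ n)) *
        ∫⁻ x, ‖G x‖ₑ ^ p := by
  have h1 : ∀ m : Idx n, (⨆ x ∈ Q B 0 m, ‖G x‖ₑ ^ p) ≤
      ∫⁻ x in Q B 0 m, (ENNReal.ofReal ((1 + Real.sqrt n) ^ L) * peetre L G x) ^ p := by
    intro m
    refine iSup₂_le fun y hy => ?_
    have hvol : volume (Q B 0 m : Set (E n)) = 1 := by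
      rw [volume_Q hB]
      simp
    calc ‖G y‖ₑ ^ p = ∫⁻ _x in Q B 0 m, ‖G y‖ₑ ^ p := by
          rw [setLIntegral_const, hvol, mul_one]
      _ ≤ _ := by
          refine setLIntegral_mono' (measurableSet_Q B 0 m) fun x hx => ?_
          gcongr
          have h2 : dist x y ≤ Real.sqrt n := by
            have := dist_le_Q hB 0 m hx hy
            simpa using this
          rw [dist_eq_norm] at h2
          have h3 : ‖G y‖ₑ * ENNReal.ofReal (((1 + ‖x - y‖) ^ L)⁻¹) ≤ peetre L G x :=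
            le_iSup (fun y : E n => ‖G y‖ₑ * ENNReal.ofReal (((1 + ‖x - y‖) ^ L)⁻¹)) y
          calc ‖G y‖ₑ = ‖G y‖ₑ * 1 := (mul_one _).symm
            _ ≤ ‖G y‖ₑ * (ENNReal.ofReal ((1 + Real.sqrt n) ^ L) *
                ENNReal.ofReal (((1 + ‖x - y‖) ^ L)⁻¹)) := by
                gcongr
                rw [← ENNReal.ofReal_mul (by positivity), ENNReal.one_le_ofReal]
                have h4 : (1 + ‖x - y‖) ^ L ≤ (1 + Real.sqrt n) ^ L :=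
                  pow_le_pow_left₀ (by positivity) (by linarith) _
                have h5 : 0 < (1 + ‖x - y‖) ^ L := by positivity
                rw [← div_eq_mul_inv, one_le_div h5]
                exact h4
            _ = ENNReal.ofReal ((1 + Real.sqrt n) ^ L) *
                (‖G y‖ₑ * ENNReal.ofReal (((1 + ‖x - y‖) ^ L)⁻¹)) := by ring
            _ ≤ _ := by gcongr
  have h6 : ∀ z : E n, ∫⁻ x : E n, ENNReal.ofReal (((1 + ‖x - z‖) ^ L)⁻¹) ^ p ≤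
      ENNReal.ofReal (JJ n) := by
    intro z
    rw [lintegral_sub_right_eq_self (fun y : E n => ENNReal.ofReal (((1 + ‖y‖) ^ L)⁻¹) ^ p) z]
    have := lp_decay p hp L hL 1 1 zero_le_one one_pos
      (fun y : E n => ENNReal.ofReal (((1 + ‖y‖) ^ L)⁻¹)) (fun y => by rw [one_mul, one_mul])
    simpa using this
  have hmeas : Measurable (Function.uncurry fun x z : E n =>
      (‖G z‖ₑ * ENNReal.ofReal (((1 + ‖x - z‖) ^ L)⁻¹)) ^ p) := by
    have m1 : Measurable fun w : E n × E n => ‖G w.2‖ₑ :=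
      (hG.comp continuous_snd).measurable.enorm
    have m2 : Measurable fun w : E n × E n => ((1 + ‖w.1 - w.2‖) ^ L)⁻¹ := by
      have : Continuous fun w : E n × E n => (1 + ‖w.1 - w.2‖) ^ L := by fun_prop
      exact this.measurable.inv
    exact (m1.mul m2.ennreal_ofReal).pow_const p
  calc ∑' m, (⨆ x ∈ Q B 0 m, ‖G x‖ₑ ^ p)
      ≤ ∑' m, ∫⁻ x in Q B 0 m, (ENNReal.ofReal ((1 + Real.sqrt n) ^ L) * peetre L G x) ^ p :=
        ENNReal.tsum_le_tsum h1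
    _ = ∫⁻ x, (ENNReal.ofReal ((1 + Real.sqrt n) ^ L) * peetre L G x) ^ p :=
        tsum_lintegral_Q B 0 _
    _ ≤ ∫⁻ x, ENNReal.ofReal ((1 + Real.sqrt n) ^ L) ^ p * (ENNReal.ofReal CX *
          ∫⁻ z, (‖G z‖ₑ * ENNReal.ofReal (((1 + ‖x - z‖) ^ L)⁻¹)) ^ p) := by
        refine lintegral_mono fun x => ?_
        rw [ENNReal.mul_rpow_of_nonneg _ _ hp.le]
        gcongr
        exact peetre_le p hp hp1 L X G CX hCX hXd CG hGb hrep x
    _ = ENNReal.ofReal ((1 + Real.sqrt n) ^ L) ^ p * (ENNReal.ofReal CX *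
          ∫⁻ x, ∫⁻ z, (‖G z‖ₑ * ENNReal.ofReal (((1 + ‖x - z‖) ^ L)⁻¹)) ^ p) := by
        rw [lintegral_const_mul' _ _ (ENNReal.rpow_ne_top_of_nonneg hp.le ENNReal.ofReal_ne_top),
          lintegral_const_mul' _ _ ENNReal.ofReal_ne_top]
    _ = ENNReal.ofReal ((1 + Real.sqrt n) ^ L) ^ p * (ENNReal.ofReal CX *
          ∫⁻ z, ∫⁻ x, (‖G z‖ₑ * ENNReal.ofReal (((1 + ‖x - z‖) ^ L)⁻¹)) ^ p) := by
        rw [lintegral_lintegral_swap hmeas.aemeasurable]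
    _ ≤ ENNReal.ofReal ((1 + Real.sqrt n) ^ L) ^ p * (ENNReal.ofReal CX *
          ∫⁻ z, ‖G z‖ₑ ^ p * ENNReal.ofReal (JJ n)) := by
        gcongr with z
        have h7 : ∀ x : E n, (‖G z‖ₑ * ENNReal.ofReal (((1 + ‖x - z‖) ^ L)⁻¹)) ^ p =
            ‖G z‖ₑ ^ p * ENNReal.ofReal (((1 + ‖x - z‖) ^ L)⁻¹) ^ p := fun x =>
          ENNReal.mul_rpow_of_nonneg _ _ hp.le
        simp_rw [h7]
        rw [lintegral_const_mul' _ _ (ENNReal.rpow_ne_top_of_nonneg hp.le enorm_ne_top)]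
        gcongr
        exact h6 z
    _ = _ := by
        rw [lintegral_mul_const' _ _ ENNReal.ofReal_ne_top]
        ring

end Pool.Agent.Helper41K9.BH
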