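import Mathlib
import Pool.Agent.Helper41K9.BH.LowerA1
import Pool.Agent.Helper41K9.BH.BesDil

set_option autoImplicit false

open MeasureTheory SchwartzMap FourierTransform
open scoped ENNReal SchwartzMap ContDiff

noncomputable section

namespace Pool.Agent.Helper41K9.BH

variable {n : ℕ}

/-- A cutoff equal to one on the ball of radius `2^(M+1)`. -/
def chiM (φ : E n → ℝ) (hφ : IsCutoff φ) (M : ℕ) : 𝓢(E n, ℂ) :=
  dil (((2 : ℝ) ^ (M + 1))⁻¹) (inv_ne_zero (by positivity)) 0 (cutS φ hφ)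

lemma chiM_apply (φ : E n → ℝ) (hφ : IsCutoff φ) (M : ℕ) (ξ : E n) :
    chiM φ hφ M ξ = (φ (((2 : ℝ) ^ (M + 1))⁻¹ • ξ) : ℂ) := by
  unfold chiM
  rw [dil_apply, sub_zero, cutS_apply]

lemma lpCutoff_zero (φ : E n → ℝ) (hφ : IsCutoff φ) (j : ℕ) (ξ : E n)
    (h : (2 : ℝ) ^ (j + 1) ≤ ‖ξ‖) : lpCutoff φ j ξ = 0 := by
  cases j with
  | zero =>
    change φ ξ = 0
    exact hφ.zero ξ (by simpa using h)
  | succ j =>
    change φ (((2 : ℝ) ^ (j + 1))⁻¹ • ξ) - φ (((2 : ℝ) ^ j)⁻¹ • ξ) = 0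
    have h1 : φ (((2 : ℝ) ^ (j + 1))⁻¹ • ξ) = 0 := by
      apply hφ.zero
      rw [norm_smul, Real.norm_of_nonneg (by positivity), ← div_eq_inv_mul,
        le_div_iff₀ (by positivity)]
      refine le_trans (le_of_eq ?_) h
      ring
    have h2 : φ (((2 : ℝ) ^ j)⁻¹ • ξ) = 0 := by
      apply hφ.zero
      rw [norm_smul, Real.norm_of_nonneg (by positivity), ← div_eq_inv_mul,
        le_div_iff₀ (by positivity)]
      refine le_trans ?_ h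
      rw [← pow_succ']
      exact pow_le_pow_right₀ (by norm_num) (by omega)
    rw [h1, h2, sub_zero]

lemma pp_piece (φ : E n → ℝ) (hφ : IsCutoff φ) (p : ℝ) (hp : 0 < p) (hp1 : p ≤ 1) (M : ℕ) :
    ∃ C : ℝ≥0∞, C ≠ ⊤ ∧ ∀ (u : 𝓢(E n, ℂ)) (i j : ℕ), j < M * (i + 1) →
      ENNReal.ofReal ((((2 : ℝ) ^ (M * i)) ^ n)⁻¹) *
        ∑' m, (⨆ x ∈ Q (2 ^ M) i m, ‖lpPiece φ j u x‖ₑ ^ p) ≤
      C * ∫⁻ x, ‖lpPiece φ j u x‖ₑ ^ p := by
  set L : ℕ := ⌈((n : ℝ) + 1) / p⌉₊ with hLdef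
  have hL : (n + 1 : ℝ) ≤ L * p := by
    have := Nat.le_ceil (((n : ℝ) + 1) / p)
    rwa [div_le_iff₀ hp] at this
  obtain ⟨CX, hCX, hXd⟩ := schwartz_decay (𝓕⁻ (chiM φ hφ M) : 𝓢(E n, ℂ)) L
  refine ⟨ENNReal.ofReal ((1 + Real.sqrt n) ^ L) ^ p *
    (ENNReal.ofReal CX * ENNReal.ofReal (JJ n)), ?_, fun u i j hij => ?_⟩
  · exact ENNReal.mul_ne_top (ENNReal.rpow_ne_top_of_nonneg hp.le ENNReal.ofReal_ne_top)
      (ENNReal.mul_ne_top ENNReal.ofReal_ne_top ENNReal.ofReal_ne_top)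
  set a : ℝ := (2 : ℝ) ^ (M * i) with ha
  have ha0 : 0 < a := by positivity
  set g := lpPiece φ j u with hg
  have hrep0 : fm (fun ξ => chiM φ hφ M (a⁻¹ • ξ)) g = g := by
    have hT1 : (fun ξ : E n => chiM φ hφ M (a⁻¹ • ξ)).HasTemperateGrowth := temperate_scale _ _
    rw [hg, lpPiece, fm, fourierMultiplierCLM_fourierMultiplierCLM_apply hT1
      (temperate_lp φ hφ j)]
    have h1 : ((fun ξ : E n => chiM φ hφ M (a⁻¹ • ξ)) * fun ξ => ((lpCutoff φ j ξ : ℝ) : ℂ)) =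
        fun ξ => ((lpCutoff φ j ξ : ℝ) : ℂ) := by
      ext ξ
      simp only [Pi.mul_apply]
      rcases le_or_gt ((2 : ℝ) ^ (j + 1)) ‖ξ‖ with h | h
      · rw [lpCutoff_zero φ hφ j ξ h]
        simp
      · have h2 : φ (((2 : ℝ) ^ (M + 1))⁻¹ • a⁻¹ • ξ) = 1 := by
          apply hφ.one
          rw [smul_smul, norm_smul, Real.norm_of_nonneg (by positivity), ← mul_inv, ← pow_add,
            ← div_eq_inv_mul, div_le_one (by positivity)]
          refine h.le.trans (pow_le_pow_right₀ (by norm_num) ?_)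
          rw [mul_add, mul_one] at hij
          omega
        rw [chiM_apply, h2]
        simp
    rw [h1]
  set G : E n → ℂ := fun y => g (a⁻¹ • y) with hG
  have hGc : Continuous G := g.continuous.comp (continuous_const_smul _)
  obtain ⟨CG, _, hCG⟩ := schwartz_decay g 0
  have hrep : ∀ y, G y = ∫ t, (𝓕⁻ (chiM φ hφ M) : 𝓢(E n, ℂ)) t * G (y - t) := by
    intro y
    have h3 := fm_scale (chiM φ hφ M) a ha0 g (a⁻¹ • y)
    rw [hrep0] at h3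
    rw [hG]
    simp only
    rw [h3]
    congr 1
    ext t
    rw [smul_sub]
  have hpp := plancherel_polya (2 ^ M) (by positivity) p hp hp1 L hL
    (𝓕⁻ (chiM φ hφ M) : 𝓢(E n, ℂ)) G hGc CX hCX hXd CG
    (fun y => by simpa using hCG (a⁻¹ • y)) hrep
  have hint : ∫⁻ y, ‖G y‖ₑ ^ p = ENNReal.ofReal (a ^ n) * ∫⁻ x, ‖g x‖ₑ ^ p := by
    have h4 := lintegral_affine (fun y => ‖g y‖ₑ ^ p) a⁻¹ (by positivity) 0
    simp only [sub_zero] at h4
    rw [hG]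
    simp only
    rw [h4, inv_pow, inv_inv]
  have hsup : ∀ m : Idx n, (⨆ x ∈ Q (2 ^ M) i m, ‖g x‖ₑ ^ p) ≤
      ⨆ y ∈ Q (2 ^ M) 0 m, ‖G y‖ₑ ^ p := by
    intro m
    refine iSup₂_le fun x hx => ?_
    have h5 : a • x ∈ Q (2 ^ M) 0 m := by
      have h6 : idx (2 ^ M) 0 (a • x) = idx (2 ^ M) i x := by
        funext k
        unfold idx
        congr 1
        rw [pow_zero, one_mul, ha, pow_mul]
        push_cast
        rfl
      unfold Q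
      rw [Set.mem_ofPred_eq, h6]
      exact hx
    have h7 : g x = G (a • x) := by
      rw [hG]
      simp only
      rw [inv_smul_smul₀ ha0.ne']
    rw [h7]
    exact le_iSup₂ (f := fun y (_ : y ∈ Q (2 ^ M) 0 m) => ‖G y‖ₑ ^ p) (a • x) h5
  calc ENNReal.ofReal ((a ^ n)⁻¹) * ∑' m, (⨆ x ∈ Q (2 ^ M) i m, ‖g x‖ₑ ^ p)
      ≤ ENNReal.ofReal ((a ^ n)⁻¹) * ∑' m, ⨆ y ∈ Q (2 ^ M) 0 m, ‖G y‖ₑ ^ p :=
        mul_le_mul' le_rfl (ENNReal.tsum_le_tsum hsup)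
    _ ≤ ENNReal.ofReal ((a ^ n)⁻¹) * (ENNReal.ofReal ((1 + Real.sqrt n) ^ L) ^ p *
        (ENNReal.ofReal CX * ENNReal.ofReal (JJ n)) * (ENNReal.ofReal (a ^ n) *
          ∫⁻ x, ‖g x‖ₑ ^ p)) := by
        rw [← hint]
        exact mul_le_mul' le_rfl hpp
    _ = (ENNReal.ofReal ((a ^ n)⁻¹) * ENNReal.ofReal (a ^ n)) *
        (ENNReal.ofReal ((1 + Real.sqrt n) ^ L) ^ p *
        (ENNReal.ofReal CX * ENNReal.ofReal (JJ n)) * ∫⁻ x, ‖g x‖ₑ ^ p) := by ring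
    _ = _ := by
        rw [← ENNReal.ofReal_mul (by positivity), inv_mul_cancel₀ (by positivity),
          ENNReal.ofReal_one, one_mul]

end Pool.Agent.Helper41K9.BH
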