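import Mathlib
import Pool.Agent.Helper41K9.BH.LowerA2
import Pool.Agent.Helper41K9.BH.Build

set_option autoImplicit false

open MeasureTheory SchwartzMap FourierTransform
open scoped ENNReal SchwartzMap ContDiff

noncomputable section

namespace Pool.Agent.Helper41K9.BH

variable {n : ℕ}

lemma fm_add {m₁ m₂ : E n → ℂ} (h₁ : m₁.HasTemperateGrowth) (h₂ : m₂.HasTemperateGrowth)
    (u : 𝓢(E n, ℂ)) : fm (m₁ + m₂) u = fm m₁ u + fm m₂ u := by
  rw [fm, fm, fm, fourierMultiplierCLM_apply, fourierMultiplierCLM_apply,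
    fourierMultiplierCLM_apply, smulLeftCLM_add h₁ h₂, _root_.add_apply,
    FourierTransform.fourierInv_add]

/-- The symbol of the partial sums. -/
def pm (φ : E n → ℝ) (N : ℕ) : E n → ℂ := fun ξ => (φ (((2 : ℝ) ^ N)⁻¹ • ξ) : ℂ)

lemma pm_temperate (φ : E n → ℝ) (hφ : IsCutoff φ) (N : ℕ) : (pm φ N).HasTemperateGrowth :=
  temperate_scale (cutS φ hφ) ((2 : ℝ) ^ N)⁻¹

lemma partial_sum (φ : E n → ℝ) (hφ : IsCutoff φ) (u : 𝓢(E n, ℂ)) (N : ℕ) :
    ∑ j ∈ Finset.range (N + 1), lpPiece φ j u = fm (pm φ N) u := by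
  induction N with
  | zero =>
    rw [Finset.sum_range_one]
    unfold lpPiece
    congr 2
    ext ξ
    simp [lpCutoff, pm]
  | succ N ih =>
    rw [Finset.sum_range_succ, ih]
    unfold lpPiece
    have h1 : pm φ (N + 1) = pm φ N + fun ξ => ((lpCutoff φ (N + 1) ξ : ℝ) : ℂ) := by
      ext ξ
      simp [lpCutoff, pm]
    rw [h1, fm_add (pm_temperate φ hφ N) (temperate_lp φ hφ (N + 1))]

lemma tail_small (φ : E n → ℝ) (hφ : IsCutoff φ) (u : 𝓢(E n, ℂ)) (ε : ℝ) (hε : 0 < ε) :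
    ∃ N₀ : ℕ, ∀ N, N₀ ≤ N → ∀ x,
      ‖u x - ∑ j ∈ Finset.range (N + 1), lpPiece φ j u x‖ ≤ ε := by
  obtain ⟨Cφ, hCφ0, hCφ⟩ := schwartz_decay (cutS φ hφ) 0
  have hb : ∀ (N : ℕ) (ξ : E n), ‖(1 : ℂ) - pm φ N ξ‖ ≤ 1 + Cφ := by
    intro N ξ
    refine (norm_sub_le _ _).trans ?_
    rw [norm_one]
    gcongr
    have := hCφ (((2 : ℝ) ^ N)⁻¹ • ξ)
    simpa [pm] using this
  have hlim : Filter.Tendsto (fun N => ∫ ξ : E n, ‖(1 : ℂ) - pm φ N ξ‖ * ‖𝓕 u ξ‖)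
      Filter.atTop (nhds 0) := by
    have h0 : (0 : ℝ) = ∫ _ξ : E n, (0 : ℝ) := by simp
    rw [h0]
    refine tendsto_integral_of_dominated_convergence (fun ξ : E n => (1 + Cφ) * ‖𝓕 u ξ‖)
      (fun N => ?_) ((𝓕 u).integrable.norm.const_mul _) (fun N => ?_) ?_
    · have h1 : Continuous (pm φ N) :=
        (cutS φ hφ).continuous.comp (continuous_const_smul _)
      have h2 : Continuous fun ξ => 𝓕 u ξ := (𝓕 u).continuous
      exact Continuous.aestronglyMeasurable (by fun_prop)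
    · refine Filter.Eventually.of_forall fun ξ => ?_
      rw [norm_mul, norm_norm, norm_norm]
      exact mul_le_mul_of_nonneg_right (hb N ξ) (norm_nonneg _)
    · refine Filter.Eventually.of_forall fun ξ => ?_
      refine tendsto_const_nhds.congr' ?_
      obtain ⟨N₁, hN₁⟩ := pow_unbounded_of_one_lt ‖ξ‖ (one_lt_two : (1 : ℝ) < 2)
      filter_upwards [Filter.eventually_ge_atTop N₁] with N hN
      have h3 : φ (((2 : ℝ) ^ N)⁻¹ • ξ) = 1 := by
        apply hφ.one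
        rw [norm_smul, Real.norm_of_nonneg (by positivity), ← div_eq_inv_mul,
          div_le_one (by positivity)]
        exact hN₁.le.trans (pow_le_pow_right₀ (by norm_num) hN)
      unfold pm
      rw [h3]
      simp
  have hev := (hlim.eventually_le_const hε).exists_forall_of_atTop
  obtain ⟨N₀, hN₀⟩ := hev
  refine ⟨N₀, fun N hN x => ?_⟩
  have h4 : (fun _ : E n => (1 : ℂ)) = ((fun _ => (1 : ℂ)) - pm φ N) + pm φ N := by
    simp
  have hT : ((fun _ : E n => (1 : ℂ)) - pm φ N).HasTemperateGrowth :=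
    (Function.HasTemperateGrowth.const (1 : ℂ)).sub (pm_temperate φ hφ N)
  have h5 : u = fm ((fun _ : E n => (1 : ℂ)) - pm φ N) u + fm (pm φ N) u := by
    rw [← fm_add hT (pm_temperate φ hφ N), ← h4, fm, fourierMultiplierCLM_const]
    simp
  have h6 : u x - ∑ j ∈ Finset.range (N + 1), lpPiece φ j u x =
      fm ((fun _ : E n => (1 : ℂ)) - pm φ N) u x := by
    have h7 := partial_sum φ hφ u N
    have h8 : ∑ j ∈ Finset.range (N + 1), lpPiece φ j u x = fm (pm φ N) u x := by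
      rw [← h7]
      exact (schwartz_sum_apply _ _ _).symm
    rw [h8]
    have h9 := congrArg (fun g : 𝓢(E n, ℂ) => g x) h5
    simp only [add_apply] at h9
    rw [sub_eq_iff_eq_add]
    exact h9
  rw [h6]
  refine (norm_fm_le hT u x).trans ?_
  exact hN₀ N hN

lemma rpow_sum_le {ι : Type*} (p : ℝ) (hp : 0 < p) (hp1 : p ≤ 1) (s : Finset ι) (f : ι → ℝ≥0∞) :
    (∑ i ∈ s, f i) ^ p ≤ ∑ i ∈ s, f i ^ p := by
  classical
  induction s using Finset.induction_on with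
  | empty => simp [hp]
  | insert i s hi ih =>
    rw [Finset.sum_insert hi, Finset.sum_insert hi]
    exact (enorm_add_rpow p hp hp1 _ _).trans (by gcongr)

lemma sum_blocks (M k : ℕ) (f : ℕ → ℝ≥0∞) :
    ∑ i ∈ Finset.range k, ∑ j ∈ Finset.Ico (M * i) (M * (i + 1)), f j =
      ∑ j ∈ Finset.range (M * k), f j := by
  induction k with
  | zero => simp
  | succ k ih =>
    rw [Finset.sum_range_succ, ih, Finset.range_eq_Ico, Finset.range_eq_Ico,
      Finset.sum_Ico_consecutive _ (Nat.zero_le _) (by gcongr; omega)]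

lemma lowerA (φ : E n → ℝ) (hφ : IsCutoff φ) (α p : ℝ) (hα : 0 < α) (hp : 0 < p) (hp1 : p ≤ 1)
    (M : ℕ) (hM : 0 < M) (r : ℝ≥0∞) (hr : r ≤ ENNReal.ofReal (((2 : ℝ) ^ M) ^ (α * p - n))) :
    ∃ C : ℝ≥0∞, C ≠ ⊤ ∧ ∀ (K : Set (E n)) (u : 𝓢(E n, ℂ)), AtLeastOneOn K u →
      ∃ d, ∑' m, cont (2 ^ M) K r d 0 m ≤ C * besov φ α p u := by
  obtain ⟨C, hC, hpp⟩ := pp_piece φ hφ p hp hp1 M
  refine ⟨2 * C, ENNReal.mul_ne_top (by norm_num) hC, fun K u hu => ?_⟩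
  obtain ⟨ε, hε, hε2⟩ : ∃ ε : ℝ, 0 < ε ∧ ENNReal.ofReal ε ^ p ≤ 2⁻¹ := by
    refine ⟨(2⁻¹ : ℝ) ^ p⁻¹, by positivity, ?_⟩
    rw [← ENNReal.ofReal_rpow_of_pos (by norm_num), ← ENNReal.rpow_mul, inv_mul_cancel₀ hp.ne',
      ENNReal.rpow_one, ENNReal.ofReal_inv_of_pos (by norm_num)]
    simp
  obtain ⟨N₀, hN₀⟩ := tail_small φ hφ u ε hε
  refine ⟨N₀, ?_⟩
  set w : ℕ → Idx n → ℝ≥0∞ := fun i m => 2 * ∑ j ∈ Finset.Ico (M * i) (M * (i + 1)),
    ⨆ x ∈ Q (2 ^ M) i m, ‖lpPiece φ j u x‖ₑ ^ p with hw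
  have hNM : N₀ + 1 ≤ M * (N₀ + 1) := Nat.le_mul_of_pos_left _ hM
  have hcover : ∀ x ∈ K, 1 ≤ ∑ i ∈ Finset.range (N₀ + 1), w i (idx (2 ^ M) i x) := by
    intro x hx
    have h1 : (1 : ℝ≥0∞) ≤ ‖u x‖ₑ ^ p := by
      have h2 : (1 : ℝ) ≤ ‖u x‖ := (hu.2 x hx).trans (Complex.re_le_norm _)
      have h3 : (1 : ℝ≥0∞) ≤ ‖u x‖ₑ := by
        rw [← ofReal_norm, ENNReal.one_le_ofReal]
        exact h2
      exact ENNReal.one_le_rpow h3 hp
    obtain ⟨N, hN⟩ : ∃ N, M * (N₀ + 1) = N + 1 := ⟨M * (N₀ + 1) - 1, by omega⟩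
    have h4 : ‖u x‖ₑ ^ p ≤ 2⁻¹ + ∑ j ∈ Finset.range (M * (N₀ + 1)), ‖lpPiece φ j u x‖ₑ ^ p := by
      have h5 : u x = (u x - ∑ j ∈ Finset.range (M * (N₀ + 1)), lpPiece φ j u x) +
          ∑ j ∈ Finset.range (M * (N₀ + 1)), lpPiece φ j u x := by ring
      calc ‖u x‖ₑ ^ p ≤ (‖u x - ∑ j ∈ Finset.range (M * (N₀ + 1)), lpPiece φ j u x‖ₑ +
            ∑ j ∈ Finset.range (M * (N₀ + 1)), ‖lpPiece φ j u x‖ₑ) ^ p := by
            conv_lhs => rw [h5]
            gcongr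
            exact (enorm_add_le _ _).trans (by gcongr; exact enorm_sum_le _ _)
        _ ≤ _ := (enorm_add_rpow p hp hp1 _ _).trans (add_le_add ?_ (rpow_sum_le p hp hp1 _ _))
      refine le_trans ?_ hε2
      gcongr
      rw [← ofReal_norm]
      apply ENNReal.ofReal_le_ofReal
      rw [hN]
      exact hN₀ N (by omega) x
    have h6 : (1 : ℝ≥0∞) ≤ 2 * ∑ j ∈ Finset.range (M * (N₀ + 1)), ‖lpPiece φ j u x‖ₑ ^ p := by
      have h7 : (1 : ℝ≥0∞) ≤ 2⁻¹ + ∑ j ∈ Finset.range (M * (N₀ + 1)), ‖lpPiece φ j u x‖ₑ ^ p :=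
        h1.trans h4
      have h8 : (2⁻¹ : ℝ≥0∞) ≤ ∑ j ∈ Finset.range (M * (N₀ + 1)), ‖lpPiece φ j u x‖ₑ ^ p := by
        rw [← ENNReal.inv_two_add_inv_two] at h7
        exact (ENNReal.add_le_add_iff_left (by simp)).1 h7
      calc (1 : ℝ≥0∞) = 2 * 2⁻¹ := (ENNReal.mul_inv_cancel (by norm_num) (by norm_num)).symm
        _ ≤ _ := by gcongr
    refine h6.trans ?_
    rw [← sum_blocks, Finset.mul_sum]
    refine Finset.sum_le_sum fun i _ => ?_
    rw [hw]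
    simp only
    gcongr with j hj
    exact le_iSup₂ (f := fun y (_ : y ∈ Q (2 ^ M) i (idx (2 ^ M) i x)) =>
      ‖lpPiece φ j u y‖ₑ ^ p) x rfl
  refine (cont_le_tsum (by positivity) K r w N₀ hcover).trans ?_
  have hterm : ∀ i, ∑' m, w i m * r ^ i ≤ ∑ j ∈ Finset.Ico (M * i) (M * (i + 1)),
      2 * C * (ENNReal.ofReal ((2 : ℝ) ^ ((j : ℝ) * α * p)) * ∫⁻ x, ‖lpPiece φ j u x‖ₑ ^ p) := by
    intro i
    set a : ℝ := (2 : ℝ) ^ (M * i) with ha
    have ha0 : 0 < a := by positivity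
    have hri : r ^ i ≤ ENNReal.ofReal (a ^ (α * p)) * ENNReal.ofReal ((a ^ n)⁻¹) := by
      calc r ^ i ≤ ENNReal.ofReal (((2 : ℝ) ^ M) ^ (α * p - n)) ^ i := by gcongr
        _ = _ := by
          rw [← ENNReal.ofReal_pow (by positivity), ← ENNReal.ofReal_mul (by positivity)]
          congr 1
          rw [← Real.rpow_natCast, ← Real.rpow_mul (by positivity), mul_comm, Real.rpow_mul
            (by positivity), Real.rpow_natCast, ← pow_mul, ← ha, Real.rpow_sub ha0,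
            Real.rpow_natCast, div_eq_mul_inv]
    rw [ENNReal.tsum_mul_right]
    have h9 : ∑' m, w i m = 2 * ∑ j ∈ Finset.Ico (M * i) (M * (i + 1)),
        ∑' m, ⨆ x ∈ Q (2 ^ M) i m, ‖lpPiece φ j u x‖ₑ ^ p := by
      rw [hw, ENNReal.tsum_mul_left]
      congr 1
      exact Summable.tsum_finsetSum fun _ _ => ENNReal.summable
    rw [h9]
    calc 2 * (∑ j ∈ Finset.Ico (M * i) (M * (i + 1)),
          ∑' m, ⨆ x ∈ Q (2 ^ M) i m, ‖lpPiece φ j u x‖ₑ ^ p) * r ^ i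
        ≤ 2 * (∑ j ∈ Finset.Ico (M * i) (M * (i + 1)),
          ∑' m, ⨆ x ∈ Q (2 ^ M) i m, ‖lpPiece φ j u x‖ₑ ^ p) *
            (ENNReal.ofReal (a ^ (α * p)) * ENNReal.ofReal ((a ^ n)⁻¹)) := by gcongr
      _ = ∑ j ∈ Finset.Ico (M * i) (M * (i + 1)), 2 * (ENNReal.ofReal (a ^ (α * p)) *
            (ENNReal.ofReal ((a ^ n)⁻¹) *
              ∑' m, ⨆ x ∈ Q (2 ^ M) i m, ‖lpPiece φ j u x‖ₑ ^ p)) := by
          rw [Finset.mul_sum, Finset.sum_mul]
          refine Finset.sum_congr rfl fun j _ => ?_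
          ring
      _ ≤ _ := by
          refine Finset.sum_le_sum fun j hj => ?_
          rw [Finset.mem_Ico] at hj
          rw [mul_assoc 2 C]
          refine mul_le_mul' le_rfl ?_
          calc ENNReal.ofReal (a ^ (α * p)) * (ENNReal.ofReal ((a ^ n)⁻¹) *
                ∑' m, ⨆ x ∈ Q (2 ^ M) i m, ‖lpPiece φ j u x‖ₑ ^ p)
              ≤ ENNReal.ofReal ((2 : ℝ) ^ ((j : ℝ) * α * p)) *
                (C * ∫⁻ x, ‖lpPiece φ j u x‖ₑ ^ p) := by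
                refine mul_le_mul' (ENNReal.ofReal_le_ofReal ?_) (hpp u i j hj.2)
                rw [ha, ← Real.rpow_natCast, ← Real.rpow_mul (by norm_num), mul_assoc (j : ℝ)]
                apply Real.rpow_le_rpow_of_exponent_le (by norm_num)
                have : ((M * i : ℕ) : ℝ) ≤ j := by exact_mod_cast hj.1
                have hαp : 0 < α * p := mul_pos hα hp
                gcongr
            _ = _ := by ring
  calc ∑ i ∈ Finset.range (N₀ + 1), ∑' m, w i m * r ^ i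
      ≤ ∑ i ∈ Finset.range (N₀ + 1), ∑ j ∈ Finset.Ico (M * i) (M * (i + 1)),
      2 * C * (ENNReal.ofReal ((2 : ℝ) ^ ((j : ℝ) * α * p)) *
        ∫⁻ x, ‖lpPiece φ j u x‖ₑ ^ p) := Finset.sum_le_sum fun i _ => hterm i
    _ = ∑ j ∈ Finset.range (M * (N₀ + 1)), 2 * C *
        (ENNReal.ofReal ((2 : ℝ) ^ ((j : ℝ) * α * p)) * ∫⁻ x, ‖lpPiece φ j u x‖ₑ ^ p) :=
        sum_blocks M (N₀ + 1) _
    _ = 2 * C * ∑ j ∈ Finset.range (M * (N₀ + 1)),
        (ENNReal.ofReal ((2 : ℝ) ^ ((j : ℝ) * α * p)) * ∫⁻ x, ‖lpPiece φ j u x‖ₑ ^ p) := by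
        rw [Finset.mul_sum]
    _ ≤ _ := by
        unfold besov
        gcongr
        exact ENNReal.sum_le_tsum _

end Pool.Agent.Helper41K9.BH
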