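import Mathlib
import Pool.Agent.Helper41K9.BH.Cubes
import Pool.Agent.Helper41K9.BH.HarDil

set_option autoImplicit false

open MeasureTheory SchwartzMap FourierTransform
open scoped ENNReal SchwartzMap ContDiff

noncomputable section

namespace Pool.Agent.Helper41K9.BH

variable {n : ℕ}

/-- The sup norm bound for the heat flow. -/
lemma heat_sup (n : ℕ) : ∃ C : ℝ≥0∞, C ≠ ⊤ ∧ ∀ (g : 𝓢(E n, ℂ)) (τ : ℝ), 0 < τ → ∀ (x : E n)
    (Z : ℝ≥0∞), (∀ z, ‖g z‖ₑ ≤ Z) → ‖heat τ g x‖ₑ ≤ C * Z := by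
  refine ⟨∫⁻ t, ‖(𝓕⁻ (gaussS n) : 𝓢(E n, ℂ)) t‖ₑ, ?_, fun g τ hτ x Z hZ => ?_⟩
  · exact (𝓕⁻ (gaussS n) : 𝓢(E n, ℂ)).integrable.2.ne
  · have h3 : hm n τ = fun ξ => gaussS n ((τ⁻¹)⁻¹ • ξ) := by rw [inv_inv, hm_eq]
    rw [heat_eq, h3, fm_scale (gaussS n) τ⁻¹ (by positivity)]
    refine (enorm_integral_le_lintegral_enorm _).trans ?_
    have hm1 : Measurable fun t => ‖(𝓕⁻ (gaussS n) : 𝓢(E n, ℂ)) t‖ₑ :=
      (𝓕⁻ (gaussS n) : 𝓢(E n, ℂ)).continuous.measurable.enorm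
    rw [← lintegral_mul_const _ hm1]
    refine lintegral_mono fun t => ?_
    simp only
    rw [enorm_mul]
    gcongr
    exact hZ _

lemma heat_one_le (p : ℝ) (hp : 0 < p) : ∃ C : ℝ≥0∞, C ≠ ⊤ ∧ ∀ (T : ℝ≥0∞), 1 ≤ T →
    ∀ (f : 𝓢(E n, ℂ)) (z : E n), ‖heat 1 f z‖ₑ ≤ C * (hardy T p f) ^ (p⁻¹) := by
  set v : ℝ≥0∞ := volume (Metric.ball (0 : E n) 1) with hv
  have hv0 : v ≠ 0 := (Metric.measure_ball_pos volume (0 : E n) one_pos).ne'
  have hvt : v ≠ ⊤ := measure_ball_lt_top.ne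
  refine ⟨(v⁻¹) ^ (p⁻¹), ENNReal.rpow_ne_top_of_nonneg (by positivity) (ENNReal.inv_ne_top.2 hv0),
    fun T hT f z => ?_⟩
  have h1 : ‖heat 1 f z‖ₑ ^ p * v ≤ hardy T p f := by
    have h2 : volume (Metric.ball z 1) = v := by
      rw [hv, Measure.addHaar_ball_center]
    calc ‖heat 1 f z‖ₑ ^ p * v = ∫⁻ _y in Metric.ball z 1, ‖heat 1 f z‖ₑ ^ p := by
          rw [setLIntegral_const, h2]
      _ ≤ ∫⁻ y in Metric.ball z 1, maximal T f y ^ p := by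
          refine setLIntegral_mono' measurableSet_ball fun y hy => ?_
          gcongr
          rw [Metric.mem_ball, dist_comm] at hy
          exact le_maximal f hy (by simpa using hT)
      _ ≤ _ := setLIntegral_le_lintegral _ _
  have h3 : ‖heat 1 f z‖ₑ ^ p ≤ v⁻¹ * hardy T p f := by
    rw [← ENNReal.le_div_iff_mul_le (Or.inl hv0) (Or.inl hvt), ENNReal.div_eq_inv_mul] at h1
    exact h1
  have h4 := ENNReal.rpow_le_rpow h3 (inv_nonneg.2 hp.le)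
  rw [← ENNReal.rpow_mul, mul_inv_cancel₀ hp.ne', ENNReal.rpow_one,
    ENNReal.mul_rpow_of_nonneg _ _ (inv_nonneg.2 hp.le)] at h4
  exact h4

lemma heat_large (p : ℝ) (hp : 0 < p) : ∃ C : ℝ≥0∞, C ≠ ⊤ ∧ ∀ (T : ℝ≥0∞), 1 ≤ T →
    ∀ (f : 𝓢(E n, ℂ)) (s : ℝ), 1 < s → ∀ x : E n,
      ‖heat (Real.sqrt s) f x‖ₑ ≤ C * (hardy T p f) ^ (p⁻¹) := by
  obtain ⟨C₁, hC₁, h1⟩ := heat_sup n
  obtain ⟨C₂, hC₂, h2⟩ := heat_one_le (n := n) p hp
  refine ⟨C₁ * C₂, ENNReal.mul_ne_top hC₁ hC₂, fun T hT f s hs x => ?_⟩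
  have h3 : heat (Real.sqrt s) f = heat (Real.sqrt (s - 1)) (heat 1 f) := by
    rw [heat_eq, heat_eq, heat_eq, fm, fm, fm, fourierMultiplierCLM_fourierMultiplierCLM_apply
      (hm_temperate _) (hm_temperate _)]
    congr 2
    ext ξ
    simp only [Pi.mul_apply, hm]
    rw [← Complex.ofReal_mul, ← Real.exp_add]
    congr 2
    rw [mul_pow, mul_pow, mul_pow, mul_pow, mul_pow (2 * Real.pi) (Real.sqrt (s - 1)),
      Real.sq_sqrt (by linarith), Real.sq_sqrt (by linarith)]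
    ring
  rw [h3, mul_assoc]
  exact h1 (heat 1 f) _ (Real.sqrt_pos.2 (by linarith)) x _ (fun z => h2 T hT f z)

lemma heat_bdd (f : 𝓢(E n, ℂ)) : ∃ F : ℝ≥0∞, F ≠ ⊤ ∧ ∀ (t : ℝ) (x : E n), ‖heat t f x‖ₑ ≤ F := by
  refine ⟨ENNReal.ofReal (∫ ξ, ‖𝓕 f ξ‖), ENNReal.ofReal_ne_top, fun t x => ?_⟩
  rw [← ofReal_norm]
  apply ENNReal.ofReal_le_ofReal
  rw [heat_eq]
  refine (norm_fm_le (hm_temperate t) f x).trans ?_
  refine integral_mono_of_nonneg (Filter.Eventually.of_forall fun ξ => by positivity)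
    (𝓕 f).integrable.norm (Filter.Eventually.of_forall fun ξ => ?_)
  exact mul_le_of_le_one_left (norm_nonneg _) (norm_hm_le t ξ)

/-- The infimum of the maximal function over a cube. -/
def mk (T : ℝ≥0∞) (f : 𝓢(E n, ℂ)) (B i : ℕ) (m : Idx n) : ℝ≥0∞ :=
  ⨅ y ∈ Q B i m, maximal T f y

lemma heat_le_mk {T : ℝ≥0∞} (hT : 1 ≤ T) (f : 𝓢(E n, ℂ)) {B : ℕ} (hB : 0 < B) (k : ℕ) (x : E n)
    (s : ℝ) (hs1 : s ≤ 1) (hk : (n : ℝ) * ((((B : ℝ) ^ k)⁻¹) ^ 2) < s) :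
    ‖heat (Real.sqrt s) f x‖ₑ ≤ mk T f B k (idx B k x) := by
  refine le_iInf₂ fun y hy => ?_
  have h1 : dist x y ≤ Real.sqrt n * ((B : ℝ) ^ k)⁻¹ := dist_le_Q hB k (idx B k x) rfl hy
  have h2 : Real.sqrt n * ((B : ℝ) ^ k)⁻¹ < Real.sqrt s := by
    have h3 : Real.sqrt n * ((B : ℝ) ^ k)⁻¹ = Real.sqrt ((n : ℝ) * ((((B : ℝ) ^ k)⁻¹) ^ 2)) := by
      rw [Real.sqrt_mul (by positivity), Real.sqrt_sq (by positivity)]
    rw [h3]
    exact Real.sqrt_lt_sqrt (by positivity) hk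
  refine le_maximal f (h1.trans_lt h2) ?_
  refine le_trans ?_ hT
  rw [ENNReal.ofReal_le_one]
  exact Real.sqrt_le_one.2 hs1

/-- The integrals of the singular weight. -/
lemma weight_integral (γ δ : ℝ) (hγ : 0 < γ) (hδ : 0 ≤ δ) :
    ∫⁻ s in Set.Ioc 0 δ, ENNReal.ofReal (s ^ (γ - 1)) = ENNReal.ofReal (γ⁻¹ * δ ^ γ) := by
  have h1 : IntegrableOn (fun s : ℝ => s ^ (γ - 1)) (Set.Ioc 0 δ) := by
    have := intervalIntegral.intervalIntegrable_rpow' (a := 0) (b := δ) (r := γ - 1) (by linarith)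
    rwa [intervalIntegrable_iff_integrableOn_Ioc_of_le hδ] at this
  rw [← ofReal_integral_eq_lintegral_ofReal h1]
  · congr 1
    rw [← intervalIntegral.integral_of_le hδ, integral_rpow (Or.inl (by linarith))]
    have : γ - 1 + 1 = γ := by ring
    rw [this, Real.zero_rpow hγ.ne', sub_zero]
    field_simp
  · refine (ae_restrict_iff' measurableSet_Ioc).2 (Filter.Eventually.of_forall fun s hs => ?_)
    have : 0 < s := hs.1
    positivity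

end Pool.Agent.Helper41K9.BH
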