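import Mathlib
import Pool.Agent.Helper41K9.BH.LowerB1
import Pool.Agent.Helper41K9.BH.LowerA3

set_option autoImplicit false

open MeasureTheory SchwartzMap FourierTransform
open scoped ENNReal SchwartzMap ContDiff

noncomputable section

namespace Pool.Agent.Helper41K9.BH

variable {n : ℕ}

/-- The scale `n B^{-2k}`. -/
def dl (n B k : ℕ) : ℝ := (n : ℝ) * ((((B : ℝ) ^ k)⁻¹) ^ 2)

lemma dl_nonneg (n B k : ℕ) : 0 ≤ dl n B k := by unfold dl; positivity

/-- Pointwise bound of the heat extension for small times. -/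
lemma heat_pointwise {T : ℝ≥0∞} (hT : 1 ≤ T) (f : 𝓢(E n, ℂ)) {B : ℕ} (hB : 0 < B) (hn : 0 < n)
    (d : ℕ) (F : ℝ≥0∞) (hF : ∀ (t : ℝ) (x : E n), ‖heat t f x‖ₑ ≤ F) (x : E n) (s : ℝ)
    (hs1 : s ≤ 1) :
    ‖heat (Real.sqrt s) f x‖ₑ ≤ (if s ≤ dl n B d then F else 0) +
      ∑ k ∈ Finset.range d, if s ≤ dl n B k then mk T f B (k + 1) (idx B (k + 1) x) else 0 := by
  classical
  by_cases h1 : s ≤ dl n B d
  · rw [if_pos h1]
    exact (hF _ _).trans le_self_add
  · rw [if_neg h1, zero_add]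
    push Not at h1
    have hex : ∃ k, dl n B k < s := ⟨d, h1⟩
    set k := Nat.find hex with hk
    have hk1 : dl n B k < s := Nat.find_spec hex
    have hkd : k ≤ d := Nat.find_min' hex h1
    have hk0 : k ≠ 0 := by
      intro h0
      rw [h0] at hk1
      unfold dl at hk1
      have : (1 : ℝ) ≤ n := by exact_mod_cast hn
      simp at hk1
      linarith
    obtain ⟨k', hk'⟩ : ∃ k', k = k' + 1 := ⟨k - 1, by omega⟩
    have hmin : s ≤ dl n B k' := by
      by_contra hcon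
      push Not at hcon
      have := Nat.find_min' hex hcon
      omega
    have h2 : ‖heat (Real.sqrt s) f x‖ₑ ≤ mk T f B (k' + 1) (idx B (k' + 1) x) := by
      apply heat_le_mk hT f hB (k' + 1) x s hs1
      rw [hk'] at hk1
      exact hk1
    refine h2.trans ?_
    have h3 := Finset.single_le_sum (f := fun k => if s ≤ dl n B k then
      mk T f B (k + 1) (idx B (k + 1) x) else 0) (fun _ _ => bot_le)
      (Finset.mem_range.2 (by omega : k' < d))
    rw [if_pos hmin] at h3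
    exact h3

lemma small_part {T : ℝ≥0∞} (hT : 1 ≤ T) (f : 𝓢(E n, ℂ)) {B : ℕ} (hB : 0 < B) (hn : 0 < n)
    (γ : ℝ) (hγ : 0 < γ) (d : ℕ) (F : ℝ≥0∞)
    (hF : ∀ (t : ℝ) (x : E n), ‖heat t f x‖ₑ ≤ F) (x : E n) :
    ∫⁻ s in Set.Ioc (0 : ℝ) 1, ENNReal.ofReal (s ^ (γ - 1)) * ‖heat (Real.sqrt s) f x‖ₑ ≤
      F * ENNReal.ofReal (γ⁻¹ * dl n B d ^ γ) + ∑ k ∈ Finset.range d,
        ENNReal.ofReal (γ⁻¹ * dl n B k ^ γ) * mk T f B (k + 1) (idx B (k + 1) x) := by
  have hmeas : Measurable fun s : ℝ => ENNReal.ofReal (s ^ (γ - 1)) :=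
    (measurable_id.pow_const _).ennreal_ofReal
  have hind : ∀ (k : ℕ) (c : ℝ≥0∞), ∫⁻ s in Set.Ioc (0 : ℝ) 1, ENNReal.ofReal (s ^ (γ - 1)) *
      (if s ≤ dl n B k then c else 0) ≤ ENNReal.ofReal (γ⁻¹ * dl n B k ^ γ) * c := by
    intro k c
    have h1 : ∀ s : ℝ, ENNReal.ofReal (s ^ (γ - 1)) * (if s ≤ dl n B k then c else 0) =
        (Set.Iic (dl n B k)).indicator (fun s => ENNReal.ofReal (s ^ (γ - 1)) * c) s := by
      intro s
      by_cases h : s ≤ dl n B k
      · rw [if_pos h, Set.indicator_of_mem (by exact h)]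
      · rw [if_neg h, Set.indicator_of_notMem (by exact h), mul_zero]
    simp_rw [h1]
    rw [lintegral_indicator measurableSet_Iic, Measure.restrict_restrict measurableSet_Iic,
      lintegral_mul_const _ hmeas]
    gcongr
    rw [← weight_integral γ _ hγ (dl_nonneg n B k)]
    refine lintegral_mono_set ?_
    rintro s ⟨hs1, hs2⟩
    exact ⟨hs2.1, hs1⟩
  calc ∫⁻ s in Set.Ioc (0 : ℝ) 1, ENNReal.ofReal (s ^ (γ - 1)) * ‖heat (Real.sqrt s) f x‖ₑ
      ≤ ∫⁻ s in Set.Ioc (0 : ℝ) 1, (ENNReal.ofReal (s ^ (γ - 1)) *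
          (if s ≤ dl n B d then F else 0) + ∑ k ∈ Finset.range d, ENNReal.ofReal (s ^ (γ - 1)) *
            (if s ≤ dl n B k then mk T f B (k + 1) (idx B (k + 1) x) else 0)) := by
        refine setLIntegral_mono' measurableSet_Ioc fun s hs => ?_
        rw [← Finset.mul_sum, ← mul_add]
        gcongr
        exact heat_pointwise hT f hB hn d F hF x s hs.2
    _ = (∫⁻ s in Set.Ioc (0 : ℝ) 1, ENNReal.ofReal (s ^ (γ - 1)) *
          (if s ≤ dl n B d then F else 0)) + ∑ k ∈ Finset.range d,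
          ∫⁻ s in Set.Ioc (0 : ℝ) 1, ENNReal.ofReal (s ^ (γ - 1)) *
            (if s ≤ dl n B k then mk T f B (k + 1) (idx B (k + 1) x) else 0) := by
        rw [lintegral_add_left, lintegral_finsetSum]
        · intro k _
          exact hmeas.mul (Measurable.ite measurableSet_Iic measurable_const measurable_const)
        · exact hmeas.mul (Measurable.ite measurableSet_Iic measurable_const measurable_const)
    _ ≤ _ := by
        gcongr with k hk
        · rw [mul_comm F]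
          exact hind d F
        · exact hind k _

/-- Pointwise bound of the Bessel potential. -/
lemma bessel_pointwise (α p : ℝ) (hα : 0 < α) (hp : 0 < p) (hn : 0 < n) :
    ∃ CL : ℝ≥0∞, CL ≠ ⊤ ∧ ∀ (T : ℝ≥0∞), 1 ≤ T → ∀ (f : 𝓢(E n, ℂ)) (B : ℕ), 0 < B → ∀ (d : ℕ)
      (F : ℝ≥0∞), (∀ (t : ℝ) (x : E n), ‖heat t f x‖ₑ ≤ F) → ∀ x : E n,
      ‖bessel α f x‖ₑ ≤ CL * hardy T p f ^ p⁻¹ + ENNReal.ofReal ((Real.Gamma (α / 2))⁻¹) *
        (F * ENNReal.ofReal ((α / 2)⁻¹ * dl n B d ^ (α / 2))) + ∑ k ∈ Finset.range d,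
        ENNReal.ofReal ((Real.Gamma (α / 2))⁻¹) *
          (ENNReal.ofReal ((α / 2)⁻¹ * dl n B k ^ (α / 2)) *
            mk T f B (k + 1) (idx B (k + 1) x)) := by
  obtain ⟨C, hC, h1⟩ := heat_large (n := n) p hp
  set γ := α / 2 with hγ
  have hγ0 : 0 < γ := by rw [hγ]; linarith
  have hG := Real.Gamma_pos_of_pos hγ0
  refine ⟨C, hC, fun T hT f B hB d F hF x => ?_⟩
  have h2 : bessel α f = fm (hm n 0 * bsym n 1 (-γ)) f := by
    unfold bessel
    rw [fm]
    congr 2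
    ext ξ
    simp only [Pi.mul_apply, hm, bsym]
    have e1 : -α / 2 = -γ := by rw [hγ]; ring
    rw [e1]
    simp
  rw [h2]
  refine (subord_le γ 1 0 hγ0 one_pos f x).trans ?_
  have hsplit : ∫⁻ s in Set.Ioi (0 : ℝ), ENNReal.ofReal (s ^ (γ - 1) * Real.exp (-(s * 1 ^ 2))) *
        ‖heat (Real.sqrt (0 ^ 2 + s)) f x‖ₑ ≤
      (∫⁻ s in Set.Ioc (0 : ℝ) 1, ENNReal.ofReal (s ^ (γ - 1)) * ‖heat (Real.sqrt s) f x‖ₑ) +
      ENNReal.ofReal (Real.Gamma γ) * (C * hardy T p f ^ p⁻¹) := by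
    have hu : Set.Ioi (0 : ℝ) = Set.Ioc 0 1 ∪ Set.Ioi 1 := by
      rw [Set.Ioc_union_Ioi_eq_Ioi zero_le_one]
    conv_lhs => rw [hu]
    refine (lintegral_union_le _ _ _).trans ?_
    gcongr ?_ + ?_
    · refine setLIntegral_mono' measurableSet_Ioc fun s hs => ?_
      have hs0 : 0 < s := hs.1
      have e2 : (0 : ℝ) ^ 2 + s = s := by ring
      rw [e2]
      gcongr
      refine mul_le_of_le_one_right (by positivity) ?_
      rw [Real.exp_le_one_iff]
      linarith
    · have hΓ : ∫⁻ s in Set.Ioi (0 : ℝ), ENNReal.ofReal (s ^ (γ - 1) * Real.exp (-(s * 1 ^ 2))) =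
          ENNReal.ofReal (Real.Gamma γ) := by
        rw [← ofReal_integral_eq_lintegral_ofReal (integrableOn_gamma γ 1 hγ0 one_pos)]
        · congr 1
          have := gamma_id γ 1 hγ0 one_pos 0 le_rfl
          simp only [add_zero, one_pow, Real.one_rpow, mul_one] at this
          rw [← this]
          simp
        · refine (ae_restrict_iff' measurableSet_Ioi).2 (Filter.Eventually.of_forall fun s hs => ?_)
          have : (0 : ℝ) < s := hs
          positivity
      calc ∫⁻ s in Set.Ioi (1 : ℝ), ENNReal.ofReal (s ^ (γ - 1) * Real.exp (-(s * 1 ^ 2))) *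
            ‖heat (Real.sqrt (0 ^ 2 + s)) f x‖ₑ
          ≤ ∫⁻ s in Set.Ioi (1 : ℝ), ENNReal.ofReal (s ^ (γ - 1) * Real.exp (-(s * 1 ^ 2))) *
            (C * hardy T p f ^ p⁻¹) := by
            refine setLIntegral_mono' measurableSet_Ioi fun s hs => ?_
            have e2 : (0 : ℝ) ^ 2 + s = s := by ring
            rw [e2]
            gcongr
            exact h1 T hT f s hs x
        _ ≤ ∫⁻ s in Set.Ioi (0 : ℝ), ENNReal.ofReal (s ^ (γ - 1) * Real.exp (-(s * 1 ^ 2))) *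
            (C * hardy T p f ^ p⁻¹) :=
            lintegral_mono_set (Set.Ioi_subset_Ioi zero_le_one)
        _ = _ := by
            rw [lintegral_mul_const, hΓ]
            exact ((measurable_id.pow_const _).mul (by fun_prop)).ennreal_ofReal
  refine (mul_le_mul' le_rfl hsplit).trans ?_
  rw [mul_add]
  have h3 : ENNReal.ofReal ((Real.Gamma γ)⁻¹) * (ENNReal.ofReal (Real.Gamma γ) *
      (C * hardy T p f ^ p⁻¹)) = C * hardy T p f ^ p⁻¹ := by
    rw [← mul_assoc, ← ENNReal.ofReal_mul (by positivity), inv_mul_cancel₀ hG.ne',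
      ENNReal.ofReal_one, one_mul]
  rw [h3, add_comm, add_assoc]
  gcongr
  rw [← Finset.mul_sum, ← mul_add]
  gcongr
  exact small_part hT f hB hn γ hγ0 d F hF x

end Pool.Agent.Helper41K9.BH
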