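import Mathlib
import Pool.Agent.Helper41K9.BH.LowerB2

set_option autoImplicit false

open MeasureTheory SchwartzMap FourierTransform
open scoped ENNReal SchwartzMap ContDiff

noncomputable section

namespace Pool.Agent.Helper41K9.BH

variable {n : ℕ}

/-- Increments of the infima. -/
def DD (T : ℝ≥0∞) (p : ℝ) (f : 𝓢(E n, ℂ)) (B : ℕ) : ℕ → Idx n → ℝ≥0∞
  | 0, m => mk T f B 0 m ^ p
  | i + 1, m => mk T f B (i + 1) m ^ p - mk T f B i (par B m) ^ p

lemma mk_mono {T : ℝ≥0∞} (f : 𝓢(E n, ℂ)) {B : ℕ} (hB : 0 < B) (i : ℕ) (m : Idx n) :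
    mk T f B i (par B m) ≤ mk T f B (i + 1) m := by
  refine le_iInf₂ fun y hy => iInf₂_le y ?_
  have h1 : idx B (i + 1) y = m := hy
  have h2 := par_idx hB i y
  rw [h1] at h2
  exact h2.symm

lemma mk_le_sum {T : ℝ≥0∞} (p : ℝ) (f : 𝓢(E n, ℂ)) {B : ℕ} (hB : 0 < B) (x : E n) (k : ℕ) :
    mk T f B k (idx B k x) ^ p ≤ ∑ i ∈ Finset.range (k + 1), DD T p f B i (idx B i x) := by
  induction k with
  | zero => simp [DD]
  | succ k ih =>
    rw [Finset.sum_range_succ]
    have h1 : mk T f B (k + 1) (idx B (k + 1) x) ^ p ≤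
        (mk T f B (k + 1) (idx B (k + 1) x) ^ p - mk T f B k (idx B k x) ^ p) +
          mk T f B k (idx B k x) ^ p := le_tsub_add
    refine h1.trans ?_
    rw [add_comm]
    refine add_le_add ih (le_of_eq ?_)
    rw [DD, par_idx hB]

/-- Volume of a cube of generation `i`. -/
def vol (n B i : ℕ) : ℝ≥0∞ := ENNReal.ofReal ((((B : ℝ) ^ i) ^ n)⁻¹)

lemma card_chil {B : ℕ} (m : Idx n) : (chil B m).card = B ^ n := by
  unfold chil
  rw [Fintype.card_piFinset]
  have : ∀ i : Fin n, (Finset.Ico ((B : ℤ) * m i) ((B : ℤ) * (m i + 1))).card = B := by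
    intro i
    rw [Int.card_Ico]
    have : (B : ℤ) * (m i + 1) - (B : ℤ) * m i = B := by ring
    rw [this]
    simp
  simp_rw [this]
  rw [Finset.prod_const, Finset.card_univ, Fintype.card_fin]

lemma vol_succ {B : ℕ} (hB : 0 < B) (i : ℕ) : (B ^ n : ℕ) * vol n B (i + 1) = vol n B i := by
  unfold vol
  have hB' : (0 : ℝ) < (B : ℝ) := by exact_mod_cast hB
  rw [← ENNReal.ofReal_natCast, ← ENNReal.ofReal_mul (by positivity)]
  congr 1
  push_cast
  rw [pow_succ, mul_pow]
  field_simp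

/-- The weighted sums telescope. -/
lemma telescope {T : ℝ≥0∞} (p : ℝ) (hp : 0 < p) (f : 𝓢(E n, ℂ)) {B : ℕ} (hB : 0 < B) (d : ℕ) :
    ∑ i ∈ Finset.range (d + 1), ∑' m, vol n B i * DD T p f B i m =
      ∑' m, vol n B d * mk T f B d m ^ p := by
  induction d with
  | zero => simp [DD]
  | succ d ih =>
    rw [Finset.sum_range_succ, ih]
    have h1 : ∑' m, vol n B d * mk T f B d m ^ p =
        ∑' m' : Idx n, vol n B (d + 1) * mk T f B d (par B m') ^ p := by
      rw [← tsum_chil hB (fun m' => vol n B (d + 1) * mk T f B d (par B m') ^ p)]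
      refine tsum_congr fun m => ?_
      have h2 : ∀ m' ∈ chil B m, vol n B (d + 1) * mk T f B d (par B m') ^ p =
          vol n B (d + 1) * mk T f B d m ^ p := by
        intro m' hm'
        rw [(mem_chil hB _ _).1 hm']
      rw [Finset.sum_congr rfl h2, Finset.sum_const, card_chil, nsmul_eq_mul, ← mul_assoc,
        vol_succ hB]
    rw [h1, ← ENNReal.tsum_add]
    refine tsum_congr fun m => ?_
    rw [← mul_add, DD, add_tsub_cancel_of_le]
    exact ENNReal.rpow_le_rpow (mk_mono f hB d m) hp.le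

lemma level_le {T : ℝ≥0∞} (p : ℝ) (hp : 0 < p) (f : 𝓢(E n, ℂ)) {B : ℕ} (hB : 0 < B) (d : ℕ) :
    ∑' m, vol n B d * mk T f B d m ^ p ≤ hardy T p f := by
  unfold hardy
  rw [← tsum_lintegral_Q B d]
  refine ENNReal.tsum_le_tsum fun m => ?_
  calc vol n B d * mk T f B d m ^ p = ∫⁻ _x in Q B d m, mk T f B d m ^ p := by
        rw [setLIntegral_const, volume_Q hB, mul_comm]
        rfl
    _ ≤ _ := by
        refine setLIntegral_mono' (measurableSet_Q B d m) fun x hx => ?_
        gcongr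
        exact iInf₂_le x hx

/-- Summation by parts. -/
lemma abel_sum (ρ : ℝ≥0∞) (D : ℕ → ℝ≥0∞) (d : ℕ) :
    ∑ k ∈ Finset.range (d + 1), ρ ^ k * ∑ i ∈ Finset.range (k + 1), D i ≤
      (∑' k : ℕ, ρ ^ k) * ∑ i ∈ Finset.range (d + 1), ρ ^ i * D i := by
  set g := ∑' k : ℕ, ρ ^ k with hg
  have hg1 : 1 + ρ * g = g := by
    rw [hg]
    conv_rhs => rw [tsum_eq_zero_add' ENNReal.summable]
    rw [pow_zero, ← ENNReal.tsum_mul_left]
    congr 1
    refine tsum_congr fun k => ?_
    rw [pow_succ']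
  have key : ∀ d, (∑ k ∈ Finset.range (d + 1), ρ ^ k * ∑ i ∈ Finset.range (k + 1), D i) +
      g * ρ ^ (d + 1) * ∑ i ∈ Finset.range (d + 1), D i =
      g * ∑ i ∈ Finset.range (d + 1), ρ ^ i * D i := by
    intro d
    induction d with
    | zero =>
      simp only [zero_add, Finset.sum_range_one, pow_zero, pow_one, one_mul]
      calc D 0 + g * ρ * D 0 = (1 + ρ * g) * D 0 := by ring
        _ = _ := by rw [hg1]
    | succ d ih =>
      rw [Finset.sum_range_succ _ (d + 1), Finset.sum_range_succ (fun i => ρ ^ i * D i) (d + 1),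
        mul_add g, ← ih]
      set S := ∑ k ∈ Finset.range (d + 1), ρ ^ k * ∑ i ∈ Finset.range (k + 1), D i
      rw [Finset.sum_range_succ D (d + 1)]
      set W := ∑ i ∈ Finset.range (d + 1), D i
      calc S + ρ ^ (d + 1) * (W + D (d + 1)) + g * ρ ^ (d + 1 + 1) * (W + D (d + 1))
          = S + ρ ^ (d + 1) * (1 + ρ * g) * (W + D (d + 1)) := by ring
        _ = _ := by rw [hg1]; ring
  rw [← key d]
  exact le_self_add

end Pool.Agent.Helper41K9.BH
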