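import Mathlib
import Pool.Agent.Helper41K9.BH.LowerB3

set_option autoImplicit false

open MeasureTheory SchwartzMap FourierTransform
open scoped ENNReal SchwartzMap ContDiff

noncomputable section

namespace Pool.Agent.Helper41K9.BH

variable {n : ℕ}

lemma dl_rpow (α : ℝ) (B k : ℕ) (hB : 0 < B) :
    dl n B k ^ (α / 2) = (n : ℝ) ^ (α / 2) * ((B : ℝ) ^ (-α)) ^ k := by
  have hB' : (0 : ℝ) < (B : ℝ) := by exact_mod_cast hB
  unfold dl
  rw [Real.mul_rpow (by positivity) (by positivity)]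
  congr 1
  rw [← Real.rpow_natCast, ← Real.rpow_natCast, ← Real.rpow_neg hB'.le, ← Real.rpow_natCast,
    ← Real.rpow_mul hB'.le, ← Real.rpow_mul hB'.le, ← Real.rpow_mul hB'.le]
  congr 1
  push_cast
  ring

lemma lowerB (hn : 0 < n) (α p : ℝ) (hα : 0 < α) (hp : 0 < p) (hp1 : p ≤ 1) (M : ℕ) (hM : 0 < M)
    (r : ℝ≥0∞) (hr : r ≤ ENNReal.ofReal (((2 : ℝ) ^ M) ^ (α * p - n))) :
    ∃ C c : ℝ≥0∞, C ≠ ⊤ ∧ c ≠ 0 ∧ ∀ (T : ℝ≥0∞), 1 ≤ T → ∀ (K : Set (E n)) (f : 𝓢(E n, ℂ)),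
      AtLeastOneOn K (bessel α f) → hardy T p f ≤ c →
      ∃ d, ∑' m, cont (2 ^ M) K r d 0 m ≤ C * hardy T p f := by
  obtain ⟨CL, hCL, hpt⟩ := bessel_pointwise (n := n) α p hα hp hn
  set B : ℕ := 2 ^ M with hBdef
  have hB : 0 < B := by positivity
  have hBr : (B : ℝ) = (2 : ℝ) ^ M := by rw [hBdef]; push_cast; rfl
  have hB1 : (1 : ℝ) < (B : ℝ) := by
    rw [hBr]; exact one_lt_pow₀ (by norm_num) (by omega)
  set γ := α / 2 with hγ
  have hγ0 : 0 < γ := by rw [hγ]; linarith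
  have hG := Real.Gamma_pos_of_pos hγ0
  set A : ℝ := (Real.Gamma γ)⁻¹ * (γ⁻¹ * (n : ℝ) ^ γ) with hA
  have hA0 : 0 ≤ A := by positivity
  set b : ℝ := (B : ℝ) ^ (-α) with hb
  have hb0 : 0 < b := by positivity
  have hb1 : b < 1 := Real.rpow_lt_one_of_one_lt_of_neg hB1 (by linarith)
  set ρ : ℝ≥0∞ := ENNReal.ofReal (b ^ p) with hρ
  have hρ0 : ρ ≠ 0 := by
    rw [hρ, Ne, ENNReal.ofReal_eq_zero, not_le]
    positivity
  have hρt : ρ ≠ ⊤ := ENNReal.ofReal_ne_top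
  have hρ1 : ρ < 1 := by
    rw [hρ, ENNReal.ofReal_lt_one]
    exact Real.rpow_lt_one hb0.le hb1 hp
  set g : ℝ≥0∞ := ∑' k : ℕ, ρ ^ k with hg
  have hgt : g ≠ ⊤ := by
    rw [hg, ENNReal.tsum_geometric]
    exact ENNReal.inv_ne_top.2 (tsub_pos_of_lt hρ1).ne'
  set c₂ : ℝ≥0∞ := ENNReal.ofReal (A ^ p) with hc₂
  set W : ℝ≥0∞ := 2 * c₂ * g * ρ⁻¹ with hW
  have hWt : W ≠ ⊤ := by
    refine ENNReal.mul_ne_top (ENNReal.mul_ne_top (ENNReal.mul_ne_top (by norm_num)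
      ENNReal.ofReal_ne_top) hgt) (ENNReal.inv_ne_top.2 hρ0)
  refine ⟨W, (4 * (CL ^ p + 1))⁻¹, hWt, ?_, fun T hT K f hf hsmall => ?_⟩
  · rw [Ne, ENNReal.inv_eq_zero]
    exact ENNReal.mul_ne_top (by norm_num) (ENNReal.add_ne_top.2
      ⟨ENNReal.rpow_ne_top_of_nonneg hp.le hCL, ENNReal.one_ne_top⟩)
  obtain ⟨F, hFt, hF⟩ := heat_bdd f
  -- the coefficients
  have hcoef : ∀ k : ℕ, ENNReal.ofReal ((Real.Gamma γ)⁻¹) *
      ENNReal.ofReal (γ⁻¹ * dl n B k ^ γ) = ENNReal.ofReal (A * b ^ k) := by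
    intro k
    rw [← ENNReal.ofReal_mul (by positivity), hγ, dl_rpow α B k hB, ← hγ, hA]
    congr 1
    ring
  have hcoefp : ∀ k : ℕ, ENNReal.ofReal (A * b ^ k) ^ p = c₂ * ρ ^ k := by
    intro k
    rw [ENNReal.ofReal_rpow_of_nonneg (by positivity) hp.le, Real.mul_rpow hA0 (by positivity),
      ENNReal.ofReal_mul (by positivity), hc₂, hρ, ← ENNReal.ofReal_pow (by positivity)]
    congr 2
    rw [← Real.rpow_natCast, ← Real.rpow_natCast, ← Real.rpow_mul hb0.le, ← Real.rpow_mul hb0.le,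
      mul_comm]
  -- choice of d
  obtain ⟨ε, hε, hε2⟩ : ∃ ε : ℝ, 0 < ε ∧ ENNReal.ofReal ε ^ p ≤ 4⁻¹ := by
    refine ⟨(4⁻¹ : ℝ) ^ p⁻¹, by positivity, ?_⟩
    rw [← ENNReal.ofReal_rpow_of_pos (by norm_num), ← ENNReal.rpow_mul, inv_mul_cancel₀ hp.ne',
      ENNReal.rpow_one, ENNReal.ofReal_inv_of_pos (by norm_num)]
    simp
  have hlim : Filter.Tendsto (fun d : ℕ => F.toReal * (A * b ^ d)) Filter.atTop (nhds 0) := by
    have := ((tendsto_pow_atTop_nhds_zero_of_lt_one hb0.le hb1).const_mul A).const_mul F.toReal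
    simpa using this
  obtain ⟨d, hd⟩ := (hlim.eventually_le_const hε).exists
  have htail : (ENNReal.ofReal ((Real.Gamma γ)⁻¹) *
        (F * ENNReal.ofReal (γ⁻¹ * dl n B d ^ γ))) ^ p ≤ 4⁻¹ := by
    refine le_trans (ENNReal.rpow_le_rpow ?_ hp.le) hε2
    calc ENNReal.ofReal ((Real.Gamma γ)⁻¹) * (F * ENNReal.ofReal (γ⁻¹ * dl n B d ^ γ))
        = F * (ENNReal.ofReal ((Real.Gamma γ)⁻¹) * ENNReal.ofReal (γ⁻¹ * dl n B d ^ γ)) := by ring
      _ = ENNReal.ofReal (F.toReal * (A * b ^ d)) := by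
        rw [hcoef, ENNReal.ofReal_mul ENNReal.toReal_nonneg, ENNReal.ofReal_toReal hFt]
      _ ≤ _ := ENNReal.ofReal_le_ofReal hd
  have hHterm : (CL * hardy T p f ^ p⁻¹) ^ p ≤ 4⁻¹ := by
    rw [ENNReal.mul_rpow_of_nonneg _ _ hp.le, ← ENNReal.rpow_mul, inv_mul_cancel₀ hp.ne',
      ENNReal.rpow_one]
    have hX0 : CL ^ p + 1 ≠ 0 := by simp
    have hXt : CL ^ p + 1 ≠ ⊤ := ENNReal.add_ne_top.2
      ⟨ENNReal.rpow_ne_top_of_nonneg hp.le hCL, ENNReal.one_ne_top⟩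
    calc CL ^ p * hardy T p f ≤ (CL ^ p + 1) * (4 * (CL ^ p + 1))⁻¹ :=
          mul_le_mul' le_self_add hsmall
      _ = 4⁻¹ * ((CL ^ p + 1) * (CL ^ p + 1)⁻¹) := by
          rw [ENNReal.mul_inv (Or.inr hXt) (Or.inr hX0)]
          ring
      _ = _ := by rw [ENNReal.mul_inv_cancel hX0 hXt, mul_one]
  refine ⟨d, ?_⟩
  set w : ℕ → Idx n → ℝ≥0∞ := fun i m => W * (ρ ^ i * DD T p f B i m) with hw
  have hcover : ∀ x ∈ K, 1 ≤ ∑ i ∈ Finset.range (d + 1), w i (idx B i x) := by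
    intro x hx
    have h1 : (1 : ℝ≥0∞) ≤ ‖bessel α f x‖ₑ ^ p := by
      have h2 : (1 : ℝ) ≤ ‖bessel α f x‖ := (hf.2 x hx).trans (Complex.re_le_norm _)
      have h3 : (1 : ℝ≥0∞) ≤ ‖bessel α f x‖ₑ := by
        rw [← ofReal_norm, ENNReal.one_le_ofReal]
        exact h2
      exact ENNReal.one_le_rpow h3 hp
    set S := ∑ k ∈ Finset.range d, c₂ * ρ ^ k * mk T f B (k + 1) (idx B (k + 1) x) ^ p with hS
    have h4 : ‖bessel α f x‖ₑ ^ p ≤ 4⁻¹ + 4⁻¹ + S := by
      refine (ENNReal.rpow_le_rpow (hpt T hT f B hB d F hF x) hp.le).trans ?_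
      refine (enorm_add_rpow p hp hp1 _ _).trans (add_le_add ?_ ?_)
      · exact (enorm_add_rpow p hp hp1 _ _).trans (add_le_add hHterm htail)
      · refine (rpow_sum_le p hp hp1 _ _).trans (le_of_eq ?_)
        rw [hS]
        refine Finset.sum_congr rfl fun k _ => ?_
        rw [← mul_assoc, hcoef, ENNReal.mul_rpow_of_nonneg _ _ hp.le, hcoefp]
    have h5 : (2⁻¹ : ℝ≥0∞) ≤ S := by
      have h6 : (1 : ℝ≥0∞) ≤ 4⁻¹ + 4⁻¹ + S := h1.trans h4
      have h7 : (4⁻¹ : ℝ≥0∞) + 4⁻¹ = 2⁻¹ := by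
        have : (4 : ℝ≥0∞) = 2 * 2 := by norm_num
        rw [this, ENNReal.mul_inv (by simp) (by simp), ← mul_add, ENNReal.inv_two_add_inv_two,
          mul_one]
      rw [h7, ← ENNReal.inv_two_add_inv_two] at h6
      exact (ENNReal.add_le_add_iff_left (by simp)).1 h6
    have h8 : ρ * S ≤ c₂ * (g * ∑ i ∈ Finset.range (d + 1), ρ ^ i * DD T p f B i (idx B i x)) := by
      calc ρ * S = c₂ * ∑ k ∈ Finset.range d,
            ρ ^ (k + 1) * mk T f B (k + 1) (idx B (k + 1) x) ^ p := by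
            rw [hS, Finset.mul_sum, Finset.mul_sum]
            refine Finset.sum_congr rfl fun k _ => ?_
            rw [pow_succ]
            ring
        _ ≤ c₂ * ∑ k ∈ Finset.range (d + 1), ρ ^ k * mk T f B k (idx B k x) ^ p := by
            rw [Finset.sum_range_succ' _ d]
            gcongr
            exact le_self_add
        _ ≤ c₂ * ∑ k ∈ Finset.range (d + 1), ρ ^ k *
              ∑ i ∈ Finset.range (k + 1), DD T p f B i (idx B i x) := by
            gcongr with k hk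
            exact mk_le_sum p f hB x k
        _ ≤ _ := by
            gcongr
            exact abel_sum ρ (fun i => DD T p f B i (idx B i x)) d
    calc (1 : ℝ≥0∞) = 2 * 2⁻¹ := (ENNReal.mul_inv_cancel (by norm_num) (by norm_num)).symm
      _ ≤ 2 * S := by gcongr
      _ = 2 * ρ⁻¹ * (ρ * S) := by
          rw [mul_assoc, ← mul_assoc ρ⁻¹, ENNReal.inv_mul_cancel hρ0 hρt, one_mul]
      _ ≤ 2 * ρ⁻¹ * (c₂ * (g * ∑ i ∈ Finset.range (d + 1),
            ρ ^ i * DD T p f B i (idx B i x))) := by gcongr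
      _ = ∑ i ∈ Finset.range (d + 1), w i (idx B i x) := by
          rw [hw]
          simp only
          rw [← Finset.mul_sum, hW]
          ring
  refine (cont_le_tsum hB K r w d hcover).trans ?_
  have hρr : ∀ i : ℕ, ρ ^ i * r ^ i ≤ vol n B i := by
    intro i
    rw [← mul_pow]
    have h9 : ρ * r ≤ ENNReal.ofReal ((B : ℝ) ^ (-(n : ℝ))) := by
      calc ρ * r ≤ ENNReal.ofReal (b ^ p) * ENNReal.ofReal (((2 : ℝ) ^ M) ^ (α * p - n)) := by
            gcongr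
        _ = _ := by
            rw [← hBr, ← ENNReal.ofReal_mul (by positivity), hb, ← Real.rpow_mul (by positivity),
              ← Real.rpow_add (by positivity)]
            congr 2
            ring
    calc (ρ * r) ^ i ≤ ENNReal.ofReal ((B : ℝ) ^ (-(n : ℝ))) ^ i := by gcongr
      _ = vol n B i := by
          unfold vol
          rw [← ENNReal.ofReal_pow (by positivity)]
          congr 1
          rw [Real.rpow_neg (by positivity), Real.rpow_natCast, inv_pow, ← pow_mul, ← pow_mul,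
            mul_comm]
  calc ∑ i ∈ Finset.range (d + 1), ∑' m, w i m * r ^ i
      ≤ ∑ i ∈ Finset.range (d + 1), ∑' m, W * (vol n B i * DD T p f B i m) := by
        refine Finset.sum_le_sum fun i _ => ENNReal.tsum_le_tsum fun m => ?_
        calc W * (ρ ^ i * DD T p f B i m) * r ^ i = W * (ρ ^ i * r ^ i * DD T p f B i m) := by ring
          _ ≤ _ := by
            gcongr
            exact hρr i
    _ = W * ∑ i ∈ Finset.range (d + 1), ∑' m, vol n B i * DD T p f B i m := by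
        rw [Finset.mul_sum]
        refine Finset.sum_congr rfl fun i _ => ?_
        rw [ENNReal.tsum_mul_left]
    _ ≤ W * hardy T p f := by
        rw [telescope p hp f hB d]
        gcongr
        exact level_le p hp f hB d

end Pool.Agent.Helper41K9.BH
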