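import Mathlib
import Pool.Agent.Helper41K9.BH.Atom

set_option autoImplicit false

open MeasureTheory SchwartzMap FourierTransform
open scoped ENNReal SchwartzMap ContDiff

noncomputable section

namespace Pool.Agent.Helper41K9.BH

variable {n : ℕ}

/-- An index as a point. -/
def toE (m : Idx n) : E n := WithLp.toLp 2 fun i => (m i : ℝ)

lemma isRe_DS (h : E n) (g : 𝓢(E n, ℂ)) (hg : IsRe g) : IsRe (DS h g) := by
  refine ⟨fun x => by rw [DS_apply, Complex.sub_im, hg.1, hg.1, sub_zero], ?_⟩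
  have h1 : HasCompactSupport fun x => g (x - h) := hg.2.comp_homeomorph (Homeomorph.subRight h)
  exact hg.2.sub h1

lemma isRe_DS_iter (h : E n) (L : ℕ) (g : 𝓢(E n, ℂ)) (hg : IsRe g) : IsRe ((DS h)^[L] g) := by
  induction L generalizing g with
  | zero => exact hg
  | succ L ih => rw [Function.iterate_succ_apply]; exact ih _ (isRe_DS h g hg)

lemma isRe_dil (a : ℝ) (ha : a ≠ 0) (b : E n) (g : 𝓢(E n, ℂ)) (hg : IsRe g) :
    IsRe (dil a ha b g) := by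
  refine ⟨fun x => by rw [dil_apply, hg.1], ?_⟩
  exact (hg.2.comp_homeomorph (Homeomorph.subRight b)).comp_homeomorph
    (Homeomorph.smulOfNeZero a ha)

/-- The sign pattern of a child. -/
def sgn (B : ℕ) (m' : Idx n) : Fin n → Bool := fun i => decide (2 * (m' i % (B : ℤ)) < B)

lemma par_of_near {B : ℕ} (hB : 0 < B) (k : ℕ) (m' : Idx n) (x : E n) (i : Fin n) (W : ℝ)
    (hW : 2 * (2 + W) ≤ B)
    (h1 : sgn B m' i = true → 2 < (B : ℝ) ^ (k + 1) * x i - m' i ∧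
      (B : ℝ) ^ (k + 1) * x i - m' i < 2 + W)
    (h2 : sgn B m' i = false → -1 - W < (B : ℝ) ^ (k + 1) * x i - m' i ∧
      (B : ℝ) ^ (k + 1) * x i - m' i < -1) : idx B k x i = par B m' i := by
  rw [← par_idx hB]
  unfold par idx
  set z := (B : ℝ) ^ (k + 1) * x i with hz
  have hB' : (0 : ℤ) < (B : ℤ) := by exact_mod_cast hB
  have hj0 : 0 ≤ m' i % (B : ℤ) := Int.emod_nonneg _ hB'.ne'
  have hj1 : m' i % (B : ℤ) < B := Int.emod_lt_of_pos _ hB'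
  have hdiv := Int.mul_ediv_add_emod (m' i) (B : ℤ)
  set q := m' i / (B : ℤ) with hq
  set j := m' i % (B : ℤ) with hj
  have hj0' : (0 : ℝ) ≤ (j : ℝ) := by exact_mod_cast hj0
  have hj1' : (j : ℝ) + 1 ≤ (B : ℝ) := by exact_mod_cast hj1
  have hdiv' : (B : ℝ) * (q : ℝ) + (j : ℝ) = (m' i : ℝ) := by exact_mod_cast hdiv
  rw [Int.ediv_eq_iff_of_pos hB']
  have key : (B : ℝ) * q ≤ z ∧ z < (B : ℝ) * q + B := by
    cases hs : sgn B m' i
    · have h3 := h2 hs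
      have h4 : (B : ℤ) ≤ 2 * j := by
        unfold sgn at hs
        rw [decide_eq_false_iff_not] at hs
        linarith
      have h4' : (B : ℝ) ≤ 2 * j := by exact_mod_cast h4
      constructor <;> linarith [h3.1, h3.2]
    · have h3 := h1 hs
      have h4 : 2 * j < (B : ℤ) := by
        unfold sgn at hs
        rw [decide_eq_true_iff] at hs
        linarith
      have h4' : 2 * (j : ℝ) < (B : ℝ) := by exact_mod_cast h4
      constructor <;> linarith [h3.1, h3.2]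
  constructor
  · have h5 : (((q * B : ℤ)) : ℝ) ≤ z := by push_cast; linarith [key.1]
    exact Int.le_floor.2 h5
  · have h5 : z < (((q * B + B : ℤ)) : ℝ) := by push_cast; linarith [key.2]
    exact Int.floor_lt.2 h5

lemma exists_atoms (hn : 0 < n) (cost : 𝓢(E n, ℂ) → ℝ≥0∞) (hc0 : cost 0 = 0)
    (hcadd : ∀ u v, cost (u + v) ≤ cost u + cost v)
    (hcsm : ∀ (c : ℂ) (u), ‖c‖ ≤ 1 → cost (c • u) ≤ cost u)
    (e : ℝ) (L V M : ℕ) (hV : 0 < V) (hB : 2 * (2 + 3 * L * V) ≤ 2 ^ M)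
    (hdil : ∀ (h : E n) (η : 𝓢(E n, ℂ)), ∃ C : ℝ≥0∞, C ≠ ⊤ ∧
      ∀ (q : ℕ) (hq : (2 : ℝ) ^ q ≠ 0) (b : E n),
        cost (dil ((2 : ℝ) ^ q) hq b ((DS h)^[L] η)) ≤ C * ENNReal.ofReal (((2 : ℝ) ^ q) ^ e)) :
    ∃ C₀ : ℝ≥0∞, C₀ ≠ ⊤ ∧ ∀ (k : ℕ) (m' : Idx n), ∃ a : 𝓢(E n, ℂ), IsRe a ∧
      (∀ x, idx (2 ^ M) (k + 1) x = m' → 1 - (2 : ℝ) ^ L / (V : ℝ) ^ n ≤ (a x).re) ∧
      (∀ x, idx (2 ^ M) k x = par (2 ^ M) m' → -((2 : ℝ) ^ L / (V : ℝ) ^ n) ≤ (a x).re) ∧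
      (∀ x, idx (2 ^ M) k x ≠ par (2 ^ M) m' → 0 ≤ (a x).re) ∧
      cost a ≤ C₀ * ENNReal.ofReal (((2 : ℝ) ^ M) ^ e) ^ (k + 1) := by
  obtain ⟨η, him, h0, h1, h2, h3⟩ := exists_eta n
  choose C hC hCb using fun h : E n => hdil h η
  refine ⟨∑ s : Fin n → Bool, ∑ v : Fin n → Fin V, C (hv s v), ?_, fun k m' => ?_⟩
  · refine (ENNReal.sum_lt_top.2 fun s _ => ENNReal.sum_lt_top.2 fun v _ => ?_).ne
    exact (hC _).lt_top
  set B : ℕ := 2 ^ M with hBdef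
  have hB0 : 0 < B := by positivity
  set q : ℕ := M * (k + 1) with hq
  have hq0 : (2 : ℝ) ^ q ≠ 0 := by positivity
  have hBq : (B : ℝ) ^ (k + 1) = (2 : ℝ) ^ q := by
    rw [hBdef, hq, pow_mul]
    push_cast
    rfl
  set s := sgn B m' with hs
  set a : 𝓢(E n, ℂ) := ((((V : ℝ) ^ n)⁻¹ : ℝ) : ℂ) • ∑ v : Fin n → Fin V,
    dil ((2 : ℝ) ^ q) hq0 (toE m') ((DS (hv s v))^[L] η) with ha
  have hare : ∀ x, (a x).re = atomR η V L s ((2 : ℝ) ^ q • x - toE m') := by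
    intro x
    rw [ha, smul_apply, schwartz_sum_apply, smul_eq_mul, Complex.re_ofReal_mul, Complex.re_sum]
    rfl
  have hyi : ∀ (x : E n) (i : Fin n), ((2 : ℝ) ^ q • x - toE m') i =
      (B : ℝ) ^ (k + 1) * x i - m' i := by
    intro x i
    rw [hBq]
    rfl
  refine ⟨a, ?_, ?_, ?_, ?_, ?_⟩
  · rw [ha]
    exact isRe_smul (isRe_sum _ _ fun v _ => isRe_dil _ _ _ _ (isRe_DS_iter _ _ _ him)) _
  · intro x hx
    have h4 : (a x).re = 1 := by
      rw [hare]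
      refine atomR_child h2 h3 hn V L hV s _ fun i => ?_
      rw [hyi]
      have h5 := congrFun hx i
      unfold idx at h5
      rw [Int.floor_eq_iff] at h5
      constructor <;> linarith [h5.1, h5.2]
    rw [h4]
    have : (0 : ℝ) ≤ (2 : ℝ) ^ L / (V : ℝ) ^ n := by positivity
    linarith
  · intro x _
    rw [hare]
    exact atomR_lower h0 h1 h3 V L hV s _
  · intro x hx
    by_contra hneg
    push Not at hneg
    rw [hare] at hneg
    apply hx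
    funext i
    have h5 := atomR_off h0 h3 V L hV s _ hneg i
    rw [hyi] at h5
    exact par_of_near hB0 k m' x i (3 * L * V) (by exact_mod_cast hB) h5.1 h5.2
  · have h6 : cost a ≤ ∑ v : Fin n → Fin V,
        cost (dil ((2 : ℝ) ^ q) hq0 (toE m') ((DS (hv s v))^[L] η)) := by
      refine (hcsm _ _ ?_).trans (cost_sum cost hc0 hcadd _ _)
      rw [Complex.norm_real, Real.norm_of_nonneg (by positivity)]
      have : (1 : ℝ) ≤ (V : ℝ) ^ n := one_le_pow₀ (by exact_mod_cast hV)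
      exact inv_le_one_of_one_le₀ this
    have h7 : ENNReal.ofReal (((2 : ℝ) ^ M) ^ e) ^ (k + 1) = ENNReal.ofReal (((2 : ℝ) ^ q) ^ e) := by
      rw [← ENNReal.ofReal_pow (by positivity)]
      congr 1
      rw [← Real.rpow_natCast, ← Real.rpow_mul (by positivity), mul_comm, Real.rpow_mul
        (by positivity), Real.rpow_natCast, hq, pow_mul]
    rw [h7]
    refine h6.trans ?_
    calc ∑ v : Fin n → Fin V, cost (dil ((2 : ℝ) ^ q) hq0 (toE m') ((DS (hv s v))^[L] η))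
        ≤ ∑ v : Fin n → Fin V, C (hv s v) * ENNReal.ofReal (((2 : ℝ) ^ q) ^ e) :=
          Finset.sum_le_sum fun v _ => hCb _ _ _ _
      _ = (∑ v : Fin n → Fin V, C (hv s v)) * ENNReal.ofReal (((2 : ℝ) ^ q) ^ e) := by
          rw [Finset.sum_mul]
      _ ≤ _ := by
          gcongr
          exact Finset.single_le_sum (f := fun s : Fin n → Bool =>
            ∑ v : Fin n → Fin V, C (hv s v)) (fun _ _ => bot_le) (Finset.mem_univ s)

lemma upper (hn : 0 < n) (cost : 𝓢(E n, ℂ) → ℝ≥0∞) (hc0 : cost 0 = 0)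
    (hcadd : ∀ u v, cost (u + v) ≤ cost u + cost v) (p : ℝ) (hp : 0 < p) (hp1 : p ≤ 1)
    (hcsm : ∀ (c : ℂ) (u), cost (c • u) ≤ ‖c‖ₑ ^ p * cost u)
    (e : ℝ) (he : e ≤ 0) (L V M : ℕ) (hV : 0 < V) (hB : 2 * (2 + 3 * L * V) ≤ 2 ^ M)
    (hκ : 4 * ((2 : ℝ) ^ L / (V : ℝ) ^ n) ≤ ((2 : ℝ) ^ M) ^ e)
    (hdil : ∀ (h : E n) (η : 𝓢(E n, ℂ)), ∃ C : ℝ≥0∞, C ≠ ⊤ ∧
      ∀ (q : ℕ) (hq : (2 : ℝ) ^ q ≠ 0) (b : E n),
        cost (dil ((2 : ℝ) ^ q) hq b ((DS h)^[L] η)) ≤ C * ENNReal.ofReal (((2 : ℝ) ^ q) ^ e)) :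
    ∃ C : ℝ≥0∞, C ≠ ⊤ ∧ ∀ K : Set (E n), IsCompact K → ∀ d : ℕ,
      ∑' m, cont (2 ^ M) K (ENNReal.ofReal (((2 : ℝ) ^ M) ^ e)) d 0 m < 1 →
        ∃ U : 𝓢(E n, ℂ), HasCompactSupport U ∧ AtLeastOneOn K U ∧
          cost U ≤ C * ∑' m, cont (2 ^ M) K (ENNReal.ofReal (((2 : ℝ) ^ M) ^ e)) d 0 m := by
  have hcsm1 : ∀ (c : ℂ) (u), ‖c‖ ≤ 1 → cost (c • u) ≤ cost u := by
    intro c u hc
    refine (hcsm c u).trans (mul_le_of_le_one_left bot_le ?_)
    apply ENNReal.rpow_le_one _ hp.le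
    rw [← ofReal_norm]
    exact ENNReal.ofReal_le_one.2 hc
  have hcmul : ∀ (c : ℝ) (u), 1 ≤ c → cost ((c : ℂ) • u) ≤ ENNReal.ofReal c * cost u := by
    intro c u hc
    refine (hcsm c u).trans ?_
    gcongr
    exact enorm_rpow_le p hp1 c hc
  obtain ⟨C₀, hC₀, hatom⟩ := exists_atoms hn cost hc0 hcadd hcsm1 e L V M hV hB hdil
  refine ⟨2 * C₀, ENNReal.mul_ne_top (by norm_num) hC₀, fun K hK d hd => ?_⟩
  set r : ℝ := ((2 : ℝ) ^ M) ^ e with hr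
  have hr0 : 0 < r := by positivity
  have hr1 : r ≤ 1 := Real.rpow_le_one_of_one_le_of_nonpos (one_le_pow₀ (by norm_num)) he
  have hb := build (B := 2 ^ M) (by positivity) K r ((2 : ℝ) ^ L / (V : ℝ) ^ n) hr0 hr1
    (by positivity) hκ cost hc0 hcadd hcmul C₀ hatom d 0
  have hlt : ∀ m, cont (2 ^ M) K (ENNReal.ofReal r) d 0 m < ENNReal.ofReal r ^ 0 := by
    intro m
    rw [pow_zero]
    exact (ENNReal.le_tsum m).trans_lt hd
  choose U hU1 hU2 hU3 hU4 using fun m => hb m (hlt m)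
  obtain ⟨R, hR⟩ := hK.isBounded.exists_norm_le
  set S : Finset (Idx n) := Fintype.piFinset fun _ => Finset.Icc ⌊-R⌋ ⌊R⌋ with hS
  have hmem : ∀ x ∈ K, idx (2 ^ M) 0 x ∈ S := by
    intro x hx
    rw [hS, Fintype.mem_piFinset]
    intro i
    have h5 : |x i| ≤ R := by
      have := PiLp.norm_apply_le x i
      rw [Real.norm_eq_abs] at this
      exact this.trans (hR x hx)
    rw [abs_le] at h5
    unfold idx
    rw [Finset.mem_Icc, pow_zero, one_mul]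
    exact ⟨Int.floor_le_floor h5.1, Int.floor_le_floor h5.2⟩
  have hre : IsRe (∑ m ∈ S, U m) := isRe_sum _ _ fun m _ => hU1 m
  refine ⟨∑ m ∈ S, U m, hre.2, ⟨hre.1, fun x hx => ?_⟩, ?_⟩
  · rw [schwartz_sum_apply, Complex.re_sum]
    calc (1 : ℝ) ≤ (U (idx (2 ^ M) 0 x) x).re := hU2 _ x hx rfl
      _ = ∑ m ∈ {idx (2 ^ M) 0 x}, (U m x).re := by rw [Finset.sum_singleton]
      _ ≤ ∑ m ∈ S, (U m x).re := by
        refine Finset.sum_le_sum_of_subset_of_nonneg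
          (Finset.singleton_subset_iff.2 (hmem x hx)) fun m _ hm => ?_
        rw [Finset.mem_singleton] at hm
        exact hU3 m x (Ne.symm hm)
  · calc cost (∑ m ∈ S, U m) ≤ ∑ m ∈ S, cost (U m) := cost_sum cost hc0 hcadd _ _
      _ ≤ ∑ m ∈ S, 2 * C₀ * cont (2 ^ M) K (ENNReal.ofReal r) d 0 m :=
        Finset.sum_le_sum fun m _ => hU4 m
      _ = 2 * C₀ * ∑ m ∈ S, cont (2 ^ M) K (ENNReal.ofReal r) d 0 m := by rw [Finset.mul_sum]
      _ ≤ _ := by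
        gcongr
        exact ENNReal.sum_le_tsum _

end Pool.Agent.Helper41K9.BH
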