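import Mathlib
import Pool.Agent.Helper41K9.BH.LowerB4
import Pool.Agent.Helper41K9.BH.Upper

set_option autoImplicit false

open MeasureTheory SchwartzMap FourierTransform
open scoped ENNReal SchwartzMap ContDiff

noncomputable section

namespace Pool.Agent.Helper41K9.BH

variable {n : ℕ}

lemma one_le_cont {B : ℕ} (hB : 0 < B) (K : Set (E n)) (x : E n) (hx : x ∈ K) (d : ℕ) :
    ∀ k, 1 ≤ cont B K 1 d k (idx B k x) := by
  induction d with
  | zero =>
    intro k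
    rw [cont, if_pos ⟨x, hx, rfl⟩, one_pow]
  | succ d ih =>
    intro k
    rw [cont, one_pow]
    refine le_min le_rfl ((ih (k + 1)).trans ?_)
    exact Finset.single_le_sum (f := fun m' => cont B K 1 d (k + 1) m') (fun _ _ => bot_le)
      ((mem_chil hB _ _).2 (par_idx hB k x))

lemma small_mul {C ε : ℝ≥0∞} (hC : C ≠ ⊤) (hε : ε ≠ 0) : ∃ δ : ℝ≥0∞, δ ≠ 0 ∧ C * δ < ε := by
  obtain ⟨q, hq, h⟩ := ENNReal.exists_nnreal_pos_mul_lt hC hε
  exact ⟨q, by exact_mod_cast hq.ne', by rwa [mul_comm]⟩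

lemma capA_lt {φ : E n → ℝ} {α p : ℝ} {D : Set 𝓢(E n, ℂ)} {K : Set (E n)} {δ : ℝ≥0∞}
    (h : capA φ α p D K < δ) : ∃ u : 𝓢(E n, ℂ), AtLeastOneOn K u ∧ besov φ α p u < δ := by
  unfold capA at h
  simp only [iInf_lt_iff] at h
  obtain ⟨u, hu, h⟩ := h
  exact ⟨u, hu.2, h⟩

lemma capB_lt {T : ℝ≥0∞} {α p : ℝ} {D : Set 𝓢(E n, ℂ)} {K : Set (E n)} {δ : ℝ≥0∞}
    (h : capB T α p D K < δ) :
    ∃ f : 𝓢(E n, ℂ), AtLeastOneOn K (bessel α f) ∧ hardy T p f < δ := by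
  unfold capB at h
  simp only [iInf_lt_iff] at h
  obtain ⟨u, hu, h⟩ := h
  exact ⟨u, hu.2, h⟩

lemma capA_le {φ : E n → ℝ} {α p : ℝ} {D : Set 𝓢(E n, ℂ)} {K : Set (E n)} (u : 𝓢(E n, ℂ))
    (hD : u ∈ D) (hu : AtLeastOneOn K u) : capA φ α p D K ≤ besov φ α p u := iInf₂_le u ⟨hD, hu⟩

lemma capB_le {T : ℝ≥0∞} {α p : ℝ} {D : Set 𝓢(E n, ℂ)} {K : Set (E n)} (u : 𝓢(E n, ℂ))
    (hD : u ∈ D) (hu : AtLeastOneOn K u) : capB T α p D K ≤ costB T α p u := by
  obtain ⟨f, hf, hc⟩ := bessel_costB T α p u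
  rw [← hc]
  exact iInf₂_le (f := fun (f : 𝓢(E n, ℂ)) (_ : bessel α f ∈ D ∧ AtLeastOneOn K (bessel α f)) =>
    hardy T p f) f (by rw [hf]; exact ⟨hD, hu⟩)

lemma main_small (hn : 0 < n) (φ : E n → ℝ) (hφ : IsCutoff φ) (α p : ℝ) (hα : 0 < α)
    (hp : 0 < p) (hp1 : p ≤ 1) (hαp : α * p < n) (T : ℝ≥0∞) (hT : 1 ≤ T)
    (D D' : Set 𝓢(E n, ℂ)) (hD : ∀ u : 𝓢(E n, ℂ), HasCompactSupport u → u ∈ D)
    (hD' : ∀ u : 𝓢(E n, ℂ), HasCompactSupport u → u ∈ D') (K : Set (E n))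
    (hK : IsCompact K) : capA φ α p D K = 0 ↔ capB T α p D' K = 0 := by
  set N : ℕ := ⌈((n : ℝ) + 1) / p⌉₊ with hNdef
  have hN : (n + 1 : ℝ) ≤ N * p := by
    have := Nat.le_ceil (((n : ℝ) + 1) / p)
    rwa [div_le_iff₀ hp] at this
  set k : ℕ := ⌊α / 2⌋₊ + 1 with hkdef
  have hk : α / 2 < k := by
    rw [hkdef]
    push_cast
    exact Nat.lt_floor_add_one _
  set L : ℕ := N + (2 * k + 2) with hLdef
  have hL1 : N + (2 * k + 2) ≤ L + n := by omega
  have hL2 : (n + 1 : ℝ) ≤ L * p := by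
    refine hN.trans ?_
    have : (N : ℝ) ≤ L := by exact_mod_cast (by omega : N ≤ L)
    gcongr
  obtain ⟨V, M, hV, hB, hκ⟩ := params (n := n) α p hα hp hαp L
  have hM : 0 < M := by
    rcases Nat.eq_zero_or_pos M with h | h
    · rw [h, pow_zero] at hB
      omega
    · exact h
  set e : ℝ := α * p - n with he
  have he0 : e ≤ 0 := by rw [he]; linarith
  obtain ⟨CA, hCA, hA⟩ := lowerA φ hφ α p hα hp hp1 M hM _ le_rfl
  obtain ⟨CB, cB, hCB, hcB, hBl⟩ := lowerB hn α p hα hp hp1 M hM _ le_rfl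
  obtain ⟨DA, hDA, hUA⟩ := upper hn (besov φ α p) (besov_zero φ α p hp) (besov_add φ α p hp hp1) p
    hp hp1 (fun c u => (besov_smul φ α p hp c u).le) e he0 L V M hV hB hκ
    (fun h η => by
      obtain ⟨C, hC, h1⟩ := besov_dil φ hφ α p hα hp L hL2 h η
      exact ⟨C, hC, h1⟩)
  obtain ⟨DB, hDB, hUB⟩ := upper hn (costB T α p) (costB_zero T α p hp) (costB_add T α p hp hp1) p
    hp hp1 (costB_smul T α p hp) e he0 L V M hV hB hκ
    (fun h η => by
      obtain ⟨C, hC, h1⟩ := costB_dil α p hα hp N k hN hk L hL1 h η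
      exact ⟨C, hC, h1 T⟩)
  constructor
  · intro h0
    refine le_antisymm (le_of_forall_gt fun ε hε => ?_) bot_le
    obtain ⟨δ₁, hδ₁, h1⟩ := small_mul (C := CA) hCA (one_ne_zero)
    obtain ⟨δ₂, hδ₂, h2⟩ := small_mul (C := DB * CA) (ENNReal.mul_ne_top hDB hCA) hε.ne'
    obtain ⟨u, hu, hub⟩ := capA_lt (δ := min δ₁ δ₂) (by
      rw [h0]; exact pos_iff_ne_zero.2 (by
        rcases min_choice δ₁ δ₂ with h | h <;> rw [h] <;> assumption))
    obtain ⟨d, hd⟩ := hA K u hu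
    have h3 : CA * besov φ α p u ≤ CA * δ₁ := by
      gcongr
      exact hub.le.trans (min_le_left _ _)
    obtain ⟨U, hUs, hU, hUc⟩ := hUB K hK d ((hd.trans h3).trans_lt h1)
    calc capB T α p D' K ≤ costB T α p U := capB_le U (hD' U hUs) hU
      _ ≤ DB * (CA * besov φ α p u) := hUc.trans (by gcongr)
      _ ≤ DB * CA * δ₂ := by
        rw [← mul_assoc]
        gcongr
        exact hub.le.trans (min_le_right _ _)
      _ < ε := h2
  · intro h0
    refine le_antisymm (le_of_forall_gt fun ε hε => ?_) bot_le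
    obtain ⟨δ₁, hδ₁, h1⟩ := small_mul (C := CB) hCB (one_ne_zero)
    obtain ⟨δ₂, hδ₂, h2⟩ := small_mul (C := DA * CB) (ENNReal.mul_ne_top hDA hCB) hε.ne'
    obtain ⟨f, hf, hfb⟩ := capB_lt (δ := min cB (min δ₁ δ₂)) (by
      rw [h0]; exact pos_iff_ne_zero.2 (by
        rcases min_choice cB (min δ₁ δ₂) with h | h <;> rw [h]
        · exact hcB
        · rcases min_choice δ₁ δ₂ with h | h <;> rw [h] <;> assumption))
    obtain ⟨d, hd⟩ := hBl T hT K f hf (hfb.le.trans (min_le_left _ _))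
    have h3 : CB * hardy T p f ≤ CB * δ₁ := by
      gcongr
      exact hfb.le.trans ((min_le_right _ _).trans (min_le_left _ _))
    obtain ⟨U, hUs, hU, hUc⟩ := hUA K hK d ((hd.trans h3).trans_lt h1)
    calc capA φ α p D K ≤ besov φ α p U := capA_le U (hD U hUs) hU
      _ ≤ DA * (CB * hardy T p f) := hUc.trans (by gcongr)
      _ ≤ DA * CB * δ₂ := by
        rw [← mul_assoc]
        gcongr
        exact hfb.le.trans ((min_le_right _ _).trans (min_le_right _ _))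
      _ < ε := h2

lemma main_large (hn : 0 < n) (φ : E n → ℝ) (hφ : IsCutoff φ) (α p : ℝ) (hα : 0 < α)
    (hp : 0 < p) (hp1 : p ≤ 1) (hαp : n ≤ α * p) (T : ℝ≥0∞) (hT : 1 ≤ T)
    (D D' : Set 𝓢(E n, ℂ)) (hD : ∀ u : 𝓢(E n, ℂ), HasCompactSupport u → u ∈ D)
    (hD' : ∀ u : 𝓢(E n, ℂ), HasCompactSupport u → u ∈ D') (K : Set (E n)) :
    capA φ α p D K = 0 ↔ capB T α p D' K = 0 := by
  have hr : (1 : ℝ≥0∞) ≤ ENNReal.ofReal (((2 : ℝ) ^ 1) ^ (α * p - n)) := by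
    rw [ENNReal.one_le_ofReal]
    exact Real.one_le_rpow (by norm_num) (by linarith)
  obtain ⟨CA, hCA, hA⟩ := lowerA φ hφ α p hα hp hp1 1 one_pos 1 hr
  obtain ⟨CB, cB, hCB, hcB, hBl⟩ := lowerB hn α p hα hp hp1 1 one_pos 1 hr
  have hsum : ∀ x ∈ K, ∀ d, 1 ≤ ∑' m, cont (2 ^ 1) K 1 d 0 m := fun x hx d =>
    (one_le_cont (by norm_num) K x hx d 0).trans (ENNReal.le_tsum _)
  have e1 : capA φ α p D K = 0 ↔ K = ∅ := by
    constructor
    · intro h0
      by_contra hne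
      obtain ⟨x, hx⟩ := Set.nonempty_iff_ne_empty.2 hne
      obtain ⟨δ, hδ, h1⟩ := small_mul (C := CA) hCA (one_ne_zero)
      obtain ⟨u, hu, hub⟩ := capA_lt (δ := δ) (by rw [h0]; exact pos_iff_ne_zero.2 hδ)
      obtain ⟨d, hd⟩ := hA K u hu
      have h3 : CA * besov φ α p u ≤ CA * δ := by gcongr
      exact absurd ((hsum x hx d).trans (hd.trans h3)) (not_le.2 h1)
    · rintro rfl
      have := capA_le (φ := φ) (α := α) (p := p) (K := ∅) (0 : 𝓢(E n, ℂ)) (hD 0 isRe_zero.2)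
        ⟨fun x => by simp, fun x hx => absurd hx (Set.notMem_empty x)⟩
      rw [besov_zero φ α p hp] at this
      exact le_antisymm this bot_le
  have e2 : capB T α p D' K = 0 ↔ K = ∅ := by
    constructor
    · intro h0
      by_contra hne
      obtain ⟨x, hx⟩ := Set.nonempty_iff_ne_empty.2 hne
      obtain ⟨δ, hδ, h1⟩ := small_mul (C := CB) hCB (one_ne_zero)
      obtain ⟨f, hf, hfb⟩ := capB_lt (δ := min cB δ) (by
        rw [h0]; exact pos_iff_ne_zero.2 (by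
          rcases min_choice cB δ with h | h <;> rw [h] <;> assumption))
      obtain ⟨d, hd⟩ := hBl T hT K f hf (hfb.le.trans (min_le_left _ _))
      have h3 : CB * hardy T p f ≤ CB * δ := by
        gcongr
        exact hfb.le.trans (min_le_right _ _)
      exact absurd ((hsum x hx d).trans (hd.trans h3)) (not_le.2 h1)
    · rintro rfl
      have := capB_le (T := T) (α := α) (p := p) (K := ∅) (0 : 𝓢(E n, ℂ)) (hD' 0 isRe_zero.2)
        ⟨fun x => by simp, fun x hx => absurd hx (Set.notMem_empty x)⟩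
      rw [costB_zero T α p hp] at this
      exact le_antisymm this bot_le
  rw [e1, e2]

end Pool.Agent.Helper41K9.BH
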